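import Pool.Agent.J4H99.SD.Perm

/-!
# Orientation of graphs of degree two
-/

set_option autoImplicit false

open Equiv Equiv.Perm

namespace Pool.Agent.J4H99.SD

theorem exists_orient {α : Type*} {c : α → α → Prop} (hs : ∀ v w, c v w → c w v)
    (hirr : ∀ v, ¬ c v v) {W : Set α}
    (hW : ∀ v ∈ W, ∃ a b, a ≠ b ∧ a ∈ W ∧ b ∈ W ∧ ∀ w, c v w ↔ w = a ∨ w = b) :
    ∃ ρ : Perm α, (∀ v, v ∉ W → ρ v = v) ∧ ∀ v ∈ W, ρ v ∈ W ∧ c v (ρ v) ∧ ρ (ρ v) ≠ v := by
  classical
  have hcl : ∀ v ∈ W, ∀ w, c v w → w ∈ W := by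
    intro v hv w hw
    obtain ⟨a, b, -, ha, hb, h⟩ := hW v hv
    rcases (h w).1 hw with rfl | rfl
    · exact ha
    · exact hb
  have key : ∀ w v, w ∈ W ∧ c w v → ∃ z, z ≠ v ∧ c w z ∧ ∀ z', c w z' → z' = v ∨ z' = z := by
    rintro w v ⟨hw, hv⟩
    obtain ⟨a, b, hab, ha, hb, h⟩ := hW w hw
    rcases (h v).1 hv with rfl | rfl
    · exact ⟨b, hab.symm, (h b).2 (Or.inr rfl), fun z' hz' => (h z').1 hz'⟩
    · exact ⟨a, hab, (h a).2 (Or.inl rfl), fun z' hz' => ((h z').1 hz').symm⟩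
  let o : α → α → α := fun w v => if h : w ∈ W ∧ c w v then (key w v h).choose else v
  have ho : ∀ w v, w ∈ W → c w v → o w v ≠ v ∧ c w (o w v) ∧ ∀ z', c w z' → z' = v ∨ z' = o w v := by
    intro w v hw hv
    have h : w ∈ W ∧ c w v := ⟨hw, hv⟩
    have h2 : o w v = (key w v h).choose := by simp only [o, dif_pos h]
    rw [h2]
    exact (key w v h).choose_spec
  have hoo : ∀ w v, w ∈ W → c w v → o w (o w v) = v := by
    intro w v hw hv
    obtain ⟨h1, h2, h3⟩ := ho w v hw hv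
    obtain ⟨h4, h5, h6⟩ := ho w (o w v) hw h2
    rcases h6 v hv with h | h
    · exact absurd h.symm h1
    · exact h.symm
  let Dt := {d : α × α // d.1 ∈ W ∧ c d.1 d.2}
  have hd2 : ∀ d : Dt, d.1.2 ∈ W := fun d => hcl _ d.2.1 _ d.2.2
  let N : Perm Dt :=
    { toFun := fun d => ⟨(d.1.2, o d.1.2 d.1.1), hd2 d, (ho _ _ (hd2 d) (hs _ _ d.2.2)).2.1⟩
      invFun := fun d => ⟨(o d.1.1 d.1.2, d.1.1),
        hcl _ d.2.1 _ (ho _ _ d.2.1 d.2.2).2.1, hs _ _ (ho _ _ d.2.1 d.2.2).2.1⟩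
      left_inv := by
        intro d
        apply Subtype.ext
        apply Prod.ext
        · exact hoo _ _ (hd2 d) (hs _ _ d.2.2)
        · rfl
      right_inv := by
        intro d
        apply Subtype.ext
        apply Prod.ext
        · rfl
        · exact hoo _ _ d.2.1 d.2.2 }
  let r : Dt → Dt := fun d => ⟨(d.1.2, d.1.1), hd2 d, hs _ _ d.2.2⟩
  have hrr : ∀ d, r (r d) = d := fun d => rfl
  have hrN : ∀ d, r (N d) = N⁻¹ (r d) := fun d => rfl
  have hrN' : ∀ d, r (N⁻¹ d) = N (r d) := fun d => rfl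
  have hpow : ∀ (k : ℤ) (d : Dt), r ((N ^ k) d) = (N ^ (-k)) (r d) := by
    intro k d
    induction k using Int.induction_on with
    | zero => simp
    | succ k ih =>
      rw [add_comm, zpow_add, zpow_one, Perm.mul_apply, hrN, ih, neg_add, zpow_add, zpow_neg_one,
        Perm.mul_apply]
    | pred k ih =>
      have h1 : (N ^ (-(k : ℤ) - 1)) d = N⁻¹ ((N ^ (-(k : ℤ))) d) := by
        rw [← Perm.mul_apply, ← zpow_neg_one, ← zpow_add]
        congr 2
        ring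
      rw [h1, hrN', ih, ← Perm.mul_apply, ← zpow_one_add]
      congr 2
      ring
  have hns : ∀ d, ¬ SameCycle N d (r d) := by
    rintro d ⟨k, hk⟩
    rcases Int.even_or_odd' k with ⟨j, rfl | rfl⟩
    · have h1 : r ((N ^ j) d) = (N ^ j) d := by
        rw [hpow, ← hk, ← Perm.mul_apply, ← zpow_add]
        congr 2
        ring
      have h2 : ((N ^ j) d).1.2 = ((N ^ j) d).1.1 := congrArg (fun e : Dt => e.1.1) h1
      have h3 := ((N ^ j) d).2.2
      rw [h2] at h3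
      exact hirr _ h3
    · have h1 : r ((N ^ j) d) = N ((N ^ j) d) := by
        rw [hpow, ← hk, ← Perm.mul_apply, ← zpow_add, ← Perm.mul_apply, ← zpow_one_add]
        congr 2
        ring
      have h2 : ((N ^ j) d).1.1 = o ((N ^ j) d).1.2 ((N ^ j) d).1.1 :=
        congrArg (fun e : Dt => e.1.2) h1
      exact (ho _ _ (hd2 _) (hs _ _ ((N ^ j) d).2.2)).1 h2.symm
  let Q := Quotient (SameCycle.setoid N)
  let mk : Dt → Q := fun d => Quotient.mk _ d
  have hmk : ∀ d e, mk d = mk e ↔ SameCycle N d e := fun d e => Quotient.eq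
  let R : Q → Q → Prop := WellOrderingRel
  let O : Dt → Prop := fun d => R (mk d) (mk (r d))
  have hmkN : ∀ d, mk (N d) = mk d := fun d =>
    (hmk _ _).2 ((sameCycle_apply_left).2 (SameCycle.refl _ _))
  have hmkN' : ∀ d, mk (N⁻¹ d) = mk d := by
    intro d
    have := hmkN (N⁻¹ d)
    rw [← this]
    simp
  have hON : ∀ d, O (N d) ↔ O d := by
    intro d
    simp only [O, hrN, hmkN, hmkN']
  have hOr : ∀ d, O (r d) ↔ ¬ O d := by
    intro d
    simp only [O, hrr]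
    constructor
    · intro h1 h2
      exact asymm (r := R) h1 h2
    · intro h
      rcases trichotomous_of R (mk d) (mk (r d)) with h1 | h1 | h1
      · exact absurd h1 h
      · exact absurd ((hmk _ _).1 h1) (hns d)
      · exact h1
  let OO : α → α → Prop := fun v w => ∃ h : v ∈ W ∧ c v w, O ⟨(v, w), h⟩
  have hex : ∀ v ∈ W, ∃ w, OO v w ∧ ∀ w', OO v w' → w' = w := by
    intro v hv
    obtain ⟨a, b, hab, ha, hb, h⟩ := hW v hv
    have hca : c v a := (h a).2 (Or.inl rfl)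
    have hcb : c v b := (h b).2 (Or.inr rfl)
    have hb' : b = o v a := by
      rcases (ho v a hv hca).2.2 b hcb with h1 | h1
      · exact absurd h1.symm hab
      · exact h1
    let da : Dt := ⟨(v, a), hv, hca⟩
    let db : Dt := ⟨(v, b), hv, hcb⟩
    have h1 : N (r da) = db := by
      apply Subtype.ext
      apply Prod.ext
      · rfl
      · exact hb'.symm
    have h2 : O db ↔ ¬ O da := by
      rw [← h1, hON, hOr]
    by_cases h3 : O da
    · refine ⟨a, ⟨⟨hv, hca⟩, h3⟩, ?_⟩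
      rintro w' ⟨hw', hO⟩
      rcases (h w').1 hw'.2 with rfl | rfl
      · rfl
      · exact absurd h3 (h2.1 hO)
    · refine ⟨b, ⟨⟨hv, hcb⟩, h2.2 h3⟩, ?_⟩
      rintro w' ⟨hw', hO⟩
      rcases (h w').1 hw'.2 with rfl | rfl
      · exact absurd hO h3
      · rfl
  let s : α → α := fun v => if h : v ∈ W then (hex v h).choose else v
  have hsW : ∀ v ∈ W, OO v (s v) ∧ ∀ w', OO v w' → w' = s v := by
    intro v hv
    have : s v = (hex v hv).choose := by simp only [s, dif_pos hv]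
    rw [this]
    exact (hex v hv).choose_spec
  have hs' : ∀ v, v ∉ W → s v = v := fun v hv => by simp only [s, dif_neg hv]
  let t : α → α := fun v => if v ∈ W then o v (s v) else v
  have htW : ∀ v ∈ W, t v = o v (s v) := fun v hv => by simp only [t, if_pos hv]
  have ht' : ∀ v, v ∉ W → t v = v := fun v hv => by simp only [t, if_neg hv]
  have hss : ∀ v ∈ W, s (s v) = o (s v) v := by
    intro v hv
    obtain ⟨⟨h1, h2⟩, h3⟩ := hsW v hv
    have hsv : s v ∈ W := hcl v hv _ h1.2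
    refine ((hsW (s v) hsv).2 _ ?_).symm
    have h4 := (hON ⟨(v, s v), h1⟩).2 h2
    exact ⟨⟨hsv, (ho _ _ hsv (hs _ _ h1.2)).2.1⟩, h4⟩
  refine ⟨⟨s, t, ?_, ?_⟩, ?_, ?_⟩
  · intro v
    by_cases hv : v ∈ W
    · obtain ⟨⟨h1, h2⟩, h3⟩ := hsW v hv
      have hsv : s v ∈ W := hcl v hv _ h1.2
      rw [htW _ hsv, hss v hv, hoo _ _ hsv (hs _ _ h1.2)]
    · rw [hs' v hv, ht' v hv]
  · intro v
    by_cases hv : v ∈ W
    · obtain ⟨⟨h1, h2⟩, h3⟩ := hsW v hv
      rw [htW v hv]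
      obtain ⟨h4, h5, h6⟩ := ho v (s v) hv h1.2
      have htv : o v (s v) ∈ W := hcl v hv _ h5
      refine ((hsW _ htv).2 v ?_).symm
      refine ⟨⟨htv, hs _ _ h5⟩, ?_⟩
      have h7 : ¬ O ⟨(v, o v (s v)), hv, h5⟩ := by
        intro hc
        exact h4 (h3 _ ⟨⟨hv, h5⟩, hc⟩)
      exact (hOr ⟨(v, o v (s v)), hv, h5⟩).2 h7
    · rw [ht' v hv, hs' v hv]
  · intro v hv
    exact hs' v hv
  · intro v hv
    obtain ⟨⟨h1, h2⟩, h3⟩ := hsW v hv
    have hsv : s v ∈ W := hcl v hv _ h1.2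
    refine ⟨hsv, h1.2, ?_⟩
    show s (s v) ≠ v
    rw [hss v hv]
    exact (ho _ _ hsv (hs _ _ h1.2)).1

/-- glueing permutations with disjoint supports -/
theorem glue {α : Type*} {I : Type*} (g : I → Perm α) (A : I → Set α)
    (hdis : ∀ i j v, v ∈ A i → v ∈ A j → i = j) (hg : ∀ i v, v ∉ A i → g i v = v) :
    ∃ G : Perm α, (∀ i, ∀ v ∈ A i, G v = g i v ∧ G⁻¹ v = (g i)⁻¹ v) ∧
      ∀ v, (∀ i, v ∉ A i) → G v = v := by
  classical
  have hmap : ∀ i, ∀ v ∈ A i, g i v ∈ A i := by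
    intro i v hv
    by_contra hc
    have h1 := (g i).injective (hg i _ hc)
    rw [h1] at hc
    exact hc hv
  have hmap' : ∀ i, ∀ v ∈ A i, (g i)⁻¹ v ∈ A i := by
    intro i v hv
    by_contra hc
    have h1 := hg i _ hc
    have h2 : (g i) ((g i)⁻¹ v) = v := by simp
    rw [h2] at h1
    rw [← h1] at hc
    exact hc hv
  let s : α → α := fun v => if h : ∃ i, v ∈ A i then g h.choose v else v
  let t : α → α := fun v => if h : ∃ i, v ∈ A i then (g h.choose)⁻¹ v else v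
  have hs1 : ∀ i, ∀ v ∈ A i, s v = g i v := by
    intro i v hv
    have h : ∃ i, v ∈ A i := ⟨i, hv⟩
    have h2 : s v = g h.choose v := by simp only [s, dif_pos h]
    rw [h2, hdis _ _ v h.choose_spec hv]
  have ht1 : ∀ i, ∀ v ∈ A i, t v = (g i)⁻¹ v := by
    intro i v hv
    have h : ∃ i, v ∈ A i := ⟨i, hv⟩
    have h2 : t v = (g h.choose)⁻¹ v := by simp only [t, dif_pos h]
    rw [h2, hdis _ _ v h.choose_spec hv]
  have hs2 : ∀ v, (∀ i, v ∉ A i) → s v = v := by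
    intro v hv
    have h : ¬ ∃ i, v ∈ A i := by push Not; exact hv
    simp only [s, dif_neg h]
  have ht2 : ∀ v, (∀ i, v ∉ A i) → t v = v := by
    intro v hv
    have h : ¬ ∃ i, v ∈ A i := by push Not; exact hv
    simp only [t, dif_neg h]
  refine ⟨⟨s, t, ?_, ?_⟩, ?_, ?_⟩
  · intro v
    by_cases h : ∃ i, v ∈ A i
    · obtain ⟨i, hi⟩ := h
      rw [hs1 i v hi, ht1 i _ (hmap i v hi)]
      simp
    · push Not at h
      rw [hs2 v h, ht2 v h]
  · intro v
    by_cases h : ∃ i, v ∈ A i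
    · obtain ⟨i, hi⟩ := h
      rw [ht1 i v hi, hs1 i _ (hmap' i v hi)]
      simp
    · push Not at h
      rw [ht2 v h, hs2 v h]
  · intro i v hv
    exact ⟨hs1 i v hv, ht1 i v hv⟩
  · intro v hv
    exact hs2 v hv

/-- extension of an orientation given on a closed part -/
theorem exists_orient_ext {α : Type*} {c : α → α → Prop} (hs : ∀ v w, c v w → c w v)
    (hirr : ∀ v, ¬ c v v) {W T : Set α} (hTW : T ⊆ W)
    (hW : ∀ v ∈ W, ∃ a b, a ≠ b ∧ a ∈ W ∧ b ∈ W ∧ ∀ w, c v w ↔ w = a ∨ w = b)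
    (τ : Perm α) (hτ : ∀ v, v ∉ T → τ v = v)
    (hτ' : ∀ v ∈ T, c v (τ v) ∧ τ (τ v) ≠ v) :
    ∃ ρ : Perm α, (∀ v, v ∉ W → ρ v = v) ∧ (∀ v ∈ W, ρ v ∈ W ∧ c v (ρ v) ∧ ρ (ρ v) ≠ v) ∧
      ∀ v ∈ T, ρ v = τ v := by
  classical
  have hTm : ∀ v ∈ T, τ v ∈ T := by
    intro v hv
    by_contra hc
    have h1 := τ.injective (hτ _ hc)
    rw [h1] at hc
    exact hc hv
  have hTm' : ∀ v ∈ T, τ⁻¹ v ∈ T := by
    intro v hv
    by_contra hc
    have h1 := hτ _ hc
    have h2 : τ (τ⁻¹ v) = v := by simp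
    rw [h2] at h1
    rw [← h1] at hc
    exact hc hv
  have hTcl : ∀ v ∈ T, ∀ w, c v w → w ∈ T := by
    intro v hv w hw
    obtain ⟨a, b, hab, ha, hb, h⟩ := hW v (hTW hv)
    have h1 : c v (τ v) := (hτ' v hv).1
    have h2 : c v (τ⁻¹ v) := by
      have := (hτ' _ (hTm' v hv)).1
      have h3 : τ (τ⁻¹ v) = v := by simp
      rw [h3] at this
      exact hs _ _ this
    have h3 : τ v ≠ τ⁻¹ v := by
      intro hc
      apply (hτ' v hv).2
      rw [hc]
      simp
    have hm1 := hTm v hv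
    have hm2 := hTm' v hv
    have hcw := (h w).1 hw
    have hc1 := (h _).1 h1
    have hc2 := (h _).1 h2
    rcases hcw with rfl | rfl
    · rcases hc1 with h4 | h4
      · rw [← h4]; exact hm1
      · rcases hc2 with h5 | h5
        · rw [← h5]; exact hm2
        · exact absurd (h4.trans h5.symm) h3
    · rcases hc1 with h4 | h4
      · rcases hc2 with h5 | h5
        · exact absurd (h4.trans h5.symm) h3
        · rw [← h5]; exact hm2
      · rw [← h4]; exact hm1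
  obtain ⟨ρ1, h1, h2⟩ := exists_orient (c := c) hs hirr (W := W \ T) (by
    rintro v ⟨hv, hvT⟩
    obtain ⟨a, b, hab, ha, hb, h⟩ := hW v hv
    refine ⟨a, b, hab, ⟨ha, ?_⟩, ⟨hb, ?_⟩, h⟩
    · intro hc
      exact hvT (hTcl a hc v (hs _ _ ((h a).2 (Or.inl rfl))))
    · intro hc
      exact hvT (hTcl b hc v (hs _ _ ((h b).2 (Or.inr rfl)))))
  obtain ⟨G, hG1, hG2⟩ := glue (fun i : Bool => if i then τ else ρ1)
    (fun i : Bool => if i then T else W \ T) (by
      rintro (_ | _) (_ | _) v hi hj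
      · rfl
      · exact absurd hj hi.2
      · exact absurd hi hj.2
      · rfl) (by
      rintro (_ | _) v hv
      · exact h1 v hv
      · exact hτ v hv)
  have hGT : ∀ v ∈ T, G v = τ v := fun v hv => (hG1 true v hv).1
  have hGW : ∀ v ∈ W \ T, G v = ρ1 v := fun v hv => (hG1 false v hv).1
  refine ⟨G, ?_, ?_, hGT⟩
  · intro v hv
    refine hG2 v ?_
    rintro (_ | _)
    · exact fun h => hv h.1
    · exact fun h => hv (hTW h)
  · intro v hv
    by_cases hT : v ∈ T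
    · rw [hGT v hT, hGT _ (hTm v hT)]
      exact ⟨hTW (hTm v hT), (hτ' v hT).1, (hτ' v hT).2⟩
    · have hvW : v ∈ W \ T := ⟨hv, hT⟩
      obtain ⟨h3, h4, h5⟩ := h2 v hvW
      rw [hGW v hvW, hGW _ h3]
      exact ⟨h3.1, h4, h5⟩

end Pool.Agent.J4H99.SD
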