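import Pool.Agent.J4H99.SD.Perm

/-!
# Joining the cycles of a permutation along a connected graph of flips (Prim's algorithm)
-/

set_option autoImplicit false

open Equiv Equiv.Perm

namespace Pool.Agent.J4H99.SD

variable {α ι : Type*} [DecidableEq α]

structure PQ (f0 : Perm α) (D : Set α) (C : Finset α) (ν : α → ι) (O : Set α) (p : α → α)
    (U : Finset α) (f : Perm α) (S : Set α) : Prop where
  UC : U ⊆ C
  Ucl : ∀ v ∈ U, ∀ w ∈ C, ν v = ν w → w ∈ U
  SO : ∀ v ∈ S, v ∈ O
  SU : ∀ v ∈ S, v ∈ U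
  Sp : ∀ v ∈ S, p v ∈ S
  fS : ∀ v ∈ S, f v = f0 (p v)
  fS' : ∀ v, v ∉ S → f v = f0 v
  cyc : ∀ v ∈ U, ∀ w ∈ U, SameCycle f v w
  mono : ∀ a b, SameCycle f0 a b → SameCycle f a b
  no2 : ∀ v ∈ D, f v ≠ v ∧ f (f v) ≠ v

theorem prim_aux {f0 : Perm α} {D : Set α} (hDfin : D.Finite) {C : Finset α} {ν : α → ι}
    {O : Set α} {p : α → α}
    (hD : ∀ v, v ∉ D → f0 v = v) (hCD : ∀ v ∈ C, v ∈ D)
    (hC : ∀ v ∈ C, ∀ w ∈ C, SameCycle f0 v w ↔ ν v = ν w)
    (hO : ∀ v ∈ O, v ∈ C ∧ p v ∈ C ∧ p v ∈ O ∧ p (p v) = v ∧ ν v ≠ ν (p v))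
    (hconn : ∀ U : Finset α, U ⊆ C → U.Nonempty → (∀ v ∈ U, ∀ w ∈ C, ν v = ν w → w ∈ U) →
      (∀ v ∈ O, v ∈ U → p v ∈ U) → C ⊆ U)
    (k : ℕ) : ∀ (U : Finset α) (f : Perm α) (S : Set α), U.Nonempty → (C \ U).card = k →
      PQ f0 D C ν O p U f S → ∃ (f : Perm α) (S : Set α), PQ f0 D C ν O p C f S := by
  classical
  induction k using Nat.strong_induction_on with
  | _ k ih =>
    intro U f S hne hcard h
    by_cases hall : C ⊆ U
    · have : U = C := Finset.Subset.antisymm h.UC hall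
      subst this
      exact ⟨f, S, h⟩
    · have h1 : ¬ ∀ v ∈ O, v ∈ U → p v ∈ U := fun hc => hall (hconn U h.UC hne h.Ucl hc)
      push Not at h1
      obtain ⟨v, hvO, hvU, hpU⟩ := h1
      obtain ⟨hvC, hpC, hpO, hpp, hνne⟩ := hO v hvO
      have hvS : v ∉ S := fun hc => hpU (h.SU _ (h.Sp _ hc))
      have hpS : p v ∉ S := fun hc => hpU (h.SU _ hc)
      have hfin : ∀ a, FinOrb f a := by
        refine finOrb_of_finite (S := D) hDfin ?_
        intro a ha
        rw [h.fS' a, hD a ha]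
        intro hc
        exact ha (hCD _ (h.UC (h.SU _ hc)))
      have hagree : ∀ c, SameCycle f0 (p v) c → f c = f0 c := by
        intro c hc
        refine h.fS' c ?_
        intro hcS
        have hcU := h.SU _ hcS
        have hν := (hC _ hpC _ (h.UC hcU)).1 hc
        exact hpU (h.Ucl _ hcU _ hpC hν.symm)
      have hns : ¬ SameCycle f v (p v) := by
        intro hc
        have := sc_of_agree hagree hc.symm
        exact hνne ((hC _ hpC _ hvC).1 this).symm
      set U' : Finset α := U ∪ C.filter (fun w => ν w = ν (p v)) with hU'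
      have hpU' : p v ∈ U' := by simp [hU', hpC]
      have hUU' : ∀ w ∈ U, w ∈ U' := fun w hw => by simp [hU', hw]
      have hQ : PQ f0 D C ν O p U' (f * swap v (p v)) (S ∪ {v, p v}) := by
        refine ⟨?_, ?_, ?_, ?_, ?_, ?_, ?_, ?_, ?_, ?_⟩
        · intro w hw
          simp only [hU', Finset.mem_union, Finset.mem_filter] at hw
          rcases hw with hw | hw
          · exact h.UC hw
          · exact hw.1
        · intro a ha w hw hν
          simp only [hU', Finset.mem_union, Finset.mem_filter] at ha ⊢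
          rcases ha with ha | ha
          · exact Or.inl (h.Ucl _ ha _ hw hν)
          · exact Or.inr ⟨hw, by rw [← hν, ha.2]⟩
        · rintro a (ha | rfl | ha)
          · exact h.SO _ ha
          · exact hvO
          · rw [Set.mem_singleton_iff] at ha; rw [ha]; exact hpO
        · rintro a (ha | rfl | ha)
          · exact hUU' _ (h.SU _ ha)
          · exact hUU' _ hvU
          · rw [Set.mem_singleton_iff] at ha; rw [ha]; exact hpU'
        · rintro a (ha | rfl | ha)
          · exact Or.inl (h.Sp _ ha)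
          · right; right; rfl
          · rw [Set.mem_singleton_iff] at ha; rw [ha, hpp]; right; left; rfl
        · rintro a (ha | rfl | ha)
          · rw [mul_swap_of_ne, h.fS _ ha]
            · rintro rfl; exact hvS ha
            · rintro rfl; exact hpS ha
          · rw [mul_swap_left, h.fS' _ hpS]
          · rw [Set.mem_singleton_iff] at ha; rw [ha, mul_swap_right, h.fS' _ hvS, hpp]
        · intro a ha
          have ha1 : a ∉ S := fun hc => ha (Or.inl hc)
          rw [mul_swap_of_ne, h.fS' _ ha1]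
          · rintro rfl; exact ha (Or.inr (Or.inl rfl))
          · rintro rfl; exact ha (Or.inr (Or.inr rfl))
        · have key : ∀ w ∈ U', SameCycle (f * swap v (p v)) v w := by
            intro w hw
            simp only [hU', Finset.mem_union, Finset.mem_filter] at hw
            rcases hw with hw | hw
            · exact merge_left hfin hns (h.cyc _ hvU _ hw)
            · refine merge_right hfin hns (h.mono _ _ ?_)
              exact (hC _ hpC _ hw.1).2 hw.2.symm
          intro a ha w hw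
          exact (key a ha).symm.trans (key w hw)
        · intro a b hab
          exact merge_mono hfin hns (h.mono _ _ hab)
        · intro a ha
          exact merge_no2 h.no2 (hCD _ hvC) (hCD _ hpC) hns ha
      have hlt : (C \ U').card < k := by
        rw [← hcard]
        refine Finset.card_lt_card ?_
        rw [Finset.ssubset_iff_of_subset]
        · exact ⟨p v, by simp [hpC, hpU], by simp [hpU']⟩
        · intro w hw
          rw [Finset.mem_sdiff] at hw ⊢
          exact ⟨hw.1, fun hc => hw.2 (hUU' _ hc)⟩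
      exact ih _ hlt U' _ _ (hne.mono fun w hw => hUU' w hw) rfl hQ

theorem prim {f0 : Perm α} {D : Set α} (hDfin : D.Finite) {C : Finset α} {ν : α → ι}
    {O : Set α} {p : α → α}
    (hD : ∀ v, v ∉ D → f0 v = v) (hCD : ∀ v ∈ C, v ∈ D)
    (hno2 : ∀ v ∈ D, f0 v ≠ v ∧ f0 (f0 v) ≠ v)
    (hC : ∀ v ∈ C, ∀ w ∈ C, SameCycle f0 v w ↔ ν v = ν w)
    (hO : ∀ v ∈ O, v ∈ C ∧ p v ∈ C ∧ p v ∈ O ∧ p (p v) = v ∧ ν v ≠ ν (p v))
    (hconn : ∀ U : Finset α, U ⊆ C → U.Nonempty → (∀ v ∈ U, ∀ w ∈ C, ν v = ν w → w ∈ U) →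
      (∀ v ∈ O, v ∈ U → p v ∈ U) → C ⊆ U)
    (hne : C.Nonempty) :
    ∃ (f : Perm α) (S : Set α), (∀ v ∈ S, v ∈ O) ∧ (∀ v ∈ S, f v = f0 (p v)) ∧
      (∀ v, v ∉ S → f v = f0 v) ∧ (∀ v ∈ C, ∀ w ∈ C, SameCycle f v w) ∧
      (∀ a b, SameCycle f0 a b → SameCycle f a b) ∧ (∀ v ∈ D, f v ≠ v ∧ f (f v) ≠ v) := by
  classical
  obtain ⟨u, hu⟩ := hne
  have hQ : PQ f0 D C ν O p (C.filter (fun w => ν u = ν w)) f0 ∅ := by
    refine ⟨Finset.filter_subset _ _, ?_, by simp, by simp, by simp, by simp, by simp, ?_,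
      fun a b h => h, hno2⟩
    · intro v hv w hw h
      rw [Finset.mem_filter] at hv ⊢
      exact ⟨hw, hv.2.trans h⟩
    · intro v hv w hw
      rw [Finset.mem_filter] at hv hw
      exact (hC _ hv.1 _ hw.1).2 (hv.2.symm.trans hw.2)
  obtain ⟨f, S, h⟩ := prim_aux hDfin hD hCD hC hO hconn _ _ f0 ∅
    ⟨u, by simp [hu]⟩ rfl hQ
  exact ⟨f, S, h.SO, h.fS, h.fS', h.cyc, h.mono, h.no2⟩

end Pool.Agent.J4H99.SD
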