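import Pool.Agent.J4H99.SD.Norm
import Pool.Agent.J4H99.SD.Prim
import Pool.Agent.J4H99.SD.Orient

/-!
# Assembling normalised rectangles inside a large square
-/

set_option autoImplicit false

open Equiv Equiv.Perm

namespace Pool.Agent.J4H99.SD

/-- rotation of the blocks of four vertices -/
def rotF (v : V) : V :=
  if v.1 % 2 = 0 then (if v.2 % 2 = 0 then (v.1 + 1, v.2) else (v.1, v.2 - 1))
  else (if v.2 % 2 = 0 then (v.1, v.2 + 1) else (v.1 - 1, v.2))

def rotB (v : V) : V :=
  if v.1 % 2 = 0 then (if v.2 % 2 = 0 then (v.1, v.2 + 1) else (v.1 + 1, v.2))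
  else (if v.2 % 2 = 0 then (v.1 - 1, v.2) else (v.1, v.2 - 1))

/-- the neighbour outside the block -/
def dirF (v : V) : V :=
  if v.1 % 2 = 0 then (if v.2 % 2 = 0 then (v.1, v.2 - 1) else (v.1 - 1, v.2))
  else (if v.2 % 2 = 0 then (v.1 + 1, v.2) else (v.1, v.2 + 1))

/-- the partner in the neighbouring block -/
def pF (v : V) : V :=
  if v.1 % 2 = 0 then (if v.2 % 2 = 0 then (v.1 + 1, v.2 - 1) else (v.1 - 1, v.2 - 1))
  else (if v.2 % 2 = 0 then (v.1 + 1, v.2 + 1) else (v.1 - 1, v.2 + 1))

lemma rotB_rotF (v : V) : rotB (rotF v) = v := by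
  obtain ⟨x, y⟩ := v
  unfold rotF
  dsimp only
  split_ifs <;> unfold rotB <;> dsimp only <;> split_ifs <;>
    first
    | rfl
    | (exfalso; omega)
    | (ext <;> dsimp only <;> omega)

lemma rotF_rotB (v : V) : rotF (rotB v) = v := by
  obtain ⟨x, y⟩ := v
  unfold rotB
  dsimp only
  split_ifs <;> unfold rotF <;> dsimp only <;> split_ifs <;>
    first
    | rfl
    | (exfalso; omega)
    | (ext <;> dsimp only <;> omega)

lemma pF_pF (v : V) : pF (pF v) = v := by
  obtain ⟨x, y⟩ := v
  unfold pF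
  dsimp only
  split_ifs <;> dsimp only at * <;>
    first
    | rfl
    | (exfalso; omega)
    | (ext <;> dsimp only <;> omega)

lemma rotF_pF (v : V) : rotF (pF v) = dirF v := by
  obtain ⟨x, y⟩ := v
  unfold pF
  dsimp only
  split_ifs <;> unfold rotF dirF <;> dsimp only <;> split_ifs <;>
    first
    | rfl
    | (exfalso; omega)
    | (ext <;> dsimp only <;> omega)

lemma dirF_pF (v : V) : dirF (pF v) = rotF v := by
  obtain ⟨x, y⟩ := v
  unfold pF
  dsimp only
  split_ifs <;> unfold rotF dirF <;> dsimp only <;> split_ifs <;>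
    first
    | rfl
    | (exfalso; omega)
    | (ext <;> dsimp only <;> omega)

/-- being in the same block -/
def SB (v w : V) : Prop := v.1 / 2 = w.1 / 2 ∧ v.2 / 2 = w.2 / 2

lemma sb_rotF (v : V) : SB (rotF v) v := by
  obtain ⟨x, y⟩ := v
  unfold rotF SB
  dsimp only
  split_ifs <;> dsimp only <;> omega

lemma sb_pF (v : V) : SB (pF v) (dirF v) := by
  obtain ⟨x, y⟩ := v
  unfold pF dirF SB
  dsimp only
  split_ifs <;> dsimp only <;> omega

lemma SB.symm {v w : V} (h : SB v w) : SB w v := ⟨h.1.symm, h.2.symm⟩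

lemma sb_cases {v w : V} (h : SB v w) :
    w = v ∨ w = rotF v ∨ w = rotF (rotF v) ∨ w = rotF (rotF (rotF v)) := by
  have e : rotF (rotF (rotF v)) = rotB v := by
    obtain ⟨x, y⟩ := v
    unfold rotF rotB
    dsimp only
    split_ifs <;> dsimp only at * <;> first | (exfalso; omega) | (ext <;> dsimp only <;> omega)
  have e2 : rotF (rotF v) = (if v.1 % 2 = 0 then v.1 + 1 else v.1 - 1,
      if v.2 % 2 = 0 then v.2 + 1 else v.2 - 1) := by
    obtain ⟨x, y⟩ := v
    unfold rotF
    dsimp only
    split_ifs <;> dsimp only at * <;> first | (exfalso; omega) | (ext <;> dsimp only <;> omega)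
  rw [e, e2]
  obtain ⟨x, y⟩ := v
  obtain ⟨x', y'⟩ := w
  unfold SB at h
  unfold rotF rotB
  simp only [Prod.mk.injEq] at *
  split_ifs <;> simp only [Prod.mk.injEq] <;> omega

lemma rotF_adj (v : V) : Adj v (rotF v) := by
  obtain ⟨x, y⟩ := v
  unfold rotF Adj
  dsimp only
  split_ifs <;> dsimp only <;> omega

lemma dirF_adj (v : V) : Adj v (dirF v) := by
  obtain ⟨x, y⟩ := v
  unfold dirF Adj
  dsimp only
  split_ifs <;> dsimp only <;> omega

lemma rotF_pF_adj (v : V) : Adj (rotF v) (pF v) := by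
  rw [← dirF_pF]
  exact (dirF_adj _).symm

lemma rotF_rotF_ne (v : V) : rotF (rotF v) ≠ v := by
  intro h
  have h2 : rotF v = rotB v := by
    conv_rhs => rw [← h]
    rw [rotB_rotF]
  obtain ⟨x, y⟩ := v
  unfold rotF rotB at h2
  dsimp only at h2
  split_ifs at h2 <;> simp only [Prod.mk.injEq] at h2 <;> omega

lemma inR_sb {a b w h : ℤ} (ha : a % 2 = 0) (hb : b % 2 = 0) (hw : w % 2 = 0) (hh : h % 2 = 0)
    {u v : V} (huv : SB u v) : InR a b w h u ↔ InR a b w h v := by
  obtain ⟨x, y⟩ := u
  obtain ⟨x', y'⟩ := v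
  simp only [SB, InR] at *
  omega

lemma sq_sb {m : ℤ} (hm : m % 2 = 0) {u v : V} (huv : SB u v) : Sq m u ↔ Sq m v := by
  obtain ⟨x, y⟩ := u
  obtain ⟨x', y'⟩ := v
  simp only [SB, Sq] at *
  omega

/-- near the left or the right side -/
def Xe (m : ℤ) (v : V) : Prop := v.1 < -m + 2 ∨ m - 2 ≤ v.1

/-- near the lower or the upper side -/
def Ye (m : ℤ) (v : V) : Prop := v.2 < -m + 2 ∨ m - 2 ≤ v.2

lemma xe_sb {m : ℤ} (hm : m % 2 = 0) {u v : V} (huv : SB u v) : Xe m u ↔ Xe m v := by
  obtain ⟨x, y⟩ := u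
  obtain ⟨x', y'⟩ := v
  simp only [SB, Xe] at *
  omega

lemma ye_sb {m : ℤ} (hm : m % 2 = 0) {u v : V} (huv : SB u v) : Ye m u ↔ Ye m v := by
  obtain ⟨x, y⟩ := u
  obtain ⟨x', y'⟩ := v
  simp only [SB, Ye] at *
  omega

/-- outward sources of a full rectangle -/
lemma full_src {a b w h : ℤ} {f : Perm V} {z : V} (H : Full a b w h f z) (ha : a % 2 = 0)
    (hb : b % 2 = 0) {v : V} (hv : InR a b w h v) (hd : ¬ InR a b w h (dirF v)) :
    f v = rotF v ∧ SameCycle f z v := by
  have hw := H.w2
  have hh := H.h2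
  obtain ⟨x, y⟩ := v
  unfold dirF at hd
  unfold rotF
  simp only [InR] at hv
  dsimp only at hd ⊢
  split_ifs at hd ⊢ with h1 h2 h3
  · simp only [InR] at hd
    have hy : y = b := by omega
    subst hy
    exact H.bot x (by omega) (by omega) (by omega)
  · simp only [InR] at hd
    have hy : x = a := by omega
    subst hy
    exact H.left y (by omega) (by omega) (by omega)
  · simp only [InR] at hd
    have hy : x = a + w - 1 := by omega
    subst hy
    exact H.right y (by omega) (by omega) (by omega)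
  · simp only [InR] at hd
    have hy : y = b + h - 1 := by omega
    subst hy
    exact H.top x (by omega) (by omega) (by omega)

lemma const_on {P : ℤ → Prop} {l r : ℤ} (h : ∀ i, l ≤ i → i + 1 ≤ r → (P i ↔ P (i + 1))) :
    ∀ i j, l ≤ i → i ≤ r → l ≤ j → j ≤ r → P i → P j := by
  have key : ∀ i, l ≤ i → i ≤ r → (P l ↔ P i) := by
    refine up_ind Iff.rfl ?_
    intro i h1 h2 h3
    exact h3.trans (h i h1 (by omega))
  intro i j h1 h2 h3 h4 h5
  exact (key j h3 h4).1 ((key i h1 h2).2 h5)

/-- connectivity of the blocks -/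
lemma blocks_conn {M : ℤ} (hM : 4 ≤ M) {K : V → Prop} (hK : ∀ u v, SB u v → K u → K v)
    (hmove : ∀ v, Sq (2 * M) v → Sq (2 * M) (dirF v) → ¬ (Xe (2 * M) v ∧ Ye (2 * M) v) →
      ¬ (Xe (2 * M) (dirF v) ∧ Ye (2 * M) (dirF v)) → ¬ (Xe (2 * M) v ∧ Xe (2 * M) (dirF v)) →
      ¬ (Ye (2 * M) v ∧ Ye (2 * M) (dirF v)) → K v → K (dirF v))
    {u : V} (hu : Sq (2 * M) u) (hu' : ¬ (Xe (2 * M) u ∧ Ye (2 * M) u)) (hKu : K u) {v : V}
    (hv : Sq (2 * M) v) (hv' : ¬ (Xe (2 * M) v ∧ Ye (2 * M) v)) : K v := by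
  have hR : ∀ i j : ℤ, -M ≤ i → i + 1 < M → -M + 1 ≤ j → j ≤ M - 2 → K (2 * i, 2 * j) →
      K (2 * (i + 1), 2 * j) := by
    intro i j h1 h2 h3 h4 h5
    have h6 : K (2 * i + 1, 2 * j) := hK _ _ (by simp only [SB]; (first | omega | (simp only [true_and, and_true, or_true, true_or]; done) | (simp only [true_and, and_true, or_true, true_or]; omega))) h5
    have e : dirF (2 * i + 1, 2 * j) = (2 * (i + 1), 2 * j) := by
      unfold dirF
      dsimp only
      split_ifs <;> first | (exfalso; omega) | (ext <;> dsimp only <;> omega)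
    rw [← e]
    refine hmove _ ?_ ?_ ?_ ?_ ?_ ?_ h6 <;> (try rw [e]) <;> simp only [Sq, Xe, Ye] <;> omega
  have hL : ∀ i j : ℤ, -M ≤ i → i + 1 < M → -M + 1 ≤ j → j ≤ M - 2 → K (2 * (i + 1), 2 * j) →
      K (2 * i, 2 * j) := by
    intro i j h1 h2 h3 h4 h5
    have h6 : K (2 * (i + 1), 2 * j + 1) := hK _ _ (by simp only [SB]; (first | omega | (simp only [true_and, and_true, or_true, true_or]; done) | (simp only [true_and, and_true, or_true, true_or]; omega))) h5
    have e : dirF (2 * (i + 1), 2 * j + 1) = (2 * i + 1, 2 * j + 1) := by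
      unfold dirF
      dsimp only
      split_ifs <;> first | (exfalso; omega) | (ext <;> dsimp only <;> omega)
    have h7 : K (2 * i + 1, 2 * j + 1) := by
      rw [← e]
      refine hmove _ ?_ ?_ ?_ ?_ ?_ ?_ h6 <;> (try rw [e]) <;> simp only [Sq, Xe, Ye] <;> omega
    exact hK _ _ (by simp only [SB]; (first | omega | (simp only [true_and, and_true, or_true, true_or]; done) | (simp only [true_and, and_true, or_true, true_or]; omega))) h7
  have hU : ∀ i j : ℤ, -M + 1 ≤ i → i ≤ M - 2 → -M ≤ j → j + 1 < M → K (2 * i, 2 * j) →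
      K (2 * i, 2 * (j + 1)) := by
    intro i j h1 h2 h3 h4 h5
    have h6 : K (2 * i + 1, 2 * j + 1) := hK _ _ (by simp only [SB]; (first | omega | (simp only [true_and, and_true, or_true, true_or]; done) | (simp only [true_and, and_true, or_true, true_or]; omega))) h5
    have e : dirF (2 * i + 1, 2 * j + 1) = (2 * i + 1, 2 * (j + 1)) := by
      unfold dirF
      dsimp only
      split_ifs <;> first | (exfalso; omega) | (ext <;> dsimp only <;> omega)
    have h7 : K (2 * i + 1, 2 * (j + 1)) := by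
      rw [← e]
      refine hmove _ ?_ ?_ ?_ ?_ ?_ ?_ h6 <;> (try rw [e]) <;> simp only [Sq, Xe, Ye] <;> omega
    exact hK _ _ (by simp only [SB]; (first | omega | (simp only [true_and, and_true, or_true, true_or]; done) | (simp only [true_and, and_true, or_true, true_or]; omega))) h7
  have hD : ∀ i j : ℤ, -M + 1 ≤ i → i ≤ M - 2 → -M ≤ j → j + 1 < M → K (2 * i, 2 * (j + 1)) →
      K (2 * i, 2 * j) := by
    intro i j h1 h2 h3 h4 h5
    have e : dirF (2 * i, 2 * (j + 1)) = (2 * i, 2 * j + 1) := by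
      unfold dirF
      dsimp only
      split_ifs <;> first | (exfalso; omega) | (ext <;> dsimp only <;> omega)
    have h7 : K (2 * i, 2 * j + 1) := by
      rw [← e]
      refine hmove _ ?_ ?_ ?_ ?_ ?_ ?_ h5 <;> (try rw [e]) <;> simp only [Sq, Xe, Ye] <;> omega
    exact hK _ _ (by simp only [SB]; (first | omega | (simp only [true_and, and_true, or_true, true_or]; done) | (simp only [true_and, and_true, or_true, true_or]; omega))) h7
  -- rows and columns
  have hrow : ∀ j, -M + 1 ≤ j → j ≤ M - 2 → ∀ i i', -M ≤ i → i ≤ M - 1 → -M ≤ i' → i' ≤ M - 1 →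
      K (2 * i, 2 * j) → K (2 * i', 2 * j) := by
    intro j h1 h2
    refine const_on (P := fun i => K (2 * i, 2 * j)) ?_
    intro i h3 h4
    exact ⟨hR i j h3 (by omega) h1 h2, hL i j h3 (by omega) h1 h2⟩
  have hcol : ∀ i, -M + 1 ≤ i → i ≤ M - 2 → ∀ j j', -M ≤ j → j ≤ M - 1 → -M ≤ j' → j' ≤ M - 1 →
      K (2 * i, 2 * j) → K (2 * i, 2 * j') := by
    intro i h1 h2
    refine const_on (P := fun j => K (2 * i, 2 * j)) ?_
    intro j h3 h4
    exact ⟨hU i j h1 h2 h3 (by omega), hD i j h1 h2 h3 (by omega)⟩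
  -- from `u` to the middle
  have h0 : K (2 * 0, 2 * 0) := by
    obtain ⟨x, y⟩ := u
    simp only [Sq, Xe, Ye] at hu hu'
    have h1 : K (2 * (x / 2), 2 * (y / 2)) := hK _ _ (by simp only [SB]; (first | omega | (simp only [true_and, and_true, or_true, true_or]; done) | (simp only [true_and, and_true, or_true, true_or]; omega))) hKu
    by_cases hy : -M + 1 ≤ y / 2 ∧ y / 2 ≤ M - 2
    · have h2 := hrow (y / 2) hy.1 hy.2 (x / 2) 0 (by omega) (by omega) (by omega) (by omega) h1
      exact hcol 0 (by omega) (by omega) (y / 2) 0 (by omega) (by omega) (by omega) (by omega) h2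
    · have h2 := hcol (x / 2) (by omega) (by omega) (y / 2) 0 (by omega) (by omega) (by omega)
        (by omega) h1
      exact hrow 0 (by omega) (by omega) (x / 2) 0 (by omega) (by omega) (by omega) (by omega) h2
  obtain ⟨x, y⟩ := v
  simp only [Sq, Xe, Ye] at hv hv'
  refine hK (2 * (x / 2), 2 * (y / 2)) _ (by simp only [SB]; (first | omega | (simp only [true_and, and_true, or_true, true_or]; done) | (simp only [true_and, and_true, or_true, true_or]; omega))) ?_
  by_cases hy : -M + 1 ≤ y / 2 ∧ y / 2 ≤ M - 2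
  · have h2 := hcol 0 (by omega) (by omega) 0 (y / 2) (by omega) (by omega) (by omega) (by omega) h0
    exact hrow (y / 2) hy.1 hy.2 0 (x / 2) (by omega) (by omega) (by omega) (by omega) h2
  · have h2 := hrow 0 (by omega) (by omega) 0 (x / 2) (by omega) (by omega) (by omega) (by omega) h0
    exact hcol (x / 2) (by omega) (by omega) 0 (y / 2) (by omega) (by omega) (by omega) (by omega) h2

lemma sq_finite (m : ℤ) : {v : V | Sq m v}.Finite := by
  refine (inR_finite (-m) (-m) (2 * m) (2 * m)).subset ?_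
  rintro ⟨x, y⟩ hv
  simp only [Sq, InR, Set.mem_setOf_eq] at *
  omega

theorem assemble {I : Type*} {M : ℤ} (hM : 4 ≤ M) (a b w h : I → ℤ) (F : I → Perm V)
    (z : I → V) (hF : ∀ i, Full (a i) (b i) (w i) (h i) (F i) (z i))
    (ha : ∀ i, a i % 2 = 0) (hb : ∀ i, b i % 2 = 0)
    (hin : ∀ i v, InR (a i) (b i) (w i) (h i) v →
      -(2 * M) + 2 ≤ v.1 ∧ v.1 < 2 * M - 2 ∧ -(2 * M) + 2 ≤ v.2 ∧ v.2 < 2 * M - 2)
    (hdis : ∀ i j v, InR (a i) (b i) (w i) (h i) v → InR (a j) (b j) (w j) (h j) v → i = j) :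
    ∃ f : Perm V, (∀ v, ¬ Sq (2 * M) v → f v = v) ∧ (∀ v, Sq (2 * M) v → Adj v (f v)) ∧
      (∀ v, Sq (2 * M) v → f (f v) ≠ v) ∧ f (2 * M - 1, 0) = (2 * M - 1, 1) ∧
      (∀ v w, Inn (2 * M) v → ¬ Inn (2 * M) w → Adj v w → f v = w ∨ f w = v) ∧
      (∀ i v, InR (a i) (b i) (w i) (h i) v → (∀ u, Adj v u → InR (a i) (b i) (w i) (h i) u) →
        f v = F i v ∧ f⁻¹ v = (F i)⁻¹ v) ∧
      (∀ i v, SameCycle (F i) (z i) v → SameCycle f (2 * M - 1, 0) v) := by
  classical
  set m := 2 * M with hm
  have hm2 : m % 2 = 0 := by omega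
  let R : I → V → Prop := fun i v => InR (a i) (b i) (w i) (h i) v
  have hRsb : ∀ i u v, SB u v → (R i u ↔ R i v) := fun i u v huv =>
    inR_sb (ha i) (hb i) (hF i).w2 (hF i).h2 huv
  let Blk : V → Prop := fun v => Sq m v ∧ ∀ i, ¬ R i v
  have hBsb : ∀ u v, SB u v → (Blk u ↔ Blk v) := by
    intro u v huv
    simp only [Blk, sq_sb hm2 huv, hRsb _ u v huv]
  let g0 : Perm V :=
    { toFun := fun v => if Blk v then rotF v else v
      invFun := fun v => if Blk v then rotB v else v
      left_inv := by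
        intro v
        by_cases hv : Blk v
        · have h1 : Blk (rotF v) := (hBsb _ _ (sb_rotF v)).2 hv
          simp only [if_pos hv, if_pos h1, rotB_rotF]
        · simp only [if_neg hv]
      right_inv := by
        intro v
        by_cases hv : Blk v
        · have h1 : Blk (rotB v) := by
            refine (hBsb _ _ (sb_rotF (rotB v))).1 ?_
            rw [rotF_rotB]
            exact hv
          simp only [if_pos hv, if_pos h1, rotF_rotB]
        · simp only [if_neg hv] }
  have hg0 : ∀ v, Blk v → g0 v = rotF v := fun v hv => if_pos hv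
  have hg0' : ∀ v, ¬ Blk v → g0 v = v := fun v hv => if_neg hv
  obtain ⟨f0, hf1, hf2⟩ := glue (I := Option I) (fun o => Option.elim o g0 F)
    (fun o => Option.elim o {v | Blk v} (fun i => {v | R i v})) (by
      rintro (_ | i) (_ | j) v hi hj
      · rfl
      · exact absurd hj (hi.2 j)
      · exact absurd hi (hj.2 i)
      · exact congrArg some (hdis i j v hi hj)) (by
      rintro (_ | i) v hv
      · exact hg0' v hv
      · exact (hF i).out v hv)
  have hfR : ∀ i v, R i v → f0 v = F i v := fun i v hv => (hf1 (some i) v hv).1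
  have hfR' : ∀ i v, R i v → f0⁻¹ v = (F i)⁻¹ v := fun i v hv => (hf1 (some i) v hv).2
  have hfB : ∀ v, Blk v → f0 v = rotF v := fun v hv => by
    rw [(hf1 none v hv).1]
    exact hg0 v hv
  have hRSq : ∀ i v, R i v → Sq m v := by
    intro i v hv
    have := hin i v hv
    unfold Sq
    omega
  have hfO : ∀ v, ¬ Sq m v → f0 v = v := by
    intro v hv
    refine hf2 v ?_
    rintro (_ | i)
    · exact fun h => hv h.1
    · exact fun h => hv (hRSq i v h)
  have hcases : ∀ v, Sq m v → (∃ i, R i v) ∨ Blk v := by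
    intro v hv
    by_cases h1 : ∃ i, R i v
    · exact Or.inl h1
    · push Not at h1
      exact Or.inr ⟨hv, h1⟩
  have hRm : ∀ i v, R i v → R i (F i v) := fun i v hv =>
    map_support (R := R i) (hF i).out hv
  have hBm : ∀ v, Blk v → Blk (rotF v) := fun v hv => (hBsb _ _ (sb_rotF v)).2 hv
  -- the nodes
  let ν : V → I ⊕ V := fun v =>
    if hh : ∃ i, R i v then Sum.inl hh.choose else Sum.inr (v.1 / 2, v.2 / 2)
  have hνR : ∀ i v, R i v → ν v = Sum.inl i := by
    intro i v hv
    have hh : ∃ i, R i v := ⟨i, hv⟩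
    have h1 : ν v = Sum.inl hh.choose := by simp only [ν, dif_pos hh]
    rw [h1, hdis _ _ v hh.choose_spec hv]
  have hνB : ∀ v, (∀ i, ¬ R i v) → ν v = Sum.inr (v.1 / 2, v.2 / 2) := by
    intro v hv
    have hh : ¬ ∃ i, R i v := by push Not; exact hv
    simp only [ν, dif_neg hh]
  have hνsb : ∀ u v, SB u v → ν u = ν v := by
    intro u v huv
    by_cases h1 : ∃ i, R i u
    · obtain ⟨i, hi⟩ := h1
      rw [hνR i u hi, hνR i v ((hRsb i u v huv).1 hi)]
    · push Not at h1
      rw [hνB u h1, hνB v (fun i hi => h1 i ((hRsb i u v huv).2 hi)), huv.1, huv.2]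
  have hνf : ∀ v, ν (f0 v) = ν v := by
    intro v
    by_cases hv : Sq m v
    · rcases hcases v hv with ⟨i, hi⟩ | hB
      · rw [hfR i v hi, hνR i v hi, hνR i _ (hRm i v hi)]
      · rw [hfB v hB]
        exact hνsb _ _ (sb_rotF v)
    · rw [hfO v hv]
  have hno2 : ∀ v ∈ {v | Sq m v}, f0 v ≠ v ∧ f0 (f0 v) ≠ v := by
    intro v hv
    rcases hcases v hv with ⟨i, hi⟩ | hB
    · rw [hfR i v hi, hfR i _ (hRm i v hi)]
      exact ⟨((hF i).adj v hi).ne.symm, (hF i).no2 v hi⟩
    · rw [hfB v hB, hfB _ (hBm v hB)]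
      exact ⟨(rotF_adj v).ne.symm, rotF_rotF_ne v⟩
  -- the relevant vertices
  let Cp : V → Prop := fun v => Sq m v ∧ ¬ (Xe m v ∧ Ye m v) ∧ ∀ i, R i v → ¬ R i (dirF v)
  let C : Finset V := (sq_finite m).toFinset.filter Cp
  have hCmem : ∀ v, v ∈ C ↔ Cp v := by
    intro v
    simp only [C, Finset.mem_filter, Set.Finite.mem_toFinset, Set.mem_setOf_eq, Cp]
    tauto
  have hCrot : ∀ v, Cp v → f0 v = rotF v := by
    rintro v ⟨h1, h2, h3⟩
    rcases hcases v h1 with ⟨i, hi⟩ | hB
    · rw [hfR i v hi]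
      exact (full_src (hF i) (ha i) (hb i) hi (h3 i hi)).1
    · exact hfB v hB
  have hscR : ∀ i v, R i v → SameCycle (F i) (z i) v → ∀ u, SameCycle (F i) (z i) u →
      SameCycle f0 (z i) u := by
    intro i v hv hzv u hu
    refine sc_of_agree' (fun c hc => hfR i c ?_) hu
    have h1 : R i v = R i c := by
      refine inv_of_cycle (f := F i) (ν := R i) ?_ (hzv.symm.trans hc)
      intro v'
      by_cases hv' : R i v'
      · simp [hv', hRm i v' hv']
      · rw [(hF i).out v' hv']
    rw [← h1]; exact hv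
  have hsc0 : ∀ v ∈ C, ∀ w ∈ C, SameCycle f0 v w ↔ ν v = ν w := by
    intro v hv w hw
    constructor
    · exact inv_of_cycle hνf
    · intro hν
      rw [hCmem] at hv hw
      obtain ⟨hv1, hv2, hv3⟩ := hv
      obtain ⟨hw1, hw2, hw3⟩ := hw
      rcases hcases v hv1 with ⟨i, hi⟩ | hB
      · rcases hcases w hw1 with ⟨j, hj⟩ | hB'
        · rw [hνR i v hi, hνR j w hj, Sum.inl.injEq] at hν
          subst hν
          have h1 := (full_src (hF i) (ha i) (hb i) hi (hv3 i hi)).2
          have h2 := (full_src (hF i) (ha i) (hb i) hj (hw3 i hj)).2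
          exact (hscR i v hi h1 v h1).symm.trans (hscR i v hi h1 w h2)
        · rw [hνR i v hi, hνB w hB'.2] at hν
          cases hν
      · rcases hcases w hw1 with ⟨j, hj⟩ | hB'
        · rw [hνR j w hj, hνB v hB.2] at hν
          cases hν
        · rw [hνB v hB.2, hνB w hB'.2, Sum.inr.injEq, Prod.mk.injEq] at hν
          have h1 := hBm _ hB
          have h2 := hBm _ h1
          have s1 : SameCycle f0 v (rotF v) := sc_step (SameCycle.refl _ _) (hfB v hB)
          have s2 : SameCycle f0 v (rotF (rotF v)) := sc_step s1 (hfB _ h1)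
          have s3 : SameCycle f0 v (rotF (rotF (rotF v))) := sc_step s2 (hfB _ h2)
          rcases sb_cases (v := v) (w := w) hν with rfl | rfl | rfl | rfl
          · exact SameCycle.refl _ _
          · exact s1
          · exact s2
          · exact s3
  let O : Set V := {v | Cp v ∧ Cp (pF v) ∧ ν v ≠ ν (pF v) ∧ ¬ (Xe m v ∧ Xe m (pF v)) ∧
    ¬ (Ye m v ∧ Ye m (pF v))}
  have hO : ∀ v ∈ O, v ∈ C ∧ pF v ∈ C ∧ pF v ∈ O ∧ pF (pF v) = v ∧ ν v ≠ ν (pF v) := by
    rintro v ⟨h1, h2, h3, h4, h5⟩
    refine ⟨(hCmem _).2 h1, (hCmem _).2 h2, ⟨h2, ?_, ?_, ?_, ?_⟩, pF_pF v, h3⟩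
    · rw [pF_pF]; exact h1
    · rw [pF_pF]; exact h3.symm
    · rw [pF_pF]; exact fun hc => h4 ⟨hc.2, hc.1⟩
    · rw [pF_pF]; exact fun hc => h5 ⟨hc.2, hc.1⟩
  have hconn : ∀ U : Finset V, U ⊆ C → U.Nonempty → (∀ v ∈ U, ∀ w ∈ C, ν v = ν w → w ∈ U) →
      (∀ v ∈ O, v ∈ U → pF v ∈ U) → C ⊆ U := by
    intro U hUC hne hUcl hUO v hv
    obtain ⟨u, hu⟩ := hne
    have hK : ∃ u ∈ U, ν u = ν v := by
      have hu' := (hCmem _).1 (hUC hu)
      have hv' := (hCmem _).1 hv
      refine blocks_conn hM (K := fun v => ∃ u ∈ U, ν u = ν v) ?_ ?_ hu'.1 hu'.2.1 ⟨u, hu, rfl⟩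
        hv'.1 hv'.2.1
      · rintro x y hxy ⟨u, hu, h1⟩
        exact ⟨u, hu, h1.trans (hνsb _ _ hxy)⟩
      · rintro x h1 h2 h3 h4 h5 h6 ⟨u, hu, h7⟩
        by_cases hν : ν x = ν (dirF x)
        · exact ⟨u, hu, h7.trans hν⟩
        · have hsb := sb_pF x
          have hx : Cp x := by
            refine ⟨h1, h3, ?_⟩
            intro i hi hc
            exact hν (by rw [hνR i _ hi, hνR i _ hc])
          have hpx : Cp (pF x) := by
            refine ⟨(sq_sb hm2 hsb).2 h2, ?_, ?_⟩
            · rw [xe_sb hm2 hsb, ye_sb hm2 hsb]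
              exact h4
            · intro i hi hc
              rw [dirF_pF, hRsb i _ _ (sb_rotF x)] at hc
              rw [hRsb i _ _ hsb] at hi
              exact hν (by rw [hνR i _ hi, hνR i _ hc])
          have hxU : x ∈ U := hUcl u hu x ((hCmem _).2 hx) h7
          have hxO : x ∈ O := by
            refine ⟨hx, hpx, ?_, ?_, ?_⟩
            · rw [hνsb _ _ hsb]; exact hν
            · rw [xe_sb hm2 hsb]; exact h5
            · rw [ye_sb hm2 hsb]; exact h6
          exact ⟨pF x, hUO x hxO hxU, hνsb _ _ hsb⟩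
    obtain ⟨u', hu', h1⟩ := hK
    exact hUcl u' hu' v hv h1
  have hportC : (m - 1, (0 : ℤ)) ∈ C := by
    rw [hCmem]
    refine ⟨by simp only [Sq]; omega, by simp only [Xe, Ye]; omega, ?_⟩
    intro i hi
    have := hin i _ hi
    dsimp only at this
    omega
  obtain ⟨f, S, hS1, hS2, hS3, hS4, hS5, hS6⟩ := prim (f0 := f0) (D := {v | Sq m v})
    (sq_finite m) (C := C) (ν := ν) (O := O) (p := pF) (fun v hv => hfO v hv)
    (fun v hv => ((hCmem v).1 hv).1) hno2 hsc0 hO hconn ⟨_, hportC⟩
  have hSC : ∀ v ∈ S, Cp v := fun v hv => (hS1 v hv).1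
  have hSf : ∀ v ∈ S, f v = dirF v := by
    intro v hv
    rw [hS2 v hv, hCrot _ (hS1 v hv).2.1, rotF_pF]
  have hnotS : ∀ v, (Xe m v ∧ Xe m (pF v)) ∨ (Ye m v ∧ Ye m (pF v)) ∨ ¬ Sq m (pF v) ∨
      (Xe m v ∧ Ye m v) → v ∉ S := by
    intro v hv hc
    obtain ⟨h1, h2, h3, h4, h5⟩ := hS1 v hc
    rcases hv with hv | hv | hv | hv
    · exact h4 hv
    · exact h5 hv
    · exact hv h2.1
    · exact h1.2.1 hv
  have hRblk : ∀ v : V, Sq m v → (Xe m v ∨ Ye m v) → Blk v := by
    intro v hv hx
    refine ⟨hv, fun i hi => ?_⟩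
    have := hin i v hi
    simp only [Xe, Ye] at hx
    omega
  have hfrot : ∀ v : V, Sq m v → (Xe m v ∨ Ye m v) → v ∉ S → f v = rotF v := by
    intro v hv hx hS
    rw [hS3 v hS, hfB v (hRblk v hv hx)]
  refine ⟨f, ?_, ?_, ?_, ?_, ?_, ?_, ?_⟩
  · intro v hv
    rw [hS3 v (fun hc => hv (hSC v hc).1), hfO v hv]
  · intro v hv
    by_cases hvS : v ∈ S
    · rw [hSf v hvS]
      exact dirF_adj v
    · rw [hS3 v hvS]
      rcases hcases v hv with ⟨i, hi⟩ | hB
      · rw [hfR i v hi]
        exact (hF i).adj v hi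
      · rw [hfB v hB]
        exact rotF_adj v
  · intro v hv
    exact (hS6 v hv).2
  · have h1 : pF (m - 1, 0) = (m, 1) := by
      unfold pF
      dsimp only
      split_ifs <;> first | (exfalso; omega) | (ext <;> dsimp only <;> omega)
    have h2 : rotF (m - 1, 0) = (m - 1, 1) := by
      unfold rotF
      dsimp only
      split_ifs <;> first | (exfalso; omega) | (ext <;> dsimp only <;> omega)
    rw [hfrot (m - 1, 0) (by simp only [Sq]; omega) (by simp only [Xe]; omega)
      (hnotS _ (by rw [h1]; simp only [Sq]; omega)), h2]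
  · rintro ⟨x, y⟩ ⟨x', y'⟩ hv hw hadj
    simp only [Inn, Adj] at hv hw hadj
    -- the four sides
    have hx4 : (x = -m + 1 ∧ x' = -m ∧ y' = y) ∨ (x = m - 2 ∧ x' = m - 1 ∧ y' = y) ∨
        (y = -m + 1 ∧ y' = -m ∧ x' = x) ∨ (y = m - 2 ∧ y' = m - 1 ∧ x' = x) := by omega
    -- it is enough to find which of the two vertices is the source
    have src : ∀ u t : V, Sq m u → (Xe m u ∨ Ye m u) → rotF u = t →
        ((Xe m u ∧ Xe m (pF u)) ∨ (Ye m u ∧ Ye m (pF u)) ∨ ¬ Sq m (pF u) ∨ (Xe m u ∧ Ye m u)) →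
        f u = t := by
      intro u t h1 h2 h3 h4
      rw [hfrot u h1 h2 (hnotS u h4), h3]
    rcases hx4 with ⟨rfl, rfl, rfl⟩ | ⟨rfl, rfl, rfl⟩ | ⟨rfl, rfl, rfl⟩ | ⟨rfl, rfl, rfl⟩
    · rcases Int.emod_two_eq_zero_or_one y' with hy | hy
      · right
        have e1 : pF (-m, y') = (-m + 1, y' - 1) := by
          unfold pF
          dsimp only
          split_ifs <;> first | (exfalso; omega) | (ext <;> dsimp only <;> omega)
        have e2 : rotF (-m, y') = (-m + 1, y') := by
          unfold rotF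
          dsimp only
          split_ifs <;> first | (exfalso; omega) | (ext <;> dsimp only <;> omega)
        refine src _ _ (by simp only [Sq]; omega) (by simp only [Xe]; omega) e2 ?_
        rw [e1]; simp only [Xe]; omega
      · left
        have e1 : pF (-m + 1, y') = (-m, y' + 1) := by
          unfold pF
          dsimp only
          split_ifs <;> first | (exfalso; omega) | (ext <;> dsimp only <;> omega)
        have e2 : rotF (-m + 1, y') = (-m, y') := by
          unfold rotF
          dsimp only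
          split_ifs <;> first | (exfalso; omega) | (ext <;> dsimp only <;> omega)
        refine src _ _ (by simp only [Sq]; omega) (by simp only [Xe]; omega) e2 ?_
        rw [e1]; simp only [Xe]; omega
    · rcases Int.emod_two_eq_zero_or_one y' with hy | hy
      · left
        have e1 : pF (m - 2, y') = (m - 1, y' - 1) := by
          unfold pF
          dsimp only
          split_ifs <;> first | (exfalso; omega) | (ext <;> dsimp only <;> omega)
        have e2 : rotF (m - 2, y') = (m - 1, y') := by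
          unfold rotF
          dsimp only
          split_ifs <;> first | (exfalso; omega) | (ext <;> dsimp only <;> omega)
        refine src _ _ (by simp only [Sq]; omega) (by simp only [Xe]; omega) e2 ?_
        rw [e1]; simp only [Xe]; omega
      · right
        have e1 : pF (m - 1, y') = (m - 2, y' + 1) := by
          unfold pF
          dsimp only
          split_ifs <;> first | (exfalso; omega) | (ext <;> dsimp only <;> omega)
        have e2 : rotF (m - 1, y') = (m - 2, y') := by
          unfold rotF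
          dsimp only
          split_ifs <;> first | (exfalso; omega) | (ext <;> dsimp only <;> omega)
        refine src _ _ (by simp only [Sq]; omega) (by simp only [Xe]; omega) e2 ?_
        rw [e1]; simp only [Xe]; omega
    · rcases Int.emod_two_eq_zero_or_one x' with hx | hx
      · left
        have e1 : pF (x', -m + 1) = (x' - 1, -m) := by
          unfold pF
          dsimp only
          split_ifs <;> first | (exfalso; omega) | (ext <;> dsimp only <;> omega)
        have e2 : rotF (x', -m + 1) = (x', -m) := by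
          unfold rotF
          dsimp only
          split_ifs <;> first | (exfalso; omega) | (ext <;> dsimp only <;> omega)
        refine src _ _ (by simp only [Sq]; omega) (by simp only [Ye]; omega) e2 ?_
        rw [e1]; simp only [Ye]; omega
      · right
        have e1 : pF (x', -m) = (x' + 1, -m + 1) := by
          unfold pF
          dsimp only
          split_ifs <;> first | (exfalso; omega) | (ext <;> dsimp only <;> omega)
        have e2 : rotF (x', -m) = (x', -m + 1) := by
          unfold rotF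
          dsimp only
          split_ifs <;> first | (exfalso; omega) | (ext <;> dsimp only <;> omega)
        refine src _ _ (by simp only [Sq]; omega) (by simp only [Ye]; omega) e2 ?_
        rw [e1]; simp only [Ye]; omega
    · rcases Int.emod_two_eq_zero_or_one x' with hx | hx
      · right
        have e1 : pF (x', m - 1) = (x' - 1, m - 2) := by
          unfold pF
          dsimp only
          split_ifs <;> first | (exfalso; omega) | (ext <;> dsimp only <;> omega)
        have e2 : rotF (x', m - 1) = (x', m - 2) := by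
          unfold rotF
          dsimp only
          split_ifs <;> first | (exfalso; omega) | (ext <;> dsimp only <;> omega)
        refine src _ _ (by simp only [Sq]; omega) (by simp only [Ye]; omega) e2 ?_
        rw [e1]; simp only [Ye]; omega
      · left
        have e1 : pF (x', m - 2) = (x' + 1, m - 1) := by
          unfold pF
          dsimp only
          split_ifs <;> first | (exfalso; omega) | (ext <;> dsimp only <;> omega)
        have e2 : rotF (x', m - 2) = (x', m - 1) := by
          unfold rotF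
          dsimp only
          split_ifs <;> first | (exfalso; omega) | (ext <;> dsimp only <;> omega)
        refine src _ _ (by simp only [Sq]; omega) (by simp only [Ye]; omega) e2 ?_
        rw [e1]; simp only [Ye]; omega
  · intro i v hv hn
    have hv' : R i v := hv
    have hn' : ∀ u, Adj v u → R i u := hn
    constructor
    · have hvS : v ∉ S := by
        intro hc
        exact (hSC v hc).2.2 i hv' (hn' _ (dirF_adj v))
      rw [hS3 v hvS, hfR i v hv']
    · have hu : R i ((F i)⁻¹ v) := inv_support (R := R i) (hF i).out hv'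
      have huS : (F i)⁻¹ v ∉ S := by
        intro hc
        have h1 := hCrot _ (hSC _ hc)
        rw [hfR i _ hu, pinv] at h1
        -- `v = rotF u`
        have h2 := (hS1 _ hc).2.1.2.2 i
        have h3 : ¬ R i (pF ((F i)⁻¹ v)) := by
          intro h4
          have h5 := h2 h4
          rw [dirF_pF, hRsb i _ _ (sb_rotF _)] at h5
          exact h5 hu
        apply h3
        apply hn'
        have h6 := rotF_pF_adj ((F i)⁻¹ v)
        rw [← h1] at h6
        exact h6
      have h1 : f ((F i)⁻¹ v) = v := by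
        rw [hS3 _ huS, hfR i _ hu, pinv]
      exact Equiv.Perm.inv_eq_iff_eq.2 h1.symm
  · intro i v hv
    have hab : R i (a i, b i) := by
      have h1 := (hF i).w0
      have h2 := (hF i).h0
      simp only [R, InR]
      omega
    have hdab : dirF (a i, b i) = (a i, b i - 1) := by
      have h1 := ha i
      have h2 := hb i
      unfold dirF
      dsimp only
      split_ifs
      rfl
    have hC : (a i, b i) ∈ C := by
      rw [hCmem]
      have h1 := hin i _ hab
      dsimp only at h1
      refine ⟨hRSq i _ hab, by simp only [Xe, Ye]; omega, ?_⟩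
      intro j hj hc
      have : i = j := hdis i j _ hab hj
      subst this
      rw [hdab] at hc
      simp only [R, InR] at hc
      omega
    have h1 : SameCycle (F i) (z i) (a i, b i) :=
      ((hF i).bot (a i) le_rfl (by have := (hF i).w0; omega) (by simp)).2
    have h2 := hS4 _ hportC _ hC
    have h3 := hS5 _ _ (hscR i _ hab h1 _ h1)
    have h4 := hS5 _ _ (hscR i _ hab h1 _ hv)
    exact h2.trans (h3.symm.trans h4)

end Pool.Agent.J4H99.SD
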