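import Mathlib

/-!
# The square lattice: basic definitions
-/

set_option autoImplicit false

open Equiv Equiv.Perm

namespace Pool.Agent.J4H99.SD

abbrev V := ℤ × ℤ

/-- adjacency in the square lattice -/
def Adj (x y : V) : Prop :=
  (x.1 = y.1 ∧ (x.2 = y.2 + 1 ∨ y.2 = x.2 + 1)) ∨ (x.2 = y.2 ∧ (x.1 = y.1 + 1 ∨ y.1 = x.1 + 1))

lemma Adj.symm {x y : V} (h : Adj x y) : Adj y x := by
  unfold Adj at *
  omega

lemma Adj.irrefl (x : V) : ¬ Adj x x := by
  unfold Adj
  omega

lemma Adj.ne {x y : V} (h : Adj x y) : x ≠ y := by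
  rintro rfl
  exact Adj.irrefl _ h

/-- `u` is within distance `k` (maximum norm) of `v` -/
def Bx (v : V) (k : ℤ) (u : V) : Prop :=
  -k ≤ u.1 - v.1 ∧ u.1 - v.1 ≤ k ∧ -k ≤ u.2 - v.2 ∧ u.2 - v.2 ≤ k

/-- linear part: exchange of the coordinates, signs -/
def lin (g : Bool × Bool × Bool) (x : V) : V :=
  let y : V := if g.1 then (x.2, x.1) else x
  (if g.2.1 then -y.1 else y.1, if g.2.2 then -y.2 else y.2)

def linInv (g : Bool × Bool × Bool) (x : V) : V :=
  let y : V := (if g.2.1 then -x.1 else x.1, if g.2.2 then -x.2 else x.2)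
  if g.1 then (y.2, y.1) else y

lemma linInv_lin (g : Bool × Bool × Bool) (x : V) : linInv g (lin g x) = x := by
  obtain ⟨a, b, c⟩ := g
  cases a <;> cases b <;> cases c <;> simp [lin, linInv]

lemma lin_linInv (g : Bool × Bool × Bool) (x : V) : lin g (linInv g x) = x := by
  obtain ⟨a, b, c⟩ := g
  cases a <;> cases b <;> cases c <;> simp [lin, linInv]

/-- the automorphism `x ↦ v + g x` -/
def aff (v : V) (g : Bool × Bool × Bool) : V ≃ V where
  toFun x := v + lin g x
  invFun x := linInv g (x - v)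
  left_inv x := by simp [linInv_lin]
  right_inv x := by simp [lin_linInv]

lemma aff_apply (v : V) (g : Bool × Bool × Bool) (x : V) : aff v g x = v + lin g x := rfl

lemma lin_zero (g : Bool × Bool × Bool) : lin g (0, 0) = (0, 0) := by
  obtain ⟨a, b, c⟩ := g
  cases a <;> cases b <;> cases c <;> simp [lin]

lemma aff_zero (v : V) (g : Bool × Bool × Bool) : aff v g (0, 0) = v := by
  rw [aff_apply, lin_zero]
  simp

lemma adj_aff (v : V) (g : Bool × Bool × Bool) (x y : V) :
    Adj (aff v g x) (aff v g y) ↔ Adj x y := by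
  obtain ⟨a, b, c⟩ := g
  cases a <;> cases b <;> cases c <;> simp only [aff_apply, lin, Adj, Prod.fst_add, Prod.snd_add, if_true, if_false,
    Bool.false_eq_true] <;> omega

lemma bx_aff (v : V) (g : Bool × Bool × Bool) (x y : V) (k : ℤ) :
    Bx (aff v g x) k (aff v g y) ↔ Bx x k y := by
  obtain ⟨a, b, c⟩ := g
  cases a <;> cases b <;> cases c <;> simp only [aff_apply, lin, Bx, Prod.fst_add, Prod.snd_add, if_true, if_false,
    Bool.false_eq_true] <;> omega

lemma Bx.mono {v u : V} {k l : ℤ} (h : Bx v k u) (hkl : k ≤ l) : Bx v l u := by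
  unfold Bx at *
  omega

lemma Bx.symm {v u : V} {k : ℤ} (h : Bx v k u) : Bx u k v := by
  unfold Bx at *
  omega

lemma Bx.trans {v u w : V} {k l : ℤ} (h : Bx v k u) (h' : Bx u l w) : Bx v (k + l) w := by
  unfold Bx at *
  omega

/-- the composition of two such maps, and inverses, are of the same form -/
def mulg (g h : Bool × Bool × Bool) : Bool × Bool × Bool :=
  -- the linear map `lin g ∘ lin h`
  (xor g.1 h.1,
    xor g.2.1 (if g.1 then h.2.2 else h.2.1), xor g.2.2 (if g.1 then h.2.1 else h.2.2))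

lemma lin_mulg (g h : Bool × Bool × Bool) (x : V) : lin (mulg g h) x = lin g (lin h x) := by
  obtain ⟨a, b, c⟩ := g
  obtain ⟨a', b', c'⟩ := h
  cases a <;> cases b <;> cases c <;> cases a' <;> cases b' <;> cases c' <;>
    simp [lin, mulg]

def invg (g : Bool × Bool × Bool) : Bool × Bool × Bool :=
  (g.1, if g.1 then g.2.2 else g.2.1, if g.1 then g.2.1 else g.2.2)

lemma lin_invg (g : Bool × Bool × Bool) (x : V) : lin (invg g) x = linInv g x := by
  obtain ⟨a, b, c⟩ := g
  cases a <;> cases b <;> cases c <;> simp [lin, linInv, invg]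

lemma lin_add (g : Bool × Bool × Bool) (x y : V) : lin g (x + y) = lin g x + lin g y := by
  obtain ⟨a, b, c⟩ := g
  obtain ⟨x1, x2⟩ := x
  obtain ⟨y1, y2⟩ := y
  cases a <;> cases b <;> cases c <;> simp [lin, add_comm]

lemma lin_neg (g : Bool × Bool × Bool) (x : V) : lin g (-x) = - lin g x := by
  obtain ⟨a, b, c⟩ := g
  obtain ⟨x1, x2⟩ := x
  cases a <;> cases b <;> cases c <;> simp [lin]

lemma lin_sub (g : Bool × Bool × Bool) (x y : V) : lin g (x - y) = lin g x - lin g y := by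
  rw [sub_eq_add_neg, lin_add, lin_neg, ← sub_eq_add_neg]

lemma aff_mul (v w : V) (g h : Bool × Bool × Bool) (x : V) :
    aff v g (aff w h x) = aff (aff v g w) (mulg g h) x := by
  rw [aff_apply, aff_apply, aff_apply, aff_apply, lin_mulg, lin_add, add_assoc]

lemma aff_symm (v : V) (g : Bool × Bool × Bool) (x : V) :
    (aff v g).symm x = aff (lin (invg g) (-v)) (invg g) x := by
  show linInv g (x - v) = _
  rw [aff_apply, ← lin_add, lin_invg]
  congr 1
  abel

/-- an element of the group of these maps -/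
def IsAff (σ : V ≃ V) : Prop := ∃ v g, σ = aff v g

lemma IsAff.mul {σ τ : V ≃ V} (h : IsAff σ) (h' : IsAff τ) : IsAff (τ.trans σ) := by
  obtain ⟨v, g, rfl⟩ := h
  obtain ⟨w, h, rfl⟩ := h'
  refine ⟨aff v g w, mulg g h, ?_⟩
  ext x : 1
  exact aff_mul v w g h x

lemma IsAff.symm {σ : V ≃ V} (h : IsAff σ) : IsAff σ.symm := by
  obtain ⟨v, g, rfl⟩ := h
  refine ⟨lin (invg g) (-v), invg g, ?_⟩
  ext x : 1
  exact aff_symm v g x

lemma IsAff.adj {σ : V ≃ V} (h : IsAff σ) (x y : V) : Adj (σ x) (σ y) ↔ Adj x y := by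
  obtain ⟨v, g, rfl⟩ := h
  exact adj_aff v g x y

lemma IsAff.bx {σ : V ≃ V} (h : IsAff σ) (x y : V) (k : ℤ) : Bx (σ x) k (σ y) ↔ Bx x k y := by
  obtain ⟨v, g, rfl⟩ := h
  exact bx_aff v g x y k

/-! ## Automorphisms -/

/-- two different neighbours `x`, `y` of `o`: a common neighbour different from `o` is
`x + y - o` -/
lemma common_nb {o x y z : V} (hx : Adj o x) (hy : Adj o y) (hxy : x ≠ y) (hz : Adj x z)
    (hz' : Adj y z) (hzo : z ≠ o) : z = x + y - o := by
  obtain ⟨o1, o2⟩ := o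
  obtain ⟨x1, x2⟩ := x
  obtain ⟨y1, y2⟩ := y
  obtain ⟨z1, z2⟩ := z
  simp only [Adj, ne_eq, Prod.mk.injEq, Prod.mk_add_mk, Prod.mk_sub_mk] at *
  omega

lemma common_nb_exists {o x y : V} (hx : Adj o x) (hy : Adj o y) (hxy : x ≠ y)
    (hne : x + y ≠ o + o) : Adj x (x + y - o) ∧ Adj y (x + y - o) ∧ x + y - o ≠ o := by
  obtain ⟨o1, o2⟩ := o
  obtain ⟨x1, x2⟩ := x
  obtain ⟨y1, y2⟩ := y
  simp only [Adj, ne_eq, Prod.mk.injEq, Prod.mk_add_mk, Prod.mk_sub_mk] at *
  omega

lemma opp_no_common {o x y z : V} (hx : Adj o x) (hy : Adj o y) (hxy : x ≠ y)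
    (hne : x + y = o + o) (hz : Adj x z) (hz' : Adj y z) : z = o := by
  by_contra hc
  have h1 := common_nb hx hy hxy hz hz' hc
  apply hc
  rw [h1, hne]
  abel

section aut

variable {φ : V → V} (hφ : Function.Bijective φ) (hadj : ∀ x y, Adj (φ x) (φ y) ↔ Adj x y)
include hφ hadj

lemma aut_opp {o x y : V} (hx : Adj o x) (hy : Adj o y) (hxy : x ≠ y) (h : x + y = o + o) :
    φ x + φ y = φ o + φ o := by
  by_contra hc
  obtain ⟨h1, h2, h3⟩ := common_nb_exists ((hadj _ _).2 hx) ((hadj _ _).2 hy)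
    (fun h => hxy (hφ.1 h)) hc
  obtain ⟨z, hz⟩ := hφ.2 (φ x + φ y - φ o)
  rw [← hz] at h1 h2 h3
  have h4 := opp_no_common hx hy hxy h ((hadj _ _).1 h1) ((hadj _ _).1 h2)
  rw [h4] at h3
  exact h3 rfl

lemma aut_square {o x y : V} (hx : Adj o x) (hy : Adj o y) (hxy : x ≠ y) (h : x + y ≠ o + o) :
    φ (x + y - o) = φ x + φ y - φ o := by
  obtain ⟨h1, h2, h3⟩ := common_nb_exists hx hy hxy h
  exact common_nb ((hadj _ _).2 hx) ((hadj _ _).2 hy) (fun h => hxy (hφ.1 h)) ((hadj _ _).2 h1)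
    ((hadj _ _).2 h2) (fun h => h3 (hφ.1 h))

lemma aut_affine : ∃ u u' : V, ∀ x : V, φ x = φ (0, 0) + x.1 • u + x.2 • u' := by
  -- first differences
  have hA : ∀ x : V, φ (x + (1, 0)) + φ (x - (1, 0)) = φ x + φ x := by
    intro x
    refine aut_opp hφ hadj ?_ ?_ ?_ ?_
    · simp [Adj]
    · simp [Adj]
    · intro h
      have := congrArg Prod.fst h
      simp at this
      omega
    · abel
  have hB : ∀ x : V, φ (x + (0, 1)) + φ (x - (0, 1)) = φ x + φ x := by
    intro x
    refine aut_opp hφ hadj ?_ ?_ ?_ ?_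
    · simp [Adj]
    · simp [Adj]
    · intro h
      have := congrArg Prod.snd h
      simp at this
      omega
    · abel
  have hC : ∀ x : V, φ (x + (1, 0) + (0, 1)) = φ (x + (1, 0)) + φ (x + (0, 1)) - φ x := by
    intro x
    have h := aut_square hφ hadj (o := x) (x := x + (1, 0)) (y := x + (0, 1)) (by simp [Adj])
      (by simp [Adj]) (by
        intro h
        have := congrArg Prod.fst h
        simp at this) (by
        intro h
        have := congrArg Prod.fst h
        simp at this)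
    rw [← h]
    congr 1
    abel
  set u := φ (1, 0) - φ (0, 0) with hu
  set u' := φ (0, 1) - φ (0, 0) with hu'
  -- differences are constant
  have hdx : ∀ x : V, φ (x + (1, 0) + (1, 0)) - φ (x + (1, 0)) = φ (x + (1, 0)) - φ x := by
    intro x
    have h := hA (x + (1, 0))
    have h2 : x + (1, 0) - (1, 0) = x := by abel
    rw [h2] at h
    have h3 : φ (x + (1, 0) + (1, 0)) = φ (x + (1, 0)) + φ (x + (1, 0)) - φ x := by
      rw [← h]; abel
    rw [h3]; abel
  have hdy : ∀ x : V, φ (x + (0, 1) + (0, 1)) - φ (x + (0, 1)) = φ (x + (0, 1)) - φ x := by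
    intro x
    have h := hB (x + (0, 1))
    have h2 : x + (0, 1) - (0, 1) = x := by abel
    rw [h2] at h
    have h3 : φ (x + (0, 1) + (0, 1)) = φ (x + (0, 1)) + φ (x + (0, 1)) - φ x := by
      rw [← h]; abel
    rw [h3]; abel
  have hxy : ∀ x : V, φ (x + (0, 1) + (1, 0)) - φ (x + (0, 1)) = φ (x + (1, 0)) - φ x := by
    intro x
    have h := hC x
    have h2 : x + (0, 1) + (1, 0) = x + (1, 0) + (0, 1) := by abel
    rw [h2, h]; abel
  have hyx : ∀ x : V, φ (x + (1, 0) + (0, 1)) - φ (x + (1, 0)) = φ (x + (0, 1)) - φ x := by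
    intro x
    rw [hC x]; abel
  -- `D1` constant
  have hD1 : ∀ a b : ℤ, φ ((a, b) + (1, 0)) - φ (a, b) = u := by
    have h0 : ∀ a : ℤ, φ ((a, 0) + (1, 0)) - φ (a, 0) = u := by
      intro a
      induction a using Int.induction_on with
      | zero => rw [hu]; simp
      | succ a ih =>
        have h := hdx (((a : ℤ), 0) : V)
        have e : (((a : ℤ) + 1, 0) : V) = ((a : ℤ), 0) + (1, 0) := by simp
        rw [e, h, ih]
      | pred a ih =>
        have h := hdx (((-(a : ℤ) - 1, 0)) : V)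
        have e : (((-(a : ℤ) - 1, 0)) : V) + (1, 0) = (-(a : ℤ), 0) := by simp
        rw [e] at h
        rw [e, ← h, ih]
    intro a b
    induction b using Int.induction_on with
    | zero => exact h0 a
    | succ b ih =>
      have h := hxy ((a, (b : ℤ)) : V)
      have e : ((a, (b : ℤ) + 1) : V) = (a, (b : ℤ)) + (0, 1) := by simp
      rw [e, h, ih]
    | pred b ih =>
      have h := hxy ((a, -(b : ℤ) - 1) : V)
      have e : ((a, -(b : ℤ) - 1) : V) + (0, 1) = (a, -(b : ℤ)) := by simp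
      rw [e] at h
      rw [← h, ih]
  have hD2 : ∀ a b : ℤ, φ ((a, b) + (0, 1)) - φ (a, b) = u' := by
    have h0 : ∀ b : ℤ, φ ((0, b) + (0, 1)) - φ (0, b) = u' := by
      intro a
      induction a using Int.induction_on with
      | zero => rw [hu']; simp
      | succ a ih =>
        have h := hdy ((0, (a : ℤ)) : V)
        have e : ((0, (a : ℤ) + 1) : V) = (0, (a : ℤ)) + (0, 1) := by simp
        rw [e, h, ih]
      | pred a ih =>
        have h := hdy ((0, -(a : ℤ) - 1) : V)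
        have e : ((0, -(a : ℤ) - 1) : V) + (0, 1) = (0, -(a : ℤ)) := by simp
        rw [e] at h
        rw [e, ← h, ih]
    intro b a
    induction b using Int.induction_on with
    | zero => exact h0 a
    | succ b ih =>
      have h := hyx (((b : ℤ), a) : V)
      have e : (((b : ℤ) + 1, a) : V) = ((b : ℤ), a) + (1, 0) := by simp
      rw [e, h, ih]
    | pred b ih =>
      have h := hyx ((-(b : ℤ) - 1, a) : V)
      have e : ((-(b : ℤ) - 1, a) : V) + (1, 0) = (-(b : ℤ), a) := by simp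
      rw [e] at h
      rw [← h, ih]
  refine ⟨u, u', ?_⟩
  have hX : ∀ a : ℤ, φ (a, 0) = φ (0, 0) + a • u := by
    intro a
    induction a using Int.induction_on with
    | zero => simp
    | succ a ih =>
      have h := hD1 (a : ℤ) 0
      have e : (((a : ℤ) + 1, 0) : V) = ((a : ℤ), 0) + (1, 0) := by simp
      rw [e, ← sub_add_cancel (φ (((a : ℤ), 0) + (1, 0))) (φ ((a : ℤ), 0)), h, ih, add_smul,
        one_smul]
      abel
    | pred a ih =>
      have h := hD1 (-(a : ℤ) - 1) 0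
      have e : (((-(a : ℤ) - 1, 0)) : V) + (1, 0) = (-(a : ℤ), 0) := by simp
      rw [e] at h
      have h2 : φ (-(a : ℤ) - 1, 0) = φ (-(a : ℤ), 0) - u := by rw [← h]; abel
      rw [h2, ih, sub_smul, one_smul]
      abel
  rintro ⟨a, b⟩
  show φ (a, b) = φ (0, 0) + a • u + b • u'
  induction b using Int.induction_on with
  | zero => rw [hX]; simp
  | succ b ih =>
    have h := hD2 a (b : ℤ)
    have e : ((a, (b : ℤ) + 1) : V) = (a, (b : ℤ)) + (0, 1) := by simp
    rw [e, ← sub_add_cancel (φ ((a, (b : ℤ)) + (0, 1))) (φ (a, (b : ℤ))), h, ih, add_smul,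
      one_smul]
    abel
  | pred b ih =>
    have h := hD2 a (-(b : ℤ) - 1)
    have e : ((a, -(b : ℤ) - 1) : V) + (0, 1) = (a, -(b : ℤ)) := by simp
    rw [e] at h
    have h2 : φ (a, -(b : ℤ) - 1) = φ (a, -(b : ℤ)) - u' := by rw [← h]; abel
    rw [h2, ih, sub_smul, one_smul]
    abel

/-- **Classification of the automorphisms of the square lattice.** -/
theorem aut_classify : ∃ v g, ∀ x, φ x = aff v g x := by
  obtain ⟨u, u', h⟩ := aut_affine hφ hadj
  have h1 : Adj (φ (0, 0)) (φ (1, 0)) := (hadj _ _).2 (by simp [Adj])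
  have h2 : Adj (φ (0, 0)) (φ (0, 1)) := (hadj _ _).2 (by simp [Adj])
  have h3 : φ (1, 0) ≠ φ (0, 1) := fun hc => by simpa using hφ.1 hc
  have h4 : φ (1, 0) ≠ φ (0, -1) := fun hc => by simpa using hφ.1 hc
  obtain ⟨p, q⟩ := u
  obtain ⟨p', q'⟩ := u'
  set o := φ (0, 0) with ho
  obtain ⟨o1, o2⟩ := o
  rw [h (1, 0)] at h1 h3 h4
  rw [h (0, 1)] at h2 h3
  rw [h (0, -1)] at h4
  simp only [Adj, one_smul, zero_smul, add_zero, Prod.mk_add_mk, ne_eq, Prod.mk.injEq,
    neg_smul, Prod.neg_mk, neg_zero] at h1 h2 h3 h4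
  -- the eight cases
  have hp : (p = 1 ∧ q = 0) ∨ (p = -1 ∧ q = 0) ∨ (p = 0 ∧ q = 1) ∨ (p = 0 ∧ q = -1) := by omega
  have hp' : (p' = 1 ∧ q' = 0) ∨ (p' = -1 ∧ q' = 0) ∨ (p' = 0 ∧ q' = 1) ∨ (p' = 0 ∧ q' = -1) := by
    omega
  rcases hp with ⟨rfl, rfl⟩ | ⟨rfl, rfl⟩ | ⟨rfl, rfl⟩ | ⟨rfl, rfl⟩ <;>
    rcases hp' with ⟨rfl, rfl⟩ | ⟨rfl, rfl⟩ | ⟨rfl, rfl⟩ | ⟨rfl, rfl⟩ <;>
    first
    | (exfalso; omega)
    | (refine ⟨(o1, o2), (false, false, false), fun x => ?_⟩
       obtain ⟨x1, x2⟩ := x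
       rw [h, aff_apply]; simp [lin]; done)
    | (refine ⟨(o1, o2), (false, false, true), fun x => ?_⟩
       obtain ⟨x1, x2⟩ := x
       rw [h, aff_apply]; simp [lin]; done)
    | (refine ⟨(o1, o2), (false, true, false), fun x => ?_⟩
       obtain ⟨x1, x2⟩ := x
       rw [h, aff_apply]; simp [lin]; done)
    | (refine ⟨(o1, o2), (false, true, true), fun x => ?_⟩
       obtain ⟨x1, x2⟩ := x
       rw [h, aff_apply]; simp [lin]; done)
    | (refine ⟨(o1, o2), (true, false, false), fun x => ?_⟩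
       obtain ⟨x1, x2⟩ := x
       rw [h, aff_apply]; simp [lin]; done)
    | (refine ⟨(o1, o2), (true, false, true), fun x => ?_⟩
       obtain ⟨x1, x2⟩ := x
       rw [h, aff_apply]; simp [lin]; done)
    | (refine ⟨(o1, o2), (true, true, false), fun x => ?_⟩
       obtain ⟨x1, x2⟩ := x
       rw [h, aff_apply]; simp [lin]; done)
    | (refine ⟨(o1, o2), (true, true, true), fun x => ?_⟩
       obtain ⟨x1, x2⟩ := x
       rw [h, aff_apply]; simp [lin]; done)

end aut

/-- the linear part is determined by the image of `(1, 2)` -/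
lemma lin_inj {g h : Bool × Bool × Bool} (hgh : lin g (1, 2) = lin h (1, 2)) : g = h := by
  obtain ⟨a, b, c⟩ := g
  obtain ⟨a', b', c'⟩ := h
  cases a <;> cases b <;> cases c <;> cases a' <;> cases b' <;> cases c' <;>
    first | rfl | (exfalso; simp [lin] at hgh)

end Pool.Agent.J4H99.SD
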