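import Pool.Agent.J4H99.SD.Asm

/-!
# The extension lemma
-/

set_option autoImplicit false

open Equiv Equiv.Perm

namespace Pool.Agent.J4H99.SD

/-- the large piece `(F, R)` of size `m` extends the piece `(f, ρ)` of size `m'` placed by `σ` -/
structure Extends (σ : V ≃ V) (m' : ℤ) (f ρ : Perm V) (m : ℤ) (F R : Perm V) : Prop where
  fst : ∀ v, Sq m' v → v ≠ port m' → F (σ v) = σ (f v)
  snd : ∀ v, Inn m' v → R (σ v) = σ (ρ v)
  cyc : ∀ v, SameCycle f (port m') v → SameCycle F (port m) (σ v)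

/-- two different neighbours removed -/
lemma two_left {v p q : V} (hp : Adj v p) (hq : Adj v q) (hpq : p ≠ q) :
    ∃ a b, a ≠ b ∧ ∀ w, (Adj v w ∧ w ≠ p ∧ w ≠ q) ↔ w = a ∨ w = b := by
  obtain ⟨x, y⟩ := v
  have hnb : ∀ w : V, Adj (x, y) w ↔ w = (x + 1, y) ∨ w = (x - 1, y) ∨ w = (x, y + 1) ∨
      w = (x, y - 1) := by
    rintro ⟨s, t⟩
    simp only [Adj, Prod.mk.injEq]
    omega
  have n12 : ((x + 1, y) : V) ≠ (x - 1, y) := by simp only [ne_eq, Prod.mk.injEq]; omega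
  have n13 : ((x + 1, y) : V) ≠ (x, y + 1) := by simp only [ne_eq, Prod.mk.injEq]; omega
  have n14 : ((x + 1, y) : V) ≠ (x, y - 1) := by simp only [ne_eq, Prod.mk.injEq]; omega
  have n23 : ((x - 1, y) : V) ≠ (x, y + 1) := by simp only [ne_eq, Prod.mk.injEq]; omega
  have n24 : ((x - 1, y) : V) ≠ (x, y - 1) := by simp only [ne_eq, Prod.mk.injEq]; omega
  have n34 : ((x, y + 1) : V) ≠ (x, y - 1) := by simp only [ne_eq, Prod.mk.injEq]; omega
  generalize hn1 : ((x + 1, y) : V) = n1 at *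
  generalize hn2 : ((x - 1, y) : V) = n2 at *
  generalize hn3 : ((x, y + 1) : V) = n3 at *
  generalize hn4 : ((x, y - 1) : V) = n4 at *
  rw [hnb] at hp hq
  have key : ∀ {a b c d : V}, a ≠ b → a ≠ c → a ≠ d → b ≠ c → b ≠ d → c ≠ d →
      (∀ w : V, Adj (x, y) w ↔ w = a ∨ w = b ∨ w = c ∨ w = d) →
      ∃ a' b', a' ≠ b' ∧ ∀ w, (Adj (x, y) w ∧ w ≠ a ∧ w ≠ b) ↔ w = a' ∨ w = b' := by
    intro a b c d h1 h2 h3 h4 h5 h6 h7
    refine ⟨c, d, h6, fun w => ?_⟩
    rw [h7]
    constructor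
    · rintro ⟨h | h | h | h, h8, h9⟩
      · exact absurd h h8
      · exact absurd h h9
      · exact Or.inl h
      · exact Or.inr h
    · rintro (rfl | rfl)
      · exact ⟨by tauto, h2.symm, h4.symm⟩
      · exact ⟨by tauto, h3.symm, h5.symm⟩
  rcases hp with rfl | rfl | rfl | rfl <;> rcases hq with rfl | rfl | rfl | rfl
  · exact absurd rfl hpq
  · exact key n12 n13 n14 n23 n24 n34 hnb
  · exact key n13 n12 n14 n23.symm n34 n24 (fun w => by rw [hnb]; tauto)
  · exact key n14 n12 n13 n24.symm n34.symm n23 (fun w => by rw [hnb]; tauto)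
  · exact key n12.symm n23 n24 n13 n14 n34 (fun w => by rw [hnb]; tauto)
  · exact absurd rfl hpq
  · exact key n23 n12.symm n24 n13.symm n34 n14 (fun w => by rw [hnb]; tauto)
  · exact key n24 n12.symm n23 n14.symm n34.symm n13 (fun w => by rw [hnb]; tauto)
  · exact key n13.symm n23.symm n34 n12 n14 n24 (fun w => by rw [hnb]; tauto)
  · exact key n23.symm n13.symm n34 n12.symm n24 n14 (fun w => by rw [hnb]; tauto)
  · exact absurd rfl hpq
  · exact key n34 n13.symm n23.symm n14.symm n24.symm n12 (fun w => by rw [hnb]; tauto)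
  · exact key n14.symm n24.symm n34.symm n12 n13 n23 (fun w => by rw [hnb]; tauto)
  · exact key n24.symm n14.symm n34.symm n12.symm n23 n13 (fun w => by rw [hnb]; tauto)
  · exact key n34.symm n14.symm n24.symm n13.symm n23.symm n12 (fun w => by rw [hnb]; tauto)
  · exact absurd rfl hpq

/-- **Extension lemma.** -/
theorem ext_lemma {I : Type*} {m : ℤ} (hm : m % 2 = 0) (hm8 : 8 ≤ m) (σ : I → V ≃ V)
    (hσ : ∀ i, IsAff (σ i)) (mi : I → ℤ) (f ρ : I → Perm V)
    (hS : ∀ i, Std (mi i) (f i) (ρ i))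
    (hin : ∀ i, Bx (0, 0) (m - mi i - 12) (σ i (0, 0)))
    (hsep : ∀ i j, i ≠ j → ¬ Bx (σ i (0, 0)) (mi i + mi j + 12) (σ j (0, 0))) :
    ∃ F R : Perm V, Std m F R ∧ ∀ i, Extends (σ i) (mi i) (f i) (ρ i) m F R := by
  classical
  have hN := fun i => normalise (hσ i) (hS i)
  choose a b w h G z ha hb hSt using hN
  have hfull : ∀ i, Full (a i) (b i) (w i) (h i) (G i) (z i) := fun i => by
    have := (hSt i).full
    simpa [FullC] using this
  have hbx : ∀ i v, InR (a i) (b i) (w i) (h i) v → Bx (σ i (0, 0)) (mi i + 5) v := by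
    intro i v hv
    have h1 := (hSt i).bx
    generalize hp : σ i (0, 0) = p at *
    obtain ⟨x, y⟩ := v
    obtain ⟨p1, p2⟩ := p
    simp only [InR, Bx] at *
    omega
  obtain ⟨M, hM⟩ : ∃ M, m = 2 * M := ⟨m / 2, by omega⟩
  have hin' : ∀ i v, InR (a i) (b i) (w i) (h i) v →
      -(2 * M) + 2 ≤ v.1 ∧ v.1 < 2 * M - 2 ∧ -(2 * M) + 2 ≤ v.2 ∧ v.2 < 2 * M - 2 := by
    intro i v hv
    have h1 := (hin i).trans (hbx i v hv)
    simp only [Bx] at h1
    omega
  have hdis : ∀ i j v, InR (a i) (b i) (w i) (h i) v → InR (a j) (b j) (w j) (h j) v → i = j := by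
    intro i j v hi hj
    by_contra hne
    apply hsep i j hne
    exact ((hbx i v hi).trans (hbx j v hj).symm).mono (by omega)
  obtain ⟨F, hF1, hF2, hF3, hF4, hF5, hF6, hF7⟩ := assemble (by omega : 4 ≤ M) a b w h G z hfull ha hb
    hin' hdis
  rw [← hM] at hF1 hF2 hF3 hF4 hF5 hF7
  rw [← hM] at hin'
  -- the first colour extends
  have hfst : ∀ i v, Sq (mi i) v → v ≠ port (mi i) → F (σ i v) = σ i (f i v) := by
    intro i v hv hne
    rw [(hF6 i _ ((hSt i).inn v hv) ((hSt i).ni v hv)).1]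
    exact (hSt i).ag v hv hne
  have hInnSq : ∀ {k : ℤ} {v : V}, Inn k v → Sq k v := by
    intro k v hv
    simp only [Inn, Sq] at *
    omega
  have hInnport : ∀ {k : ℤ} {v : V}, Inn k v → v ≠ port k := by
    rintro k v hv rfl
    simp only [Inn, port] at *
    omega
  -- the second colour
  let c : V → V → Prop := fun u v => Adj u v ∧ F u ≠ v ∧ F v ≠ u
  have hcs : ∀ u v, c u v → c v u := fun u v h1 => ⟨h1.1.symm, h1.2.2, h1.2.1⟩
  have hcirr : ∀ v, ¬ c v v := fun v h1 => Adj.irrefl v h1.1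
  have hW : ∀ v ∈ {v | Inn m v}, ∃ p q, p ≠ q ∧ p ∈ {v | Inn m v} ∧ q ∈ {v | Inn m v} ∧
      ∀ u, c v u ↔ u = p ∨ u = q := by
    intro v hv
    have hvS : Sq m v := hInnSq hv
    have h1 : Adj v (F v) := hF2 v hvS
    have h2 : Sq m (F⁻¹ v) := inv_support hF1 hvS
    have h3 : Adj v (F⁻¹ v) := by
      have := hF2 _ h2
      rw [pinv] at this
      exact this.symm
    have h4 : F v ≠ F⁻¹ v := by
      intro hc
      apply hF3 v hvS
      rw [hc, pinv]
    obtain ⟨p, q, hpq, hpq'⟩ := two_left h1 h3 h4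
    have hciff : ∀ u, c v u ↔ u = p ∨ u = q := by
      intro u
      rw [← hpq']
      constructor
      · rintro ⟨h5, h6, h7⟩
        refine ⟨h5, fun h => h6 h.symm, ?_⟩
        rintro rfl
        exact h7 (pinv F v)
      · rintro ⟨h5, h6, h7⟩
        refine ⟨h5, fun h => h6 h.symm, ?_⟩
        intro h8
        exact h7 (Equiv.Perm.inv_eq_iff_eq.2 h8.symm).symm
    have hmem : ∀ u, c v u → Inn m u := by
      intro u hu
      by_contra hc
      rcases hF5 v u hv hc hu.1 with h5 | h5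
      · exact hu.2.1 h5
      · exact hu.2.2 h5
    exact ⟨p, q, hpq, hmem p ((hciff p).2 (Or.inl rfl)), hmem q ((hciff q).2 (Or.inr rfl)), hciff⟩
  -- the orientation given on the small pieces
  have hρm : ∀ i v, Inn (mi i) v → Inn (mi i) (ρ i v) := fun i v hv =>
    map_support (hS i).ρout hv
  obtain ⟨τ, hτ1, hτ2⟩ := glue (I := I) (fun i => (σ i : Perm V) * ρ i * (σ i : Perm V)⁻¹)
    (fun i => {u | Inn (mi i) ((σ i : Perm V)⁻¹ u)}) (by
      intro i j u hi hj
      have h1 := (hSt i).inn _ (hInnSq hi)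
      have h2 := (hSt j).inn _ (hInnSq hj)
      rw [pinv] at h1 h2
      exact hdis i j u h1 h2) (by
      intro i u hu
      rw [Perm.mul_apply, Perm.mul_apply, (hS i).ρout _ hu, pinv])
  have hτv : ∀ i v, Inn (mi i) v → τ (σ i v) = σ i (ρ i v) := by
    intro i v hv
    have h1 : (σ i v) ∈ {u | Inn (mi i) ((σ i : Perm V)⁻¹ u)} := by
      show Inn (mi i) ((σ i : Perm V)⁻¹ (σ i v))
      rw [pinv']
      exact hv
    rw [(hτ1 i _ h1).1, Perm.mul_apply, Perm.mul_apply, pinv']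
  obtain ⟨R, hR1, hR2, hR3⟩ := exists_orient_ext (c := c) hcs hcirr (W := {v | Inn m v})
    (T := {u | ∃ i, Inn (mi i) ((σ i : Perm V)⁻¹ u)}) (by
      rintro u ⟨i, hi⟩
      have h1 := (hSt i).inn _ (hInnSq hi)
      rw [pinv] at h1
      have h2 := hin' i u h1
      show Inn m u
      unfold Inn
      omega) hW τ (by
      intro u hu
      refine hτ2 u ?_
      intro i hi
      exact hu ⟨i, hi⟩) (by
      rintro u ⟨i, hi⟩
      obtain ⟨v, rfl⟩ : ∃ v, u = σ i v := ⟨(σ i : Perm V)⁻¹ u, (pinv _ _).symm⟩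
      rw [pinv'] at hi
      have h1 := hρm i v hi
      obtain ⟨h2, h3, h4, h5⟩ := (hS i).ρin v hi
      rw [hτv i v hi, hτv i _ h1]
      refine ⟨⟨?_, ?_, ?_⟩, ?_⟩
      · exact ((hσ i).adj _ _).2 h2
      · rw [hfst i v (hInnSq hi) (hInnport hi)]
        exact fun h => h3 ((σ i).injective h)
      · rw [hfst i _ (hInnSq h1) (hInnport h1)]
        exact fun h => h4 ((σ i).injective h)
      · exact fun h => h5 ((σ i).injective h))
  refine ⟨F, R, ⟨hm, by omega, hF1, hF2, hF3, hF4, hF5, hR1, ?_⟩, ?_⟩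
  · intro v hv
    obtain ⟨h1, h2, h3⟩ := hR2 v hv
    exact ⟨h2.1, h2.2.1, h2.2.2, h3⟩
  · intro i
    refine ⟨hfst i, ?_, ?_⟩
    · intro v hv
      rw [hR3 (σ i v) ⟨i, by show Inn (mi i) ((σ i : Perm V)⁻¹ (σ i v)); rw [pinv']; exact hv⟩,
        hτv i v hv]
    · intro v hv
      exact hF7 i _ ((hSt i).cyc v hv)

end Pool.Agent.J4H99.SD
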