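import Pool.Agent.J4H99.SD.Ring

/-!
# Rectangles with a good boundary
-/

set_option autoImplicit false

open Equiv Equiv.Perm

namespace Pool.Agent.J4H99.SD

/-- cycle cover of the rectangle whose boundary blocks are on the cycle of `z`,
counterclockwise -/
structure Full (a b w h : ℤ) (f : Perm V) (z : V) : Prop where
  w2 : w % 2 = 0
  h2 : h % 2 = 0
  w0 : 0 < w
  h0 : 0 < h
  out : ∀ v, ¬ InR a b w h v → f v = v
  adj : ∀ v, InR a b w h v → Adj v (f v)
  no2 : ∀ v, InR a b w h v → f (f v) ≠ v
  bot : ∀ x, a ≤ x → x < a + w → (x - a) % 2 = 0 → f (x, b) = (x + 1, b) ∧ SameCycle f z (x, b)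
  right : ∀ y, b ≤ y → y < b + h → (y - b) % 2 = 0 →
    f (a + w - 1, y) = (a + w - 1, y + 1) ∧ SameCycle f z (a + w - 1, y)
  top : ∀ x, a ≤ x → x < a + w → (x - a) % 2 = 1 →
    f (x, b + h - 1) = (x - 1, b + h - 1) ∧ SameCycle f z (x, b + h - 1)
  left : ∀ y, b ≤ y → y < b + h → (y - b) % 2 = 1 →
    f (a, y) = (a, y - 1) ∧ SameCycle f z (a, y)

lemma Full.congr {a b w h a' b' w' h' : ℤ} {f : Perm V} {z : V} (H : Full a b w h f z)
    (ha : a' = a) (hb : b' = b) (hw : w' = w) (hh : h' = h) : Full a' b' w' h' f z := by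
  subst ha hb hw hh
  exact H

lemma pinv (f : Perm V) (x : V) : f (f⁻¹ x) = x := f.apply_symm_apply x

lemma pinv' (f : Perm V) (x : V) : f⁻¹ (f x) = x := f.symm_apply_apply x

lemma inv_support {f : Perm V} {R : V → Prop} (hf : ∀ v, ¬ R v → f v = v) {v : V} (hv : R v) :
    R (f⁻¹ v) := by
  by_contra hc
  have h1 := hf _ hc
  have h2 : f (f⁻¹ v) = v := by simp
  rw [h2] at h1
  rw [← h1] at hc
  exact hc hv

lemma map_support {f : Perm V} {R : V → Prop} (hf : ∀ v, ¬ R v → f v = v) {v : V} (hv : R v) :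
    R (f v) := by
  by_contra hc
  have h1 := f.injective (hf _ hc)
  rw [h1] at hc
  exact hc hv

/-- adding a ring of width one -/
theorem ringA_step {a b w h y0 : ℤ} {f : Perm V} (hw : w % 2 = 0) (hh : h % 2 = 0) (hw0 : 0 < w)
    (hh0 : 0 < h) (hout : ∀ v, ¬ InR a b w h v → f v = v)
    (hadj : ∀ v, InR a b w h v → Adj v (f v)) (hno2 : ∀ v, InR a b w h v → f (f v) ≠ v)
    (hy : b ≤ y0) (hy' : y0 + 1 < b + h) (hpar : (y0 - b) % 2 = 0)
    (hx : f (a + w - 1, y0) = (a + w - 1, y0 + 1)) :
    ∃ F : Perm V, Full (a - 1) (b - 1) (w + 2) (h + 2) F⁻¹ (a + w - 1, y0) ∧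
      (∀ v, SameCycle f (a + w - 1, y0) v → SameCycle F (a + w - 1, y0) v) ∧
      (∀ v, InR a b w h v → v ≠ (a + w - 1, y0) → F v = f v) ∧
      (∀ v, InR a b w h v → v ≠ (a + w - 1, y0 + 1) → F⁻¹ v = f⁻¹ v) := by
  have h1 : a - 1 < a + w := by omega
  have h2 : b - 1 < b + h := by omega
  have hgx' : (ra h1 h2)⁻¹ (a + w, y0 + 1) = (a + w, y0) := by
    rw [ra_inv_apply]
    unfold raB
    rw [if_pos (by dsimp only; omega), if_pos (by dsimp only; omega)]
    ext <;> dsimp only <;> omega
  obtain ⟨F, hF1, hF2, hF3, hF4, hF5, hF6, hF7, hF8, hF9⟩ :=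
    ring_merge (f := f) (g := (ra h1 h2)⁻¹) (R := InR a b w h)
      (A := InA (a - 1) (b - 1) (a + w) (b + h)) (x := (a + w - 1, y0)) (x' := (a + w, y0 + 1))
      (inR_finite _ _ _ _)
      ((inR_finite (a - 1) (b - 1) (w + 2) (h + 2)).subset (by
        rintro ⟨x, y⟩ hv
        simp only [InA, Set.mem_setOf_eq] at hv
        simp only [InR, Set.mem_setOf_eq]
        omega))
      (by
        rintro ⟨x, y⟩ hv
        simp only [InR, InA] at *
        omega)
      hout
      (by
        intro v hv
        rw [Equiv.Perm.inv_eq_iff_eq, ra_apply, ra_out hv])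
      hadj
      (by
        intro v hv
        have h3 : InA (a - 1) (b - 1) (a + w) (b + h) ((ra h1 h2)⁻¹ v) :=
          inv_support (f := ra h1 h2) (R := InA (a - 1) (b - 1) (a + w) (b + h)) (fun v hv => ra_out hv) hv
        have h4 := ra_adj h1 h2 h3
        rw [← ra_apply h1 h2] at h4
        simp only [pinv] at h4
        exact h4.symm)
      hno2
      (by
        intro v hv hc
        have h4 : (ra h1 h2)⁻¹ v = ra h1 h2 v := by
          rw [Equiv.Perm.inv_eq_iff_eq] at hc
          exact hc
        exact ra_ne (by omega) (by omega) hv (by rw [← ra_inv_apply h1 h2, h4, ra_apply]))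
      (by simp only [InR]; (first | omega | (simp only [true_and, and_true, or_true, true_or]; done) | (simp only [true_and, and_true, or_true, true_or]; omega))) (by simp only [InA]; (first | omega | (simp only [true_and, and_true, or_true, true_or]; done) | (simp only [true_and, and_true, or_true, true_or]; omega)))
      (by
        intro u hu
        rw [sameCycle_inv]
        refine (ra_cycle h1 h2 ?_).symm.trans (ra_cycle h1 h2 hu)
        simp only [InA]; (first | omega | (simp only [true_and, and_true, or_true, true_or]; done) | (simp only [true_and, and_true, or_true, true_or]; omega)))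
      (by rw [hgx']; simp only [Adj]; (first | omega | (simp only [true_and, and_true, or_true, true_or]; done) | (simp only [true_and, and_true, or_true, true_or]; omega)))
      (by rw [hx]; simp only [Adj]; (first | omega | (simp only [true_and, and_true, or_true, true_or]; done) | (simp only [true_and, and_true, or_true, true_or]; omega)))
  have hInR' : ∀ v : V, InR (a - 1) (b - 1) (w + 2) (h + 2) v ↔
      InR a b w h v ∨ InA (a - 1) (b - 1) (a + w) (b + h) v := by
    rintro ⟨x, y⟩
    simp only [InR, InA]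
    omega
  have hFout : ∀ v, ¬ InR (a - 1) (b - 1) (w + 2) (h + 2) v → F v = v := by
    intro v hv
    rw [hInR', not_or] at hv
    exact hF1 v hv.1 hv.2
  have hring : ∀ u, InA (a - 1) (b - 1) (a + w) (b + h) u → u ≠ (a + w, y0) →
      F⁻¹ u = raF (a - 1) (b - 1) (a + w) (b + h) u := by
    intro u hu hne
    rw [hF9 u hu (by rw [hgx']; exact hne), inv_inv, ra_apply]
  refine ⟨F, ⟨by omega, by omega, by omega, by omega, ?_, ?_, ?_, ?_, ?_, ?_, ?_⟩, hF4, hF6, ?_⟩
  · intro v hv
    rw [Equiv.Perm.inv_eq_iff_eq, hFout v hv]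
  · intro v hv
    have h3 := inv_support hFout hv
    have h4 := hF2 _ ((hInR' _).1 h3)
    simp only [pinv] at h4
    exact h4.symm
  · intro v hv hc
    rw [Equiv.Perm.inv_eq_iff_eq, Equiv.Perm.inv_eq_iff_eq] at hc
    exact hF3 v ((hInR' _).1 hv) hc.symm
  · intro x h3 h4 h5
    have h6 : InA (a - 1) (b - 1) (a + w) (b + h) (x, b - 1) := by
      simp only [InA]; (first | omega | (simp only [true_and, and_true, or_true, true_or]; done) | (simp only [true_and, and_true, or_true, true_or]; omega))
    refine ⟨?_, ?_⟩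
    · rw [hring _ h6 (by intro hc; rw [Prod.mk.injEq] at hc; omega)]
      unfold raF
      dsimp only
      split_ifs <;> first | (exfalso; omega) | (ext <;> dsimp only <;> omega)
    · rw [sameCycle_inv]
      exact hF5 _ h6
  · intro y h3 h4 h5
    have e : a - 1 + (w + 2) - 1 = a + w := by ring
    rw [e]
    have h6 : InA (a - 1) (b - 1) (a + w) (b + h) (a + w, y) := by
      simp only [InA]; (first | omega | (simp only [true_and, and_true, or_true, true_or]; done) | (simp only [true_and, and_true, or_true, true_or]; omega))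
    refine ⟨?_, ?_⟩
    · rw [hring _ h6 (by intro hc; rw [Prod.mk.injEq] at hc; omega)]
      unfold raF
      dsimp only
      split_ifs <;> first | (exfalso; omega) | (ext <;> dsimp only <;> omega)
    · rw [sameCycle_inv]
      exact hF5 _ h6
  · intro x h3 h4 h5
    have e : b - 1 + (h + 2) - 1 = b + h := by ring
    rw [e]
    have h6 : InA (a - 1) (b - 1) (a + w) (b + h) (x, b + h) := by
      simp only [InA]; (first | omega | (simp only [true_and, and_true, or_true, true_or]; done) | (simp only [true_and, and_true, or_true, true_or]; omega))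
    refine ⟨?_, ?_⟩
    · rw [hring _ h6 (by intro hc; rw [Prod.mk.injEq] at hc; omega)]
      unfold raF
      dsimp only
      split_ifs <;> first | (exfalso; omega) | (ext <;> dsimp only <;> omega)
    · rw [sameCycle_inv]
      exact hF5 _ h6
  · intro y h3 h4 h5
    have h6 : InA (a - 1) (b - 1) (a + w) (b + h) (a - 1, y) := by
      simp only [InA]; (first | omega | (simp only [true_and, and_true, or_true, true_or]; done) | (simp only [true_and, and_true, or_true, true_or]; omega))
    refine ⟨?_, ?_⟩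
    · rw [hring _ h6 (by intro hc; rw [Prod.mk.injEq] at hc; omega)]
      unfold raF
      dsimp only
      split_ifs <;> first | (exfalso; omega) | (ext <;> dsimp only <;> omega)
    · rw [sameCycle_inv]
      exact hF5 _ h6
  · rw [hx] at hF7
    exact hF7

/-- adding a ring of width one at the sides and two at the top and the bottom -/
theorem ringB_step {a b w h : ℤ} {f : Perm V} {z : V} (H : Full a b w h f z) :
    ∃ F : Perm V, Full (a - 1) (b - 2) (w + 2) (h + 4) F⁻¹ z ∧
      (∀ v, SameCycle f z v → SameCycle F z v) ∧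
      (∀ v, InR a b w h v → v ≠ (a + 1, b + h - 1) → F v = f v) ∧
      (∀ v, InR a b w h v → v ≠ (a, b + h - 1) → F⁻¹ v = f⁻¹ v) := by
  have hw := H.w2
  have hh := H.h2
  have hw0 := H.w0
  have hh0 := H.h0
  have hx : f (a + 1, b + h - 1) = (a, b + h - 1) := by
    have := (H.top (a + 1) (by omega) (by omega) (by omega)).1
    rw [this]
    ext <;> dsimp only <;> omega
  have hxz : SameCycle f z (a + 1, b + h - 1) :=
    (H.top (a + 1) (by omega) (by omega) (by omega)).2
  have hgx' : (rb a b hw hw0 hh0)⁻¹ (a, b + h) = (a + 1, b + h) := by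
    show rbB a b w h _ = _
    unfold rbB
    dsimp only
    split_ifs <;> first | (exfalso; omega) | (ext <;> dsimp only <;> omega)
  obtain ⟨F, hF1, hF2, hF3, hF4, hF5, hF6, hF7, hF8, hF9⟩ :=
    ring_merge (f := f) (g := (rb a b hw hw0 hh0)⁻¹) (R := InR a b w h)
      (A := InB a b w h) (x := (a + 1, b + h - 1)) (x' := (a, b + h))
      (inR_finite _ _ _ _)
      ((inR_finite (a - 1) (b - 2) (w + 2) (h + 4)).subset (by
        rintro ⟨x, y⟩ hv
        simp only [InB, Set.mem_setOf_eq] at hv
        simp only [InR, Set.mem_setOf_eq]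
        omega))
      (by
        rintro ⟨x, y⟩ hv
        simp only [InR, InB] at *
        omega)
      H.out
      (by
        intro v hv
        rw [Equiv.Perm.inv_eq_iff_eq]
        exact (rb_out hv).symm)
      H.adj
      (by
        intro v hv
        have h3 : InB a b w h ((rb a b hw hw0 hh0)⁻¹ v) :=
          inv_support (f := rb a b hw hw0 hh0) (R := InB a b w h) (fun v hv => rb_out hv) hv
        have h4 : Adj ((rb a b hw hw0 hh0)⁻¹ v) (rb a b hw hw0 hh0 ((rb a b hw hw0 hh0)⁻¹ v)) :=
          rb_adj h3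
        simp only [pinv] at h4
        exact h4.symm)
      H.no2
      (by
        intro v hv hc
        have h4 : (rb a b hw hw0 hh0)⁻¹ v = rb a b hw hw0 hh0 v := by
          rw [Equiv.Perm.inv_eq_iff_eq] at hc
          exact hc
        exact rb_ne hw hw0 hh0 hv h4.symm)
      (by simp only [InR]; (first | omega | (simp only [true_and, and_true, or_true, true_or]; done) | (simp only [true_and, and_true, or_true, true_or]; omega))) (by simp only [InB]; (first | omega | (simp only [true_and, and_true, or_true, true_or]; done) | (simp only [true_and, and_true, or_true, true_or]; omega)))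
      (by
        intro u hu
        rw [sameCycle_inv]
        refine (rb_cycle hw hw0 hh0 ?_).symm.trans (rb_cycle hw hw0 hh0 hu)
        simp only [InB]; (first | omega | (simp only [true_and, and_true, or_true, true_or]; done) | (simp only [true_and, and_true, or_true, true_or]; omega)))
      (by rw [hgx']; simp only [Adj]; (first | omega | (simp only [true_and, and_true, or_true, true_or]; done) | (simp only [true_and, and_true, or_true, true_or]; omega)))
      (by rw [hx]; simp only [Adj]; (first | omega | (simp only [true_and, and_true, or_true, true_or]; done) | (simp only [true_and, and_true, or_true, true_or]; omega)))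
  have hzF : SameCycle F z (a + 1, b + h - 1) := (hF4 _ hxz.symm).symm
  have hInR' : ∀ v : V, InR (a - 1) (b - 2) (w + 2) (h + 4) v ↔
      InR a b w h v ∨ InB a b w h v := by
    rintro ⟨x, y⟩
    simp only [InR, InB]
    omega
  have hFout : ∀ v, ¬ InR (a - 1) (b - 2) (w + 2) (h + 4) v → F v = v := by
    intro v hv
    rw [hInR', not_or] at hv
    exact hF1 v hv.1 hv.2
  have hring : ∀ u, InB a b w h u → u ≠ (a + 1, b + h) →
      F⁻¹ u = rbF a b w h u := by
    intro u hu hne
    rw [hF9 u hu (by rw [hgx']; exact hne), inv_inv]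
    rfl
  refine ⟨F, ⟨by omega, by omega, by omega, by omega, ?_, ?_, ?_, ?_, ?_, ?_, ?_⟩, ?_, hF6, ?_⟩
  · intro v hv
    rw [Equiv.Perm.inv_eq_iff_eq, hFout v hv]
  · intro v hv
    have h3 := inv_support hFout hv
    have h4 := hF2 _ ((hInR' _).1 h3)
    simp only [pinv] at h4
    exact h4.symm
  · intro v hv hc
    rw [Equiv.Perm.inv_eq_iff_eq, Equiv.Perm.inv_eq_iff_eq] at hc
    exact hF3 v ((hInR' _).1 hv) hc.symm
  · intro x h3 h4 h5
    have h6 : InB a b w h (x, b - 2) := by
      simp only [InB]; (first | omega | (simp only [true_and, and_true, or_true, true_or]; done) | (simp only [true_and, and_true, or_true, true_or]; omega))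
    refine ⟨?_, ?_⟩
    · rw [hring _ h6 (by intro hc; rw [Prod.mk.injEq] at hc; omega)]
      unfold rbF
      dsimp only
      split_ifs <;> first | (exfalso; omega) | (ext <;> dsimp only <;> omega)
    · rw [sameCycle_inv]
      exact hzF.trans (hF5 _ h6)
  · intro y h3 h4 h5
    have e : a - 1 + (w + 2) - 1 = a + w := by ring
    rw [e]
    have h6 : InB a b w h (a + w, y) := by
      simp only [InB]; (first | omega | (simp only [true_and, and_true, or_true, true_or]; done) | (simp only [true_and, and_true, or_true, true_or]; omega))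
    refine ⟨?_, ?_⟩
    · rw [hring _ h6 (by intro hc; rw [Prod.mk.injEq] at hc; omega)]
      unfold rbF
      dsimp only
      split_ifs <;> first | (exfalso; omega) | (ext <;> dsimp only <;> omega)
    · rw [sameCycle_inv]
      exact hzF.trans (hF5 _ h6)
  · intro x h3 h4 h5
    have e : b - 2 + (h + 4) - 1 = b + h + 1 := by ring
    rw [e]
    have h6 : InB a b w h (x, b + h + 1) := by
      simp only [InB]; (first | omega | (simp only [true_and, and_true, or_true, true_or]; done) | (simp only [true_and, and_true, or_true, true_or]; omega))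
    refine ⟨?_, ?_⟩
    · rw [hring _ h6 (by intro hc; rw [Prod.mk.injEq] at hc; omega)]
      unfold rbF
      dsimp only
      split_ifs <;> first | (exfalso; omega) | (ext <;> dsimp only <;> omega)
    · rw [sameCycle_inv]
      exact hzF.trans (hF5 _ h6)
  · intro y h3 h4 h5
    have h6 : InB a b w h (a - 1, y) := by
      simp only [InB]; (first | omega | (simp only [true_and, and_true, or_true, true_or]; done) | (simp only [true_and, and_true, or_true, true_or]; omega))
    refine ⟨?_, ?_⟩
    · rw [hring _ h6 (by intro hc; rw [Prod.mk.injEq] at hc; omega)]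
      unfold rbF
      dsimp only
      split_ifs <;> first | (exfalso; omega) | (ext <;> dsimp only <;> omega)
    · rw [sameCycle_inv]
      exact hzF.trans (hF5 _ h6)
  · intro v hv
    exact hzF.trans (hF4 _ (hxz.symm.trans hv))
  · rw [hx] at hF7
    exact hF7

/-- a ring operation -/
def RingOp (p q : ℤ) : Prop :=
  ∀ (a b w h : ℤ) (F : Perm V) (z : V), Full a b w h F z →
    ∃ (G : Perm V) (z' : V), Full (a - p) (b - q) (w + 2 * p) (h + 2 * q) G⁻¹ z' ∧
      (∀ v, SameCycle F z v → SameCycle G z' v) ∧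
      ∀ v, InR a b w h v → (∀ u, Adj v u → InR a b w h u) → G v = F v ∧ G⁻¹ v = F⁻¹ v

lemma ringOpA : RingOp 1 1 := by
  intro a b w h F z H
  have hw := H.w2
  have hh := H.h2
  have hw0 := H.w0
  have hh0 := H.h0
  obtain ⟨hx, hxz⟩ := H.right b le_rfl (by omega) (by omega)
  obtain ⟨G, h1, h2, h3, h4⟩ := ringA_step (y0 := b) hw hh hw0 hh0 H.out H.adj H.no2 le_rfl
    (by omega) (by omega) hx
  refine ⟨G, _, h1.congr rfl rfl (by ring) (by ring), ?_, ?_⟩
  · intro v hv
    exact h2 v (hxz.symm.trans hv)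
  · intro v hv hn
    refine ⟨h3 v hv ?_, h4 v hv ?_⟩
    · rintro rfl
      have := hn (a + w, b) (by simp only [Adj]; (first | omega | (simp only [true_and, and_true, or_true, true_or]; done) | (simp only [true_and, and_true, or_true, true_or]; omega)))
      simp only [InR] at this
      omega
    · rintro rfl
      have := hn (a + w, b + 1) (by simp only [Adj]; (first | omega | (simp only [true_and, and_true, or_true, true_or]; done) | (simp only [true_and, and_true, or_true, true_or]; omega)))
      simp only [InR] at this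
      omega

lemma ringOpB : RingOp 1 2 := by
  intro a b w h F z H
  have hw := H.w2
  have hh := H.h2
  have hw0 := H.w0
  have hh0 := H.h0
  obtain ⟨G, h1, h2, h3, h4⟩ := ringB_step H
  refine ⟨G, _, h1.congr rfl rfl (by ring) (by ring), h2, ?_⟩
  intro v hv hn
  refine ⟨h3 v hv ?_, h4 v hv ?_⟩
  · rintro rfl
    have := hn (a + 1, b + h) (by simp only [Adj]; (first | omega | (simp only [true_and, and_true, or_true, true_or]; done) | (simp only [true_and, and_true, or_true, true_or]; omega)))
    simp only [InR] at this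
    omega
  · rintro rfl
    have := hn (a, b + h) (by simp only [Adj]; (first | omega | (simp only [true_and, and_true, or_true, true_or]; done) | (simp only [true_and, and_true, or_true, true_or]; omega)))
    simp only [InR] at this
    omega

/-! ## Symmetries -/

/-- exchange of the coordinates -/
def sT : Perm V := ⟨fun v => (v.2, v.1), fun v => (v.2, v.1), fun _ => rfl, fun _ => rfl⟩

/-- reflection -/
def sK : Perm V := ⟨fun v => (-v.1, v.2), fun v => (-v.1, v.2), fun _ => by simp, fun _ => by simp⟩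

/-- translation -/
def sS (s t : ℤ) : Perm V :=
  ⟨fun v => (v.1 + s, v.2 + t), fun v => (v.1 - s, v.2 - t), fun _ => by simp, fun _ => by simp⟩

lemma full_T {a b w h : ℤ} {f : Perm V} {z : V} (H : Full a b w h f z) :
    Full b a h w (sT * f⁻¹ * sT⁻¹) (sT z) := by
  have hw := H.w2
  have hh := H.h2
  have hw0 := H.w0
  have hh0 := H.h0
  have happ : ∀ x y, (sT * f⁻¹ * sT⁻¹) (x, y) = sT (f⁻¹ (y, x)) := fun x y => rfl
  have hsc : ∀ x y, SameCycle f z (y, x) → SameCycle (sT * f⁻¹ * sT⁻¹) (sT z) (x, y) := by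
    intro x y h1
    rw [sameCycle_conj, sameCycle_inv, pinv']
    exact h1
  have hR : ∀ v : V, InR b a h w v ↔ InR a b w h (sT⁻¹ v) := by
    rintro ⟨x, y⟩
    show InR b a h w (x, y) ↔ InR a b w h (y, x)
    simp only [InR]
    omega
  have hadjT : ∀ u v : V, Adj (sT u) (sT v) ↔ Adj u v := by
    rintro ⟨x, y⟩ ⟨x', y'⟩
    show Adj (y, x) (y', x') ↔ _
    simp only [Adj]
    omega
  refine ⟨hh, hw, hh0, hw0, ?_, ?_, ?_, ?_, ?_, ?_, ?_⟩
  · intro v hv
    rw [hR] at hv
    rw [Perm.mul_apply, Perm.mul_apply, Equiv.Perm.inv_eq_iff_eq.2 (H.out _ hv).symm]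
    simp
  · intro v hv
    rw [hR] at hv
    have h1 := H.adj _ (inv_support H.out hv)
    simp only [pinv] at h1
    rw [Perm.mul_apply, Perm.mul_apply]
    have h2 : v = sT (sT⁻¹ v) := by simp
    nth_rewrite 1 [h2]
    rw [hadjT]
    exact h1.symm
  · intro v hv hc
    rw [hR] at hv
    rw [Perm.mul_apply, Perm.mul_apply, Perm.mul_apply, Perm.mul_apply, pinv',
      ← Equiv.Perm.eq_inv_iff_eq, Equiv.Perm.inv_eq_iff_eq, Equiv.Perm.inv_eq_iff_eq] at hc
    exact H.no2 _ hv hc.symm
  · intro x h1 h2 h3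
    obtain ⟨h4, h5⟩ := H.left (x + 1) (by omega) (by omega) (by omega)
    have e : x + 1 - 1 = x := by ring
    rw [e] at h4
    refine ⟨?_, hsc _ _ (sc_step h5 h4)⟩
    rw [happ, Equiv.Perm.inv_eq_iff_eq.2 h4.symm]
    rfl
  · intro y h1 h2 h3
    obtain ⟨h4, h5⟩ := H.top (y + 1) (by omega) (by omega) (by omega)
    have e : y + 1 - 1 = y := by ring
    rw [e] at h4
    refine ⟨?_, hsc _ _ (sc_step h5 h4)⟩
    rw [happ, Equiv.Perm.inv_eq_iff_eq.2 h4.symm]
    rfl
  · intro x h1 h2 h3
    obtain ⟨h4, h5⟩ := H.right (x - 1) (by omega) (by omega) (by omega)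
    have e : x - 1 + 1 = x := by ring
    rw [e] at h4
    refine ⟨?_, hsc _ _ (sc_step h5 h4)⟩
    rw [happ, Equiv.Perm.inv_eq_iff_eq.2 h4.symm]
    rfl
  · intro y h1 h2 h3
    obtain ⟨h4, h5⟩ := H.bot (y - 1) (by omega) (by omega) (by omega)
    have e : y - 1 + 1 = y := by ring
    rw [e] at h4
    refine ⟨?_, hsc _ _ (sc_step h5 h4)⟩
    rw [happ, Equiv.Perm.inv_eq_iff_eq.2 h4.symm]
    rfl

lemma full_K {a b w h : ℤ} {f : Perm V} {z : V} (H : Full a b w h f z) :
    Full (-a - w + 1) b w h (sK * f⁻¹ * sK⁻¹) (sK z) := by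
  have hw := H.w2
  have hh := H.h2
  have hw0 := H.w0
  have hh0 := H.h0
  have happ : ∀ x y, (sK * f⁻¹ * sK⁻¹) (x, y) = sK (f⁻¹ (-x, y)) := fun x y => rfl
  have hsc : ∀ x y, SameCycle f z (-x, y) → SameCycle (sK * f⁻¹ * sK⁻¹) (sK z) (x, y) := by
    intro x y h1
    rw [sameCycle_conj, sameCycle_inv, pinv']
    exact h1
  have hR : ∀ v : V, InR (-a - w + 1) b w h v ↔ InR a b w h (sK⁻¹ v) := by
    rintro ⟨x, y⟩
    show InR (-a - w + 1) b w h (x, y) ↔ InR a b w h (-x, y)
    simp only [InR]
    omega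
  have hadjT : ∀ u v : V, Adj (sK u) (sK v) ↔ Adj u v := by
    rintro ⟨x, y⟩ ⟨x', y'⟩
    show Adj (-x, y) (-x', y') ↔ _
    simp only [Adj]
    omega
  refine ⟨hw, hh, hw0, hh0, ?_, ?_, ?_, ?_, ?_, ?_, ?_⟩
  · intro v hv
    rw [hR] at hv
    rw [Perm.mul_apply, Perm.mul_apply, Equiv.Perm.inv_eq_iff_eq.2 (H.out _ hv).symm]
    simp
  · intro v hv
    rw [hR] at hv
    have h1 := H.adj _ (inv_support H.out hv)
    simp only [pinv] at h1
    rw [Perm.mul_apply, Perm.mul_apply]
    have h2 : v = sK (sK⁻¹ v) := by simp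
    nth_rewrite 1 [h2]
    rw [hadjT]
    exact h1.symm
  · intro v hv hc
    rw [hR] at hv
    rw [Perm.mul_apply, Perm.mul_apply, Perm.mul_apply, Perm.mul_apply, pinv',
      ← Equiv.Perm.eq_inv_iff_eq, Equiv.Perm.inv_eq_iff_eq, Equiv.Perm.inv_eq_iff_eq] at hc
    exact H.no2 _ hv hc.symm
  · intro x h1 h2 h3
    obtain ⟨h4, h5⟩ := H.bot (-x - 1) (by omega) (by omega) (by omega)
    have e : -x - 1 + 1 = -x := by ring
    rw [e] at h4
    refine ⟨?_, hsc _ _ (sc_step h5 h4)⟩
    rw [happ, Equiv.Perm.inv_eq_iff_eq.2 h4.symm]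
    show (-(-x - 1), b) = _
    ext <;> dsimp only <;> omega
  · intro y h1 h2 h3
    obtain ⟨h4, h5⟩ := H.left (y + 1) (by omega) (by omega) (by omega)
    have e : y + 1 - 1 = y := by ring
    have e2 : -a - w + 1 + w - 1 = -a := by ring
    rw [e] at h4
    rw [e2]
    refine ⟨?_, hsc _ _ (by rw [neg_neg]; exact sc_step h5 h4)⟩
    rw [happ, neg_neg, Equiv.Perm.inv_eq_iff_eq.2 h4.symm]
    rfl
  · intro x h1 h2 h3
    obtain ⟨h4, h5⟩ := H.top (-x + 1) (by omega) (by omega) (by omega)
    have e : -x + 1 - 1 = -x := by ring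
    rw [e] at h4
    refine ⟨?_, hsc _ _ (sc_step h5 h4)⟩
    rw [happ, Equiv.Perm.inv_eq_iff_eq.2 h4.symm]
    show (-(-x + 1), b + h - 1) = _
    ext <;> dsimp only <;> omega
  · intro y h1 h2 h3
    obtain ⟨h4, h5⟩ := H.right (y - 1) (by omega) (by omega) (by omega)
    have e : y - 1 + 1 = y := by ring
    have e2 : -(-a - w + 1) = a + w - 1 := by ring
    rw [e] at h4
    refine ⟨?_, hsc _ _ (by rw [e2]; exact sc_step h5 h4)⟩
    rw [happ, e2, Equiv.Perm.inv_eq_iff_eq.2 h4.symm]
    show (-(a + w - 1), y - 1) = _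
    ext <;> dsimp only <;> omega

lemma full_S {a b w h : ℤ} {f : Perm V} {z : V} (H : Full a b w h f z) (s t : ℤ) :
    Full (a + s) (b + t) w h (sS s t * f * (sS s t)⁻¹) (sS s t z) := by
  have hw := H.w2
  have hh := H.h2
  have hw0 := H.w0
  have hh0 := H.h0
  have happ : ∀ x y, (sS s t * f * (sS s t)⁻¹) (x, y) = sS s t (f (x - s, y - t)) :=
    fun x y => rfl
  have hsc : ∀ x y, SameCycle f z (x - s, y - t) →
      SameCycle (sS s t * f * (sS s t)⁻¹) (sS s t z) (x, y) := by
    intro x y h1
    rw [sameCycle_conj, pinv']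
    exact h1
  have hR : ∀ v : V, InR (a + s) (b + t) w h v ↔ InR a b w h ((sS s t)⁻¹ v) := by
    rintro ⟨x, y⟩
    show InR (a + s) (b + t) w h (x, y) ↔ InR a b w h (x - s, y - t)
    simp only [InR]
    omega
  have hadjT : ∀ u v : V, Adj (sS s t u) (sS s t v) ↔ Adj u v := by
    rintro ⟨x, y⟩ ⟨x', y'⟩
    show Adj (x + s, y + t) (x' + s, y' + t) ↔ _
    simp only [Adj]
    omega
  refine ⟨hw, hh, hw0, hh0, ?_, ?_, ?_, ?_, ?_, ?_, ?_⟩
  · intro v hv
    rw [hR] at hv
    rw [Perm.mul_apply, Perm.mul_apply, H.out _ hv]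
    simp
  · intro v hv
    rw [hR] at hv
    have h1 := H.adj _ hv
    rw [Perm.mul_apply, Perm.mul_apply]
    have h2 : v = sS s t ((sS s t)⁻¹ v) := by simp
    nth_rewrite 1 [h2]
    rw [hadjT]
    exact h1
  · intro v hv hc
    rw [hR] at hv
    rw [Perm.mul_apply, Perm.mul_apply, Perm.mul_apply, Perm.mul_apply, pinv',
      ← Equiv.Perm.eq_inv_iff_eq] at hc
    exact H.no2 _ hv hc
  · intro x h1 h2 h3
    obtain ⟨h4, h5⟩ := H.bot (x - s) (by omega) (by omega) (by omega)
    have e : b + t - t = b := by ring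
    refine ⟨?_, hsc _ _ (by rw [e]; exact h5)⟩
    rw [happ, e, h4]
    show (x - s + 1 + s, b + t) = _
    ext <;> dsimp only <;> omega
  · intro y h1 h2 h3
    obtain ⟨h4, h5⟩ := H.right (y - t) (by omega) (by omega) (by omega)
    have e : a + s + w - 1 - s = a + w - 1 := by ring
    refine ⟨?_, hsc _ _ (by rw [e]; exact h5)⟩
    rw [happ, e, h4]
    show (a + w - 1 + s, y - t + 1 + t) = _
    ext <;> dsimp only <;> omega
  · intro x h1 h2 h3
    obtain ⟨h4, h5⟩ := H.top (x - s) (by omega) (by omega) (by omega)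
    have e : b + t + h - 1 - t = b + h - 1 := by ring
    refine ⟨?_, hsc _ _ (by rw [e]; exact h5)⟩
    rw [happ, e, h4]
    show (x - s - 1 + s, b + h - 1 + t) = _
    ext <;> dsimp only <;> omega
  · intro y h1 h2 h3
    obtain ⟨h4, h5⟩ := H.left (y - t) (by omega) (by omega) (by omega)
    have e : a + s - s = a := by ring
    refine ⟨?_, hsc _ _ (by rw [e]; exact h5)⟩
    rw [happ, e, h4]
    show (a + s, y - t - 1 + t) = _
    ext <;> dsimp only <;> omega

/-- the third ring operation, by symmetry -/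
lemma ringOpC : RingOp 2 1 := by
  intro a b w h F z H
  obtain ⟨G, z', h1, h2, h3⟩ := ringOpB _ _ _ _ _ _ (full_T H)
  -- `G` is a ring around `sT * F⁻¹ * sT⁻¹`
  refine ⟨sT * G⁻¹ * sT⁻¹, sT z', ?_, ?_, ?_⟩
  · have h4 := full_T h1
    have e : (sT * G⁻¹ * sT⁻¹)⁻¹ = sT * (G⁻¹)⁻¹ * sT⁻¹ := by group
    rw [e]
    exact h4
  · intro v hv
    have h4 : SameCycle (sT * F⁻¹ * sT⁻¹) (sT z) (sT v) := by
      rw [sameCycle_conj, sameCycle_inv]
      simpa using hv
    have h5 := h2 _ h4
    rw [sameCycle_conj, sameCycle_inv]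
    have e1 : sT⁻¹ (sT z') = z' := by simp
    have e2 : sT⁻¹ v = sT v := rfl
    rw [e1, e2]
    exact h5
  · intro v hv hn
    have h4 : InR b a h w (sT v) := by
      obtain ⟨x, y⟩ := v
      show InR b a h w (y, x)
      simp only [InR] at *
      omega
    have h5 : ∀ u, Adj (sT v) u → InR b a h w u := by
      rintro ⟨x', y'⟩ hu
      have h6 : Adj v (y', x') := by
        obtain ⟨x, y⟩ := v
        have hu' : Adj (y, x) (x', y') := hu
        simp only [Adj] at *
        omega
      have h7 := hn _ h6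
      simp only [InR] at *
      omega
    obtain ⟨h6, h7⟩ := h3 _ h4 h5
    have e2 : sT⁻¹ v = sT v := rfl
    constructor
    · rw [Perm.mul_apply, Perm.mul_apply, e2, h7]
      have e : (sT * F⁻¹ * sT⁻¹)⁻¹ = sT * F * sT⁻¹ := by group
      rw [e]
      rfl
    · have e : (sT * G⁻¹ * sT⁻¹)⁻¹ = sT * G * sT⁻¹ := by group
      rw [e, Perm.mul_apply, Perm.mul_apply, e2, h6]
      rfl

end Pool.Agent.J4H99.SD
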