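import Pool.Agent.J4H99.SD.Toast

/-!
# Equivariance and measurability
-/

set_option autoImplicit false

open Equiv Equiv.Perm MeasureTheory Set

namespace Pool.Agent.J4H99.SD

/-! ## Equivariance -/

section equiv

variable {r : ℕ → ℤ} {Y Y' : V → TT} {σ : V ≃ V} (hσ : IsAff σ)
  (hlev : ∀ v, lev Y' (σ v) = lev Y v) (hch : ∀ v, chart Y' (σ v) = (chart Y v).trans σ)

include hσ hlev in
lemma nest_equiv (u v : V) : Nest r Y' (σ u) (σ v) ↔ Nest r Y u v := by
  unfold Nest
  rw [hlev, hlev, hσ.bx]

include hσ hlev in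
lemma child_equiv (u v : V) : Child r Y' (σ u) (σ v) ↔ Child r Y u v := by
  unfold Child
  rw [hlev, hlev, nest_equiv hσ hlev]
  have : (∃ w, lev Y u < lev Y' w ∧ lev Y' w < lev Y v ∧ Nest r Y' (σ u) w ∧ Nest r Y' w (σ v)) ↔
      ∃ w, lev Y u < lev Y w ∧ lev Y w < lev Y v ∧ Nest r Y u w ∧ Nest r Y w v := by
    constructor
    · rintro ⟨w, h⟩
      obtain ⟨w, rfl⟩ := σ.surjective w
      rw [hlev, nest_equiv hσ hlev, nest_equiv hσ hlev] at h
      exact ⟨w, h⟩
    · rintro ⟨w, h⟩
      refine ⟨σ w, ?_⟩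
      rw [hlev, nest_equiv hσ hlev, nest_equiv hσ hlev]
      exact h
  rw [this]

include hσ hlev hch in
lemma pc_equiv : ∀ (n : ℕ) (v : V), pc r Y' n (σ v) = pc r Y n v := by
  intro n
  induction n using Nat.strong_induction_on with
  | _ n ih =>
    intro v
    rw [pc_eq, pc_eq]
    congr 1
    ext q
    simp only [Set.mem_setOf_eq]
    constructor
    · rintro ⟨u, h1, h2, rfl⟩
      obtain ⟨u, rfl⟩ := σ.surjective u
      rw [hlev] at h1
      refine ⟨u, h1, (child_equiv hσ hlev u v).1 h2, ?_⟩
      rw [hlev, ih _ h1 u, hch, hch]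
      congr 1
      ext x : 1
      simp
    · rintro ⟨u, h1, h2, rfl⟩
      refine ⟨σ u, by rw [hlev]; exact h1, (child_equiv hσ hlev u v).2 h2, ?_⟩
      rw [hlev, ih _ h1 u, hch, hch]
      congr 1
      ext x : 1
      simp

include hσ hlev hch in
theorem dec_equiv (i : Fin 2) (x y : V) : Dec r Y' i (σ x) (σ y) ↔ Dec r Y i x y := by
  have hP1 : ∀ v, P1 r Y' (σ v) = P1 r Y v := by
    intro v
    unfold P1
    rw [hlev, pc_equiv hσ hlev hch]
  have hP2 : ∀ v, P2 r Y' (σ v) = P2 r Y v := by
    intro v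
    unfold P2
    rw [hlev, pc_equiv hσ hlev hch]
  have hE1 : ∀ v, E1 r Y' (σ v) (σ x) (σ y) ↔ E1 r Y v x y := by
    intro v
    unfold E1
    rw [hlev, hP1, hch]
    simp only [Equiv.trans_apply, EmbeddingLike.apply_eq_iff_eq]
  have hE2 : ∀ v, E2 r Y' (σ v) (σ x) (σ y) ↔ E2 r Y v x y := by
    intro v
    unfold E2
    rw [hlev, hP2, hch]
    simp only [Equiv.trans_apply, EmbeddingLike.apply_eq_iff_eq]
  unfold Dec
  constructor
  · rintro ⟨v, hv, h⟩
    obtain ⟨v, rfl⟩ := σ.surjective v
    rw [hlev] at hv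
    rw [hE1, hE2] at h
    exact ⟨v, hv, h⟩
  · rintro ⟨v, hv, h⟩
    refine ⟨σ v, by rw [hlev]; exact hv, ?_⟩
    rw [hE1, hE2]
    exact h

end equiv

/-! ## Locality -/

section loc

variable {r : ℕ → ℤ}

lemma pc_local : ∀ (n : ℕ) (Y Y' : V → TT) (v : V), lev Y v = n → 0 ≤ r n →
    (∀ k, 0 ≤ r k) → (∀ u, Bx v (r n) u → Y u = Y' u) → pc r Y n v = pc r Y' n v := by
  intro n
  induction n using Nat.strong_induction_on with
  | _ n ih =>
    intro Y Y' v hv hn hr hY
    have hvv : Y v = Y' v := hY v (by unfold Bx; omega)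
    have hl : ∀ u, Bx v (r n) u → lev Y u = lev Y' u := fun u hu => by
      unfold lev; rw [hY u hu]
    have hc : ∀ u, Bx v (r n) u → chart Y u = chart Y' u := fun u hu => by
      unfold chart; rw [hY u hu]
    have hv' : lev Y' v = n := by
      rw [← hv]; unfold lev; rw [hvv]
    have hcv : chart Y v = chart Y' v := by unfold chart; rw [hvv]
    have hin : ∀ (Z : V → TT) u, lev Z v = n → Nest r Z u v → Bx v (r n) u := by
      intro Z u hZ hu
      unfold Nest at hu
      rw [hZ] at hu
      exact hu.mono (by have := hr (lev Z u); omega)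
    have hin2 : ∀ (Z : V → TT) u, lev Z v = n → Nest r Z u v → ∀ w, Bx u (r (lev Z u)) w →
        Bx v (r n) w := by
      intro Z u hZ hu w hw
      unfold Nest at hu
      rw [hZ] at hu
      exact (hu.trans hw).mono (by omega)
    have hnest : ∀ u, Bx v (r n) u → (Nest r Y u v ↔ Nest r Y' u v) := by
      intro u hu
      unfold Nest
      rw [hv, hv', hl u hu]
    have hnest2 : ∀ u w, Bx v (r n) u → Bx v (r n) w → (Nest r Y u w ↔ Nest r Y' u w) := by
      intro u w hu hw
      unfold Nest
      rw [hl u hu, hl w hw]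
    have hchild : ∀ u, Bx v (r n) u → (Child r Y u v ↔ Child r Y' u v) := by
      intro u hu
      unfold Child
      rw [hv, hv', hl u hu, hnest u hu]
      have : (∃ w, lev Y' u < lev Y w ∧ lev Y w < n ∧ Nest r Y u w ∧ Nest r Y w v) ↔
          ∃ w, lev Y' u < lev Y' w ∧ lev Y' w < n ∧ Nest r Y' u w ∧ Nest r Y' w v := by
        constructor
        · rintro ⟨w, h1, h2, h3, h4⟩
          have hw := hin Y w hv h4
          refine ⟨w, ?_⟩
          rw [← hl w hw, ← hnest2 u w hu hw, ← hnest w hw]
          exact ⟨h1, h2, h3, h4⟩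
        · rintro ⟨w, h1, h2, h3, h4⟩
          have hw := hin Y' w hv' h4
          refine ⟨w, ?_⟩
          rw [hl w hw, hnest2 u w hu hw, hnest w hw]
          exact ⟨h1, h2, h3, h4⟩
      rw [this]
    rw [pc_eq, pc_eq]
    congr 1
    ext q
    simp only [Set.mem_setOf_eq]
    constructor
    · rintro ⟨u, h1, h2, rfl⟩
      have hu := hin Y u hv h2.2.2.1
      have h3 := ih (lev Y u) h1 Y Y' u rfl (hr _) hr
        (fun w hw => hY w (hin2 Y u hv h2.2.2.1 w hw))
      refine ⟨u, by rw [← hl u hu]; exact h1, (hchild u hu).1 h2, ?_⟩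
      rw [h3, hc u hu, hcv, hl u hu]
    · rintro ⟨u, h1, h2, rfl⟩
      have hu := hin Y' u hv' h2.2.2.1
      have h3 := ih (lev Y' u) h1 Y Y' u (hl u hu) (hr _) hr
        (fun w hw => hY w (hin2 Y' u hv' h2.2.2.1 w hw))
      refine ⟨u, by rw [hl u hu]; exact h1, (hchild u hu).2 h2, ?_⟩
      rw [← h3, hc u hu, hcv, hl u hu]

lemma local_measurable {T : Type*} [Countable T] [MeasurableSpace T] [MeasurableSingletonClass T]
    {A : Set (V → T)} (B : Set V) (hB : B.Finite)
    (hA : ∀ Y Y' : V → T, (∀ u ∈ B, Y u = Y' u) → Y ∈ A → Y' ∈ A) : MeasurableSet A := by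
  have : Finite B := hB
  let ρ : (V → T) → (B → T) := fun Y u => Y u
  have hρ : Measurable ρ := measurable_pi_lambda _ fun u => measurable_pi_apply _
  have e : A = ρ ⁻¹' (ρ '' A) := by
    ext Y
    constructor
    · exact fun h => ⟨Y, h, rfl⟩
    · rintro ⟨Y', h1, h2⟩
      refine hA Y' Y ?_ h1
      intro u hu
      exact congrFun h2 ⟨u, hu⟩
  rw [e]
  exact hρ (Set.to_countable _).measurableSet

lemma bx_finite (v : V) (k : ℤ) : {u | Bx v k u}.Finite := by
  refine ((Set.finite_Icc (v.1 - k) (v.1 + k)).prod (Set.finite_Icc (v.2 - k) (v.2 + k))).subset ?_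
  rintro ⟨x, y⟩ hv
  simp only [Bx, Set.mem_setOf_eq] at hv
  simp only [Set.mem_prod, Set.mem_Icc]
  omega

theorem dec_measurable (hr : ∀ k, 0 ≤ r k) (i : Fin 2) (x y : V) :
    MeasurableSet {Y : V → TT | Dec r Y i x y} := by
  have e : {Y : V → TT | Dec r Y i x y} = ⋃ v : V, ⋃ n : ℕ,
      {Y | lev Y v = n ∧ 1 ≤ n ∧ (if i = 0 then E1 r Y v x y else E2 r Y v x y)} := by
    ext Y
    simp only [Dec, Set.mem_setOf_eq, Set.mem_iUnion]
    constructor
    · rintro ⟨v, h1, h2⟩
      exact ⟨v, _, rfl, h1, h2⟩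
    · rintro ⟨v, n, h1, h2, h3⟩
      exact ⟨v, by rw [h1]; exact h2, h3⟩
  rw [e]
  refine MeasurableSet.iUnion fun v => MeasurableSet.iUnion fun n => ?_
  refine local_measurable {u | Bx v (r n) u} (bx_finite v (r n)) ?_
  rintro Y Y' hY ⟨h1, h2, h3⟩
  have hvv : Y v = Y' v := hY v (by have := hr n; show Bx v (r n) v; unfold Bx; omega)
  have h1' : lev Y' v = n := by rw [← h1]; unfold lev; rw [hvv]
  refine ⟨h1', h2, ?_⟩
  have hpc := pc_local n Y Y' v h1 (hr n) hr hY
  have hP1 : P1 r Y v = P1 r Y' v := by unfold P1; rw [h1, h1', hpc]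
  have hP2 : P2 r Y v = P2 r Y' v := by unfold P2; rw [h1, h1', hpc]
  have hcv : chart Y v = chart Y' v := by unfold chart; rw [hvv]
  unfold E1 E2 at h3 ⊢
  rw [h1', ← hP1, ← hP2, ← hcv]
  rw [h1] at h3
  exact h3

end loc

/-! ## The local data attached to the labels -/

section labels

variable (r : ℕ → ℤ) (mark : unitInterval → ℕ)

abbrev Om := V → unitInterval

/-- the mark at `v` survives -/
def Surv (ω : Om) (v : V) : Prop :=
  1 ≤ mark (ω v) ∧ ∀ w, w ≠ v → mark (ω v) ≤ mark (ω w) →
    Bx w (r (mark (ω w)) - r (mark (ω v)) - 12) v ∨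
      ¬ Bx w (r (mark (ω w)) + r (mark (ω v)) + 12) v

open Classical in
noncomputable def levF (ω : Om) (v : V) : ℕ := if Surv r mark ω v then mark (ω v) else 0

/-- `g` gives the strictly largest label -/
def Best (ω : Om) (v : V) (g : Bool × Bool × Bool) : Prop :=
  ∀ g', g' ≠ g → ω (v + lin g' (1, 2)) < ω (v + lin g (1, 2))

lemma best_unique {ω : Om} {v : V} {g g' : Bool × Bool × Bool} (h : Best ω v g)
    (h' : Best ω v g') : g = g' := by
  by_contra hne
  exact lt_asymm (h g' (Ne.symm hne)) (h' g hne)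

open Classical in
noncomputable def frF (ω : Om) (v : V) : Bool × Bool × Bool :=
  if h : ∃ g, Best ω v g then h.choose else (false, false, false)

lemma frF_eq {ω : Om} {v : V} {g : Bool × Bool × Bool} (h : Best ω v g) : frF ω v = g := by
  have hex : ∃ g, Best ω v g := ⟨g, h⟩
  unfold frF
  rw [dif_pos hex]
  exact best_unique hex.choose_spec h

/-- all labels are different -/
def Dist (ω : Om) : Prop := ∀ u w, u ≠ w → ω u ≠ ω w

lemma exists_best {ω : Om} (h : Dist ω) (v : V) : ∃ g, Best ω v g := by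
  obtain ⟨g, hg⟩ := Finite.exists_max (fun g : Bool × Bool × Bool => ω (v + lin g (1, 2)))
  refine ⟨g, fun g' hg' => lt_of_le_of_ne (hg g') (h _ _ ?_)⟩
  intro hc
  exact hg' (lin_inj (add_left_cancel hc))

/-- the local data -/
noncomputable def YF (ω : Om) (v : V) : TT := (levF r mark ω v, frF ω v)

lemma toast_YF (ω : Om) : Toast r (YF r mark ω) := by
  classical
  intro u v huv h1 h2
  have hu : Surv r mark ω u := by
    by_contra hc
    have : lev (YF r mark ω) u = 0 := by
      show levF r mark ω u = 0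
      unfold levF; rw [if_neg hc]
    omega
  have hv : Surv r mark ω v := by
    by_contra hc
    have : lev (YF r mark ω) v = 0 := by
      show levF r mark ω v = 0
      unfold levF; rw [if_neg hc]
    omega
  have eu : lev (YF r mark ω) u = mark (ω u) := by
    show levF r mark ω u = _
    unfold levF; rw [if_pos hu]
  have ev : lev (YF r mark ω) v = mark (ω v) := by
    show levF r mark ω v = _
    unfold levF; rw [if_pos hv]
  unfold Nest FarP
  rw [eu, ev] at h2
  rw [eu, ev]
  exact hu.2 v huv.symm h2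

/-- the factor map -/
def FF (ω : Om) (i : Fin 2) (x y : V) : Prop := Dist ω ∧ Dec r (YF r mark ω) i x y

lemma mulg_surj : ∀ g h : Bool × Bool × Bool, ∃ k, h = mulg g k := by decide

theorem FF_equiv {φ : V → V} (hφ : Function.Bijective φ)
    (hadj : ∀ x y, Adj (φ x) (φ y) ↔ Adj x y) (ω ω' : Om) (hω : ∀ v, ω' (φ v) = ω v) (i : Fin 2)
    (x y : V) : FF r mark ω' i (φ x) (φ y) ↔ FF r mark ω i x y := by
  classical
  obtain ⟨a, g, hag⟩ := aut_classify hφ hadj
  have hσ : IsAff (aff a g) := ⟨a, g, rfl⟩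
  have hω' : ∀ v, ω' (aff a g v) = ω v := fun v => by rw [← hag, hω]
  have hD : Dist ω' ↔ Dist ω := by
    constructor
    · intro h u w huw
      rw [← hω' u, ← hω' w]
      exact h _ _ (fun hc => huw ((aff a g).injective hc))
    · intro h u w huw
      obtain ⟨u, rfl⟩ := (aff a g).surjective u
      obtain ⟨w, rfl⟩ := (aff a g).surjective w
      rw [hω' u, hω' w]
      exact h _ _ (fun hc => huw (by rw [hc]))
  unfold FF
  rw [hD]
  refine and_congr_right fun hdist => ?_
  rw [hag x, hag y]
  refine dec_equiv hσ ?_ ?_ i x y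
  · intro v
    show levF r mark ω' _ = levF r mark ω v
    have hs : Surv r mark ω' (aff a g v) ↔ Surv r mark ω v := by
      unfold Surv
      rw [hω']
      refine and_congr_right fun _ => ?_
      constructor
      · intro h w hw hm
        have h1 := h (aff a g w) (fun hc => hw ((aff a g).injective hc)) (by rw [hω']; exact hm)
        rw [hω', hσ.bx, hσ.bx] at h1
        exact h1
      · intro h w hw hm
        obtain ⟨w, rfl⟩ := (aff a g).surjective w
        rw [hω'] at hm ⊢
        rw [hσ.bx, hσ.bx]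
        exact h w (fun hc => hw (by rw [hc])) hm
    unfold levF
    by_cases h : Surv r mark ω v
    · rw [if_pos h, if_pos (hs.2 h), hω']
    · rw [if_neg h, if_neg (fun hc => h (hs.1 hc))]
  · intro v
    obtain ⟨k, hk⟩ := exists_best hdist v
    have hk' : Best ω' (aff a g v) (mulg g k) := by
      intro h' hne
      obtain ⟨k', rfl⟩ := mulg_surj g h'
      have hkk : k' ≠ k := by rintro rfl; exact hne rfl
      have e : ∀ k, aff a g v + lin (mulg g k) (1, 2) = aff a g (v + lin k (1, 2)) := by
        intro k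
        rw [aff_apply, aff_apply, lin_mulg, lin_add, add_assoc]
      rw [e, e, hω', hω']
      exact hk k' hkk
    have e1 : (YF r mark ω' (aff a g v)).2 = mulg g k := frF_eq hk'
    have e2 : (YF r mark ω v).2 = k := frF_eq hk
    unfold chart
    rw [e1, e2]
    ext x : 1
    rw [Equiv.trans_apply, aff_mul]

variable {mark} (hmark : Measurable mark)
include hmark

lemma levF_measurable (v : V) : Measurable (fun ω : Om => levF r mark ω v) := by
  classical
  have hm : ∀ w : V, Measurable (fun ω : Om => mark (ω w)) := fun w =>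
    hmark.comp (measurable_pi_apply w)
  have hS : MeasurableSet {ω : Om | Surv r mark ω v} := by
    have e : {ω : Om | Surv r mark ω v} = {ω | 1 ≤ mark (ω v)} ∩ ⋂ w : V,
        (fun ω : Om => (mark (ω v), mark (ω w))) ⁻¹' {p : ℕ × ℕ | w ≠ v → p.1 ≤ p.2 →
          Bx w (r p.2 - r p.1 - 12) v ∨ ¬ Bx w (r p.2 + r p.1 + 12) v} := by
      ext ω
      simp only [Surv, Set.mem_setOf_eq, Set.mem_inter_iff, Set.mem_iInter, Set.mem_preimage]
    rw [e]
    refine MeasurableSet.inter ?_ (MeasurableSet.iInter fun w => ?_)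
    · exact (hm v) (MeasurableSet.of_discrete (s := {k : ℕ | 1 ≤ k}))
    · exact ((hm v).prodMk (hm w)) (Set.to_countable _).measurableSet
  exact Measurable.ite hS (hm v) measurable_const

omit hmark in
lemma best_measurable (v : V) (g : Bool × Bool × Bool) : MeasurableSet {ω : Om | Best ω v g} := by
  have e : {ω : Om | Best ω v g} = ⋂ g' : Bool × Bool × Bool, ⋂ (_ : g' ≠ g),
      {ω : Om | ω (v + lin g' (1, 2)) < ω (v + lin g (1, 2))} := by
    ext ω
    simp only [Best, Set.mem_setOf_eq, Set.mem_iInter]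
  rw [e]
  refine MeasurableSet.iInter fun g' => MeasurableSet.iInter fun _ => ?_
  exact measurableSet_lt (measurable_pi_apply _) (measurable_pi_apply _)

omit hmark in
lemma frF_measurable (v : V) : Measurable (fun ω : Om => frF ω v) := by
  classical
  refine measurable_to_countable' fun g => ?_
  have e : (fun ω : Om => frF ω v) ⁻¹' {g} = {ω : Om | Best ω v g} ∪
      (if g = (false, false, false) then (⋃ g', {ω : Om | Best ω v g'})ᶜ else ∅) := by
    ext ω
    simp only [Set.mem_preimage, Set.mem_singleton_iff, Set.mem_union, Set.mem_setOf_eq]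
    by_cases hex : ∃ g', Best ω v g'
    · obtain ⟨g', hg'⟩ := hex
      rw [frF_eq hg']
      constructor
      · rintro rfl; exact Or.inl hg'
      · rintro (h | h)
        · exact best_unique hg' h
        · split_ifs at h
          · simp only [Set.mem_compl_iff, Set.mem_iUnion, Set.mem_setOf_eq, not_exists] at h
            exact absurd hg' (h g')
          · exact absurd h (Set.notMem_empty _)
    · have h1 : frF ω v = (false, false, false) := by unfold frF; rw [dif_neg hex]
      rw [h1]
      constructor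
      · rintro rfl
        right
        rw [if_pos rfl]
        simp only [Set.mem_compl_iff, Set.mem_iUnion, Set.mem_setOf_eq]
        exact hex
      · rintro (h | h)
        · exact absurd ⟨g, h⟩ hex
        · split_ifs at h with hg
          · exact hg.symm
          · exact absurd h (Set.notMem_empty _)
  rw [e]
  refine (best_measurable v g).union ?_
  split_ifs
  · exact (MeasurableSet.iUnion fun g' => best_measurable v g').compl
  · exact MeasurableSet.empty

lemma YF_measurable : Measurable (YF r mark) := by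
  refine measurable_pi_lambda _ fun v => ?_
  exact (levF_measurable r hmark v).prodMk (frF_measurable v)

omit hmark in
lemma dist_measurable : MeasurableSet {ω : Om | Dist ω} := by
  have e : {ω : Om | Dist ω} = ⋂ u : V, ⋂ w : V, ⋂ (_ : u ≠ w), {ω : Om | ω u ≠ ω w} := by
    ext ω
    simp only [Dist, Set.mem_setOf_eq, Set.mem_iInter]
  rw [e]
  refine MeasurableSet.iInter fun u => MeasurableSet.iInter fun w => MeasurableSet.iInter fun _ => ?_
  exact (measurableSet_eq_fun (measurable_pi_apply u) (measurable_pi_apply w)).compl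

theorem FF_measurable (hr : ∀ k, 0 ≤ r k) : Measurable (FF r mark) := by
  refine measurable_pi_lambda _ fun i => measurable_pi_lambda _ fun x =>
    measurable_pi_lambda _ fun y => ?_
  rw [← measurableSet_setOf]
  have e : {ω | FF r mark ω i x y} = {ω : Om | Dist ω} ∩ (YF r mark) ⁻¹' {Y | Dec r Y i x y} := by
    ext ω
    rfl
  rw [e]
  exact dist_measurable.inter ((YF_measurable r hmark) (dec_measurable hr i x y))

end labels

end Pool.Agent.J4H99.SD
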