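import Pool.Agent.J4H99.SD.Full

/-!
# Standard pieces and their normalisation
-/

set_option autoImplicit false

open Equiv Equiv.Perm

namespace Pool.Agent.J4H99.SD

/-- the square `[-m, m) × [-m, m)` -/
def Sq (m : ℤ) (v : V) : Prop := -m ≤ v.1 ∧ v.1 < m ∧ -m ≤ v.2 ∧ v.2 < m

/-- its interior -/
def Inn (m : ℤ) (v : V) : Prop := -m + 1 ≤ v.1 ∧ v.1 < m - 1 ∧ -m + 1 ≤ v.2 ∧ v.2 < m - 1

/-- the port -/
def port (m : ℤ) : V := (m - 1, 0)

/-- standard piece: `f` describes the first colour in the square, `ρ` the second one in its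
interior -/
structure Std (m : ℤ) (f ρ : Perm V) : Prop where
  even : m % 2 = 0
  big : 4 ≤ m
  out : ∀ v, ¬ Sq m v → f v = v
  adj : ∀ v, Sq m v → Adj v (f v)
  no2 : ∀ v, Sq m v → f (f v) ≠ v
  prt : f (m - 1, 0) = (m - 1, 1)
  frame : ∀ v w, Inn m v → ¬ Inn m w → Adj v w → f v = w ∨ f w = v
  ρout : ∀ v, ¬ Inn m v → ρ v = v
  ρin : ∀ v, Inn m v → Adj v (ρ v) ∧ f v ≠ ρ v ∧ f (ρ v) ≠ v ∧ ρ (ρ v) ≠ v

/-- with a chirality -/
def FullC (c : Bool) (a b w h : ℤ) (f : Perm V) (z : V) : Prop :=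
  Full a b w h (if c then f else f⁻¹) z

/-! ## Symmetry of full squares -/

def Sym (σ : Perm V) : Prop :=
  ∀ (c : Bool) (a b w : ℤ) (F : Perm V) (z : V), FullC c a b w w F z →
    ∃ c' a' b', FullC c' a' b' w w (σ * F * σ⁻¹) (σ z) ∧
      ∀ v, InR a' b' w w (σ v) ↔ InR a b w w v

lemma Sym.mul {σ τ : Perm V} (hσ : Sym σ) (hτ : Sym τ) : Sym (σ * τ) := by
  intro c a b w F z H
  obtain ⟨c', a', b', H', h'⟩ := hτ c a b w F z H
  obtain ⟨c'', a'', b'', H'', h''⟩ := hσ c' a' b' w _ _ H'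
  refine ⟨c'', a'', b'', ?_, ?_⟩
  · have e : σ * τ * F * (σ * τ)⁻¹ = σ * (τ * F * τ⁻¹) * σ⁻¹ := by group
    rw [e]
    exact H''
  · intro v
    rw [Perm.mul_apply, h'', h']

lemma sym_one : Sym 1 := by
  intro c a b w F z H
  exact ⟨c, a, b, by simpa using H, fun v => Iff.rfl⟩

lemma sym_T : Sym sT := by
  intro c a b w F z H
  refine ⟨!c, b, a, ?_, ?_⟩
  · have h1 := full_T H
    cases c
    · have e : sT * (if false = true then F else F⁻¹)⁻¹ * sT⁻¹ =
          (if (!false) = true then sT * F * sT⁻¹ else (sT * F * sT⁻¹)⁻¹) := by simp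
      unfold FullC
      rw [← e]
      exact h1
    · have e : sT * (if true = true then F else F⁻¹)⁻¹ * sT⁻¹ =
          (if (!true) = true then sT * F * sT⁻¹ else (sT * F * sT⁻¹)⁻¹) := by
        simp only [if_true, Bool.not_true, Bool.false_eq_true, if_false]
        group
      unfold FullC
      rw [← e]
      exact h1
  · rintro ⟨x, y⟩
    show InR b a w w (y, x) ↔ _
    simp only [InR]
    omega

lemma sym_K : Sym sK := by
  intro c a b w F z H
  refine ⟨!c, -a - w + 1, b, ?_, ?_⟩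
  · have h1 := full_K H
    cases c
    · have e : sK * (if false = true then F else F⁻¹)⁻¹ * sK⁻¹ =
          (if (!false) = true then sK * F * sK⁻¹ else (sK * F * sK⁻¹)⁻¹) := by simp
      unfold FullC
      rw [← e]
      exact h1
    · have e : sK * (if true = true then F else F⁻¹)⁻¹ * sK⁻¹ =
          (if (!true) = true then sK * F * sK⁻¹ else (sK * F * sK⁻¹)⁻¹) := by
        simp only [if_true, Bool.not_true, Bool.false_eq_true, if_false]
        group
      unfold FullC
      rw [← e]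
      exact h1
  · rintro ⟨x, y⟩
    show InR (-a - w + 1) b w w (-x, y) ↔ _
    simp only [InR]
    omega

lemma sym_S (s t : ℤ) : Sym (sS s t) := by
  intro c a b w F z H
  refine ⟨c, a + s, b + t, ?_, ?_⟩
  · have h1 := full_S H s t
    cases c
    · have e : sS s t * (if false = true then F else F⁻¹) * (sS s t)⁻¹ =
          (if false = true then sS s t * F * (sS s t)⁻¹ else (sS s t * F * (sS s t)⁻¹)⁻¹) := by
        simp only [Bool.false_eq_true, if_false]
        group
      unfold FullC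
      rw [← e]
      exact h1
    · have e : sS s t * (if true = true then F else F⁻¹) * (sS s t)⁻¹ =
          (if true = true then sS s t * F * (sS s t)⁻¹ else (sS s t * F * (sS s t)⁻¹)⁻¹) := by
        simp
      unfold FullC
      rw [← e]
      exact h1
  · rintro ⟨x, y⟩
    show InR (a + s) (b + t) w w (x + s, y + t) ↔ _
    simp only [InR]
    omega

lemma sym_aff {σ : Perm V} (h : IsAff σ) : Sym σ := by
  obtain ⟨⟨s, t⟩, ⟨g1, g2, g3⟩, rfl⟩ := h
  have h1 : Sym (if g1 then sT else 1) := by cases g1; exacts [sym_one, sym_T]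
  have h2 : Sym (if g2 then sK else 1) := by cases g2; exacts [sym_one, sym_K]
  have h3 : Sym (if g3 then sT * sK * sT else 1) := by
    cases g3
    exacts [sym_one, (sym_T.mul sym_K).mul sym_T]
  have h4 := (((sym_S s t).mul h3).mul h2).mul h1
  have e : aff (s, t) (g1, g2, g3) = sS s t * (if g3 then sT * sK * sT else 1) *
      (if g2 then sK else 1) * (if g1 then sT else 1) := by
    ext ⟨x, y⟩ : 1
    cases g1 <;> cases g2 <;> cases g3 <;>
      simp only [aff_apply, lin, if_true, if_false, Bool.false_eq_true, Prod.mk_add_mk,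
        Perm.mul_apply, Perm.one_apply] <;>
      (ext <;> simp [sS, sT, sK, add_comm])
  rw [e]
  exact h4

/-! ## The chain of rings -/

structure St (σ : Perm V) (m : ℤ) (f : Perm V) (kx ky : ℤ) (c : Bool) (a b w h : ℤ) (F : Perm V)
    (z : V) : Prop where
  full : FullC c a b w h F z
  inn : ∀ v, Sq m v → InR a b w h (σ v)
  ni : ∀ v, Sq m v → ∀ u, Adj (σ v) u → InR a b w h u
  bx : (σ (0, 0)).1 - m - kx ≤ a ∧ a + w ≤ (σ (0, 0)).1 + m + kx + 1 ∧
    (σ (0, 0)).2 - m - ky ≤ b ∧ b + h ≤ (σ (0, 0)).2 + m + ky + 1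
  ag : ∀ v, Sq m v → v ≠ port m → F (σ v) = σ (f v)
  ag' : ∀ v, Sq m v → v ≠ f (port m) → F⁻¹ (σ v) = σ (f⁻¹ v)
  cyc : ∀ v, SameCycle f (port m) v → SameCycle F z (σ v)

lemma St.step {σ : Perm V} {m : ℤ} {f : Perm V} {kx ky : ℤ} {c : Bool} {a b w h : ℤ} {F : Perm V}
    {z : V} (H : St σ m f kx ky c a b w h F z) {p q : ℤ} (hp : 1 ≤ p) (hq : 1 ≤ q)
    (hop : RingOp p q) :
    ∃ F' z', St σ m f (kx + p) (ky + q) (!c) (a - p) (b - q) (w + 2 * p) (h + 2 * q) F' z' := by
  obtain ⟨G, z', h1, h2, h3⟩ := hop _ _ _ _ _ _ H.full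
  have hinR : ∀ u, InR a b w h u → InR (a - p) (b - q) (w + 2 * p) (h + 2 * q) u := by
    rintro ⟨x, y⟩ hu
    simp only [InR] at *
    omega
  have hbx := H.bx
  cases c
  · refine ⟨G⁻¹, z', ?_, fun v hv => hinR _ (H.inn v hv), fun v hv u hu => hinR _ (H.ni v hv u hu),
      by omega, ?_, ?_, ?_⟩
    · simpa [FullC] using h1
    · intro v hv hne
      have h4 := (h3 _ (H.inn v hv) (H.ni v hv)).2
      simp only [Bool.false_eq_true, if_false, inv_inv] at h4
      rw [h4]
      exact H.ag v hv hne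
    · intro v hv hne
      have h4 := (h3 _ (H.inn v hv) (H.ni v hv)).1
      simp only [Bool.false_eq_true, if_false] at h4
      rw [inv_inv, h4]
      exact H.ag' v hv hne
    · intro v hv
      rw [sameCycle_inv]
      refine h2 _ ?_
      simp only [Bool.false_eq_true, if_false]
      rw [sameCycle_inv]
      exact H.cyc v hv
  · refine ⟨G, z', ?_, fun v hv => hinR _ (H.inn v hv), fun v hv u hu => hinR _ (H.ni v hv u hu),
      by omega, ?_, ?_, ?_⟩
    · simpa [FullC] using h1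
    · intro v hv hne
      have h4 := (h3 _ (H.inn v hv) (H.ni v hv)).1
      simp only [if_true] at h4
      rw [h4]
      exact H.ag v hv hne
    · intro v hv hne
      have h4 := (h3 _ (H.inn v hv) (H.ni v hv)).2
      simp only [if_true] at h4
      rw [h4]
      exact H.ag' v hv hne
    · intro v hv
      refine h2 _ ?_
      simp only [if_true]
      exact H.cyc v hv

/-- the first ring -/
lemma St.init {σ : Perm V} (hσ : IsAff σ) {m : ℤ} {f ρ : Perm V} (hS : Std m f ρ) :
    ∃ c a b w h F z, St σ m f 1 1 c a b w h F z := by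
  have hm := hS.even
  have hm4 := hS.big
  have hSq : ∀ v : V, Sq m v ↔ InR (-m) (-m) (2 * m) (2 * m) v := by
    rintro ⟨x, y⟩
    simp only [Sq, InR]
    omega
  have e1 : (-m + 2 * m - 1, (0 : ℤ)) = port m := by
    unfold port; ext <;> dsimp only <;> omega
  have e2 : (-m + 2 * m - 1, (0 : ℤ) + 1) = f (port m) := by
    unfold port; rw [hS.prt]; ext <;> dsimp only <;> omega
  obtain ⟨F, h1, h2, h3, h4⟩ := ringA_step (a := -m) (b := -m) (w := 2 * m) (h := 2 * m) (y0 := 0)
    (f := f) (by omega) (by omega) (by omega) (by omega)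
    (fun v hv => hS.out v (by rw [hSq]; exact hv)) (fun v hv => hS.adj v ((hSq v).2 hv))
    (fun v hv => hS.no2 v ((hSq v).2 hv)) (by omega) (by omega) (by omega) (by rw [e1, ← e2])
  rw [e1] at h1 h2 h3
  rw [e2] at h4
  obtain ⟨c', a', b', H', h'⟩ := sym_aff hσ false (-m - 1) (-m - 1) (2 * m + 2) F (port m)
    (by simpa [FullC] using h1)
  have hbx : ∀ v, InR (-m - 1) (-m - 1) (2 * m + 2) (2 * m + 2) v → Bx (0, 0) (m + 1) v := by
    rintro ⟨x, y⟩ hv
    simp only [InR, Bx] at *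
    omega
  have hbx' : ∀ u, InR a' b' (2 * m + 2) (2 * m + 2) u → Bx (σ (0, 0)) (m + 1) u := by
    intro u hu
    have h5 : u = σ (σ⁻¹ u) := (pinv σ u).symm
    rw [h5] at hu ⊢
    rw [h'] at hu
    exact (hσ.bx _ _ _).2 (hbx _ hu)
  refine ⟨c', a', b', 2 * m + 2, 2 * m + 2, σ * F * σ⁻¹, σ (port m), H', ?_, ?_, ?_, ?_, ?_, ?_⟩
  · intro v hv
    rw [h']
    obtain ⟨x, y⟩ := v
    simp only [Sq, InR] at *
    omega
  · intro v hv u hu
    have h5 : u = σ (σ⁻¹ u) := (pinv σ u).symm
    rw [h5] at hu ⊢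
    rw [hσ.adj] at hu
    rw [h']
    generalize σ⁻¹ u = u' at hu ⊢
    obtain ⟨x, y⟩ := v
    obtain ⟨x', y'⟩ := u'
    simp only [Sq, InR, Adj] at *
    omega
  · have h5 := hbx' (a', b') (by simp only [InR]; (first | omega | (simp only [true_and, and_true, or_true, true_or]; done) | (simp only [true_and, and_true, or_true, true_or]; omega)))
    have h6 := hbx' (a' + (2 * m + 2) - 1, b' + (2 * m + 2) - 1) (by simp only [InR]; (first | omega | (simp only [true_and, and_true, or_true, true_or]; done) | (simp only [true_and, and_true, or_true, true_or]; omega)))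
    simp only [Bx] at h5 h6
    omega
  · intro v hv hne
    rw [Perm.mul_apply, Perm.mul_apply, pinv', h3 v ((hSq v).1 hv) hne]
  · intro v hv hne
    have e : (σ * F * σ⁻¹)⁻¹ = σ * F⁻¹ * σ⁻¹ := by group
    rw [e, Perm.mul_apply, Perm.mul_apply, pinv', h4 v ((hSq v).1 hv) hne]
  · intro v hv
    rw [sameCycle_conj, pinv', pinv']
    exact h2 v hv

/-- **Normalisation**: after adding at most four rings, the boundary is counterclockwise and the
corners are even. -/
theorem normalise {σ : Perm V} (hσ : IsAff σ) {m : ℤ} {f ρ : Perm V} (hS : Std m f ρ) :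
    ∃ a b w h F z, a % 2 = 0 ∧ b % 2 = 0 ∧ St σ m f 5 5 true a b w h F z := by
  have key : ∀ {kx ky : ℤ} {a b w h : ℤ} {F : Perm V} {z : V}, kx ≤ 5 → ky ≤ 5 → a % 2 = 0 →
      b % 2 = 0 → St σ m f kx ky true a b w h F z →
      ∃ a b w h F z, a % 2 = 0 ∧ b % 2 = 0 ∧ St σ m f 5 5 true a b w h F z := by
    intro kx ky a b w h F z hk1 hk2 ha hb H
    have := H.bx
    exact ⟨a, b, w, h, F, z, ha, hb, H.full, H.inn, H.ni, by omega, H.ag, H.ag', H.cyc⟩
  have h11 : (1 : ℤ) ≤ 1 := le_rfl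
  have h12 : (1 : ℤ) ≤ 2 := by norm_num
  obtain ⟨c, a, b, w, h, F, z, H⟩ := St.init hσ hS
  rcases Int.emod_two_eq_zero_or_one a with ha | ha <;>
    rcases Int.emod_two_eq_zero_or_one b with hb | hb <;> cases c
  · -- 0 0 false : a b c
    obtain ⟨F1, z1, H1⟩ := H.step h11 h11 ringOpA
    obtain ⟨F2, z2, H2⟩ := H1.step h11 h12 ringOpB
    obtain ⟨F3, z3, H3⟩ := H2.step h12 h11 ringOpC
    exact key (by norm_num) (by norm_num) (by omega) (by omega) H3
  · exact key (by norm_num) (by norm_num) ha hb H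
  · -- 0 1 false : c
    obtain ⟨F1, z1, H1⟩ := H.step h12 h11 ringOpC
    exact key (by norm_num) (by norm_num) (by omega) (by omega) H1
  · -- 0 1 true : a b
    obtain ⟨F1, z1, H1⟩ := H.step h11 h11 ringOpA
    obtain ⟨F2, z2, H2⟩ := H1.step h11 h12 ringOpB
    exact key (by norm_num) (by norm_num) (by omega) (by omega) H2
  · -- 1 0 false : b
    obtain ⟨F1, z1, H1⟩ := H.step h11 h12 ringOpB
    exact key (by norm_num) (by norm_num) (by omega) (by omega) H1
  · -- 1 0 true : a c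
    obtain ⟨F1, z1, H1⟩ := H.step h11 h11 ringOpA
    obtain ⟨F2, z2, H2⟩ := H1.step h12 h11 ringOpC
    exact key (by norm_num) (by norm_num) (by omega) (by omega) H2
  · -- 1 1 false : a
    obtain ⟨F1, z1, H1⟩ := H.step h11 h11 ringOpA
    exact key (by norm_num) (by norm_num) (by omega) (by omega) H1
  · -- 1 1 true : b c
    obtain ⟨F1, z1, H1⟩ := H.step h11 h12 ringOpB
    obtain ⟨F2, z2, H2⟩ := H1.step h12 h11 ringOpC
    exact key (by norm_num) (by norm_num) (by omega) (by omega) H2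

end Pool.Agent.J4H99.SD
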