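import Mathlib

/-!
# Merging cycles of permutations
-/

set_option autoImplicit false

open Equiv Equiv.Perm

namespace Pool.Agent.J4H99.SD

variable {α : Type*}

/-- the orbit of `x` is finite -/
def FinOrb (f : Perm α) (x : α) : Prop := ∃ n : ℕ, 0 < n ∧ (f ^ n) x = x

lemma exists_neg_pow {f : Perm α} {x a : α} (h : FinOrb f x) (hs : SameCycle f x a) :
    ∃ m : ℕ, (f⁻¹ ^ m) x = a := by
  obtain ⟨n, hn, hx⟩ := h
  obtain ⟨i, hi⟩ := hs
  have hfix : ∀ k : ℤ, (f ^ ((n : ℤ) * k)) x = x := by
    intro k
    rw [zpow_mul, zpow_natCast]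
    exact Equiv.Perm.zpow_apply_eq_self_of_apply_eq_self hx k
  have hnn : 0 ≤ (n : ℤ) * |i| - i := by
    have h1 : |i| ≤ (n : ℤ) * |i| := by
      have h2 : (1 : ℤ) ≤ n := by exact_mod_cast hn
      nlinarith [abs_nonneg i]
    have h3 := le_abs_self i
    linarith
  refine ⟨((n : ℤ) * |i| - i).toNat, ?_⟩
  have h1 : (f⁻¹ ^ ((n : ℤ) * |i| - i).toNat) = f ^ (i + (n : ℤ) * (-|i|)) := by
    rw [← zpow_natCast, Int.toNat_of_nonneg hnn, inv_zpow, ← zpow_neg]
    congr 1
    ring
  rw [h1, zpow_add, Perm.mul_apply, hfix, hi]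

lemma finOrb_of_finite {f : Perm α} {S : Set α} (hS : S.Finite) (hf : ∀ v, v ∉ S → f v = v)
    (x : α) : FinOrb f x := by
  by_cases hx : x ∈ S
  · have hmap : ∀ v ∈ S, f v ∈ S := by
      intro v hv
      by_contra hc
      have h1 := hf _ hc
      have h2 := f.injective h1
      rw [h2] at hc
      exact hc hv
    have hpow : ∀ n : ℕ, (f ^ n) x ∈ S := by
      intro n
      induction n with
      | zero => simpa using hx
      | succ n ih =>
        rw [pow_succ', Perm.mul_apply]
        exact hmap _ ih
    have : Finite S := hS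
    obtain ⟨i, j, hij, h⟩ := Finite.exists_ne_map_eq_of_infinite (fun n : ℕ => (⟨(f ^ n) x, hpow n⟩ : S))
    have h' : (f ^ i) x = (f ^ j) x := by simpa using congrArg Subtype.val h
    rcases lt_or_gt_of_ne hij with hlt | hlt
    · refine ⟨j - i, by omega, ?_⟩
      have h2 : (f ^ i) ((f ^ (j - i)) x) = (f ^ i) x := by
        rw [← Perm.mul_apply, ← pow_add, h']
        congr 2
        omega
      exact (f ^ i).injective h2
    · refine ⟨i - j, by omega, ?_⟩
      have h2 : (f ^ j) ((f ^ (i - j)) x) = (f ^ j) x := by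
        rw [← Perm.mul_apply, ← pow_add, ← h']
        congr 2
        omega
      exact (f ^ j).injective h2
  · exact ⟨1, one_pos, by simpa using hf x hx⟩

lemma sc_apply_right {f : Perm α} {x y : α} (h : SameCycle f x (f y)) : SameCycle f x y :=
  (sameCycle_apply_right).1 h

/-- if `f` agrees with `g` on the `g`-cycle of `a`, the `f`-cycle of `a` is contained in it -/
lemma sc_of_agree {f g : Perm α} {a b : α} (h : ∀ c, SameCycle g a c → f c = g c)
    (hab : SameCycle f a b) : SameCycle g a b := by
  obtain ⟨i, rfl⟩ := hab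
  induction i using Int.induction_on with
  | zero => simpa using SameCycle.refl g a
  | succ i ih =>
    have : (f ^ ((i : ℤ) + 1)) a = f ((f ^ (i : ℤ)) a) := by
      rw [add_comm, zpow_add, zpow_one, Perm.mul_apply]
    rw [this, h _ ih]
    exact (sameCycle_apply_right).2 ih
  | pred i ih =>
    have : f ((f ^ (-(i : ℤ) - 1)) a) = (f ^ (-(i : ℤ))) a := by
      rw [← Perm.mul_apply, ← zpow_one_add]
      congr 2
      ring
    have h2 : SameCycle g a (g⁻¹ ((f ^ (-(i : ℤ))) a)) := sc_apply_right (by simpa using ih)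
    have h3 : f (g⁻¹ ((f ^ (-(i : ℤ))) a)) = (f ^ (-(i : ℤ))) a := by
      rw [h _ h2]
      simp
    have h4 : g⁻¹ ((f ^ (-(i : ℤ))) a) = (f ^ (-(i : ℤ) - 1)) a := by
      apply f.injective
      rw [h3, this]
    rw [← h4]
    exact h2

/-- the reverse inclusion when `f` agrees with `g` on the `g`-cycle of `a` -/
lemma sc_of_agree' {f g : Perm α} {a b : α} (h : ∀ c, SameCycle g a c → f c = g c)
    (hab : SameCycle g a b) : SameCycle f a b := by
  obtain ⟨i, rfl⟩ := hab
  have key : ∀ i : ℤ, (f ^ i) a = (g ^ i) a := by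
    intro i
    induction i using Int.induction_on with
    | zero => simp
    | succ i ih =>
      rw [add_comm, zpow_add, zpow_add, zpow_one, zpow_one, Perm.mul_apply, Perm.mul_apply, ih]
      exact h _ ⟨i, rfl⟩
    | pred i ih =>
      apply f.injective
      have h1 : f ((f ^ (-(i : ℤ) - 1)) a) = (f ^ (-(i : ℤ))) a := by
        rw [← Perm.mul_apply, ← zpow_one_add]
        congr 2
        ring
      have h2 : g ((g ^ (-(i : ℤ) - 1)) a) = (g ^ (-(i : ℤ))) a := by
        rw [← Perm.mul_apply, ← zpow_one_add]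
        congr 2
        ring
      rw [h1, h _ ⟨_, rfl⟩, h2, ih]
  exact ⟨i, key i⟩

lemma inv_of_cycle {β : Type*} {f : Perm α} {ν : α → β} (h : ∀ v, ν (f v) = ν v) {v w : α}
    (hs : SameCycle f v w) : ν v = ν w := by
  obtain ⟨i, rfl⟩ := hs
  induction i using Int.induction_on with
  | zero => simp
  | succ i ih =>
    rw [add_comm, zpow_add, zpow_one, Perm.mul_apply, h]
    exact ih
  | pred i ih =>
    rw [ih]
    have h1 : f ((f ^ (-(i : ℤ) - 1)) v) = (f ^ (-(i : ℤ))) v := by
      rw [← Perm.mul_apply, ← zpow_one_add]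
      congr 2
      ring
    rw [← h1, h]

variable [DecidableEq α]

section merge

variable {f : Perm α} {x x' : α}

lemma mul_swap_left : (f * swap x x') x = f x' := by simp

lemma mul_swap_right : (f * swap x x') x' = f x := by simp

lemma mul_swap_of_ne {a : α} (h : a ≠ x) (h' : a ≠ x') : (f * swap x x') a = f a := by
  rw [Perm.mul_apply, swap_apply_of_ne_of_ne h h']

lemma merge_left (hf : ∀ a, FinOrb f a) (h : ¬ SameCycle f x x') {a : α}
    (ha : SameCycle f x a) : SameCycle (f * swap x x') x a := by
  obtain ⟨m, rfl⟩ := exists_neg_pow (hf x) ha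
  clear ha
  induction m with
  | zero => simpa using SameCycle.refl _ x
  | succ m ih =>
    set a := (f⁻¹ ^ (m + 1)) x with hadef
    have hfa : f a = (f⁻¹ ^ m) x := by
      rw [hadef, pow_succ', Perm.mul_apply]
      simp
    by_cases hax : a = x
    · rw [hax]
    · have hax' : a ≠ x' := by
        rintro hc
        apply h
        rw [← hc]
        refine ⟨-((m : ℤ) + 1), ?_⟩
        rw [hadef, inv_pow, ← zpow_natCast, ← zpow_neg]
        push_cast
        rfl
      have h1 : (f * swap x x') a = (f⁻¹ ^ m) x := by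
        rw [mul_swap_of_ne hax hax', hfa]
      rw [← h1] at ih
      exact sc_apply_right ih

lemma merge_link (hf : ∀ a, FinOrb f a) (h : ¬ SameCycle f x x') :
    SameCycle (f * swap x x') x x' := by
  have h' : ¬ SameCycle f x' x := fun hc => h hc.symm
  have h1 : SameCycle (f * swap x' x) x' (f x') :=
    merge_left hf h' ((sameCycle_apply_right).2 (SameCycle.refl _ _))
  rw [swap_comm] at h1
  have h2 : (f * swap x x') x = f x' := mul_swap_left
  rw [← h2] at h1
  exact (sc_apply_right h1).symm

lemma merge_right (hf : ∀ a, FinOrb f a) (h : ¬ SameCycle f x x') {a : α}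
    (ha : SameCycle f x' a) : SameCycle (f * swap x x') x a := by
  have h' : ¬ SameCycle f x' x := fun hc => h hc.symm
  have h1 := merge_left hf h' ha
  rw [swap_comm] at h1
  exact (merge_link hf h).trans h1

lemma merge_mono (hf : ∀ a, FinOrb f a) (h : ¬ SameCycle f x x') {a b : α}
    (hab : SameCycle f a b) : SameCycle (f * swap x x') a b := by
  by_cases hx : SameCycle f x a
  · exact (merge_left hf h hx).symm.trans (merge_left hf h (hx.trans hab))
  · by_cases hx' : SameCycle f x' a
    · exact (merge_right hf h hx').symm.trans (merge_right hf h (hx'.trans hab))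
    · refine sc_of_agree' (fun c hc => ?_) hab
      refine mul_swap_of_ne ?_ ?_
      · rintro rfl; exact hx hc.symm
      · rintro rfl; exact hx' hc.symm

/-- no fixed point and no cycle of length two is created -/
lemma merge_no2 {D : Set α} (hD : ∀ v ∈ D, f v ≠ v ∧ f (f v) ≠ v) (hx : x ∈ D) (hx' : x' ∈ D)
    (h : ¬ SameCycle f x x') {v : α} (hv : v ∈ D) :
    (f * swap x x') v ≠ v ∧ (f * swap x x') ((f * swap x x') v) ≠ v := by
  have hfx : SameCycle f x (f x) := (sameCycle_apply_right).2 (SameCycle.refl _ _)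
  have hfx' : SameCycle f x' (f x') := (sameCycle_apply_right).2 (SameCycle.refl _ _)
  have e1 : f x' ≠ x := by
    intro hc; rw [hc] at hfx'; exact h hfx'.symm
  have e2 : f x ≠ x' := by
    intro hc; rw [hc] at hfx; exact h hfx
  by_cases h1 : v = x
  · subst h1
    rw [mul_swap_left]
    refine ⟨e1, ?_⟩
    rw [mul_swap_of_ne e1 (hD _ hx').1]
    intro hc
    apply h
    have : SameCycle f x' (f (f x')) := (sameCycle_apply_right).2 hfx'
    rw [hc] at this
    exact this.symm
  · by_cases h2 : v = x'
    · subst h2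
      rw [mul_swap_right]
      refine ⟨e2, ?_⟩
      rw [mul_swap_of_ne (hD _ hx).1 e2]
      intro hc
      apply h
      have : SameCycle f x (f (f x)) := (sameCycle_apply_right).2 hfx
      rw [hc] at this
      exact this
    · rw [mul_swap_of_ne h1 h2]
      refine ⟨(hD _ hv).1, ?_⟩
      have hfv : SameCycle f v (f v) := (sameCycle_apply_right).2 (SameCycle.refl _ _)
      by_cases h3 : f v = x
      · rw [h3, mul_swap_left]
        rw [h3] at hfv
        intro hc
        rw [hc] at hfx'
        exact h (hfv.symm.trans hfx'.symm)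
      · by_cases h4 : f v = x'
        · rw [h4, mul_swap_right]
          rw [h4] at hfv
          intro hc
          rw [hc] at hfx
          exact h (hfx.trans hfv)
        · rw [mul_swap_of_ne h3 h4]
          exact (hD _ hv).2

end merge

end Pool.Agent.J4H99.SD
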