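import Pool.Agent.J4H99.SD.Meas

/-!
# The nested family of squares covers everything almost surely
-/

set_option autoImplicit false

open MeasureTheory Set Filter Topology

namespace Pool.Agent.J4H99.SD

/-- the radii -/
def rr (n : ℕ) : ℤ := 8 * 100 ^ n

lemma rr_even (n : ℕ) : rr n % 2 = 0 := by
  unfold rr
  omega

lemma rr_ge (n : ℕ) : 8 ≤ rr n := by
  unfold rr
  have : (1 : ℤ) ≤ 100 ^ n := one_le_pow₀ (by norm_num)
  linarith

lemma rr_ge' {n : ℕ} (hn : 1 ≤ n) : 800 ≤ rr n := by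
  unfold rr
  have : (100 : ℤ) ^ 1 ≤ 100 ^ n := pow_le_pow_right₀ (by norm_num) hn
  linarith

lemma rr_succ (n : ℕ) : rr (n + 1) = 100 * rr n := by
  unfold rr
  ring

lemma rr_mono {n m : ℕ} (h : n ≤ m) : rr n ≤ rr m := by
  unfold rr
  have : (100 : ℤ) ^ n ≤ 100 ^ m := pow_le_pow_right₀ (by norm_num) h
  linarith

/-- real radii -/
noncomputable def rR (n : ℕ) : ℝ := 8 * 100 ^ n

lemma rR_eq (n : ℕ) : ((rr n : ℤ) : ℝ) = rR n := by
  unfold rr rR
  push_cast
  ring

lemma rR_pos (n : ℕ) : 0 < rR n := by unfold rR; positivity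

/-- the thresholds -/
noncomputable def bb (n : ℕ) : ℝ := 1 / ((n : ℝ) * rR n ^ 2)

lemma bb_succ_le {n : ℕ} (hn : 1 ≤ n) : bb (n + 1) ≤ bb n / 2 := by
  unfold bb
  have h1 : rR (n + 1) = 100 * rR n := by unfold rR; ring
  rw [h1]
  have h2 := rR_pos n
  have h3 : (1 : ℝ) ≤ n := by exact_mod_cast hn
  rw [div_div]
  apply one_div_le_one_div_of_le
  · positivity
  · push_cast
    have h4 : 0 < rR n ^ 2 := by positivity
    nlinarith

lemma bb_pos {n : ℕ} (hn : 1 ≤ n) : 0 < bb n := by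
  unfold bb
  have h2 := rR_pos n
  have h3 : (1 : ℝ) ≤ n := by exact_mod_cast hn
  positivity

lemma bb_nonneg (n : ℕ) : 0 ≤ bb n := by
  unfold bb
  have h2 := rR_pos n
  positivity

lemma bb_le_one (n : ℕ) : bb n ≤ 1 := by
  unfold bb
  rcases Nat.eq_zero_or_pos n with rfl | hn
  · simp
  · have h3 : (1 : ℝ) ≤ n := by exact_mod_cast hn
    have h4 : 1 ≤ rR n := by
      unfold rR
      have : (1 : ℝ) ≤ 100 ^ n := one_le_pow₀ (by norm_num)
      linarith
    rw [div_le_one (by positivity)]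
    nlinarith [mul_le_mul h3 (one_le_pow₀ h4 (n := 2)) (by norm_num) (by positivity)]

lemma bb_anti {n : ℕ} (hn : 1 ≤ n) (k : ℕ) : bb (n + k) ≤ bb n := by
  induction k with
  | zero => simp
  | succ k ih =>
    have h1 := bb_succ_le (n := n + k) (by omega)
    have h2 := bb_pos (n := n + k) (by omega)
    rw [← add_assoc]
    linarith

open Classical in
noncomputable def mk (t : unitInterval) : ℕ :=
  if h : ∃ n : ℕ, 1 ≤ n ∧ bb (n + 1) < t ∧ (t : ℝ) ≤ bb n then h.choose else 0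

lemma mk_unique {t : ℝ} {n m : ℕ} (hn : 1 ≤ n) (hm : 1 ≤ m) (h1 : bb (n + 1) < t) (h2 : t ≤ bb n)
    (h3 : bb (m + 1) < t) (h4 : t ≤ bb m) : n = m := by
  by_contra hne
  rcases lt_or_gt_of_ne hne with hlt | hlt
  · obtain ⟨k, rfl⟩ := Nat.exists_eq_add_of_le (Nat.succ_le_of_lt hlt)
    have := bb_anti (n := n + 1) (by omega) k
    rw [Nat.succ_eq_add_one] at h4
    linarith
  · obtain ⟨k, rfl⟩ := Nat.exists_eq_add_of_le (Nat.succ_le_of_lt hlt)
    have := bb_anti (n := m + 1) (by omega) k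
    rw [Nat.succ_eq_add_one] at h2
    linarith

lemma mk_iff {n : ℕ} (hn : 1 ≤ n) (t : unitInterval) :
    mk t = n ↔ bb (n + 1) < t ∧ (t : ℝ) ≤ bb n := by
  unfold mk
  constructor
  · intro h
    split_ifs at h with hex
    · rw [← h]
      exact hex.choose_spec.2
    · omega
  · rintro ⟨h1, h2⟩
    have hex : ∃ n : ℕ, 1 ≤ n ∧ bb (n + 1) < t ∧ (t : ℝ) ≤ bb n := ⟨n, hn, h1, h2⟩
    rw [dif_pos hex]
    exact mk_unique hex.choose_spec.1 hn hex.choose_spec.2.1 hex.choose_spec.2.2 h1 h2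

noncomputable def bI (n : ℕ) : unitInterval := ⟨bb n, bb_nonneg n, bb_le_one n⟩

lemma mk_set {n : ℕ} (hn : 1 ≤ n) : {t | mk t = n} = Set.Ioc (bI (n + 1)) (bI n) := by
  ext t
  rw [Set.mem_setOf_eq, mk_iff hn]
  rfl

lemma mk_measurableSet {n : ℕ} (hn : 1 ≤ n) : MeasurableSet {t | mk t = n} := by
  rw [mk_set hn]
  exact measurableSet_Ioc

lemma mk_measurable : Measurable mk := by
  refine measurable_to_countable' fun n => ?_
  rcases Nat.eq_zero_or_pos n with rfl | hn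
  · have e : mk ⁻¹' {0} = (⋃ n : ℕ, {t | mk t = n + 1})ᶜ := by
      ext t
      simp only [Set.mem_preimage, Set.mem_singleton_iff, Set.mem_compl_iff, Set.mem_iUnion,
        Set.mem_setOf_eq, not_exists]
      constructor
      · intro h n; omega
      · intro h
        by_contra hc
        exact h (mk t - 1) (by omega)
    rw [e]
    exact (MeasurableSet.iUnion fun n => mk_measurableSet (by omega)).compl
  · exact mk_measurableSet hn

/-- probability of a mark -/
noncomputable def pp (n : ℕ) : ℝ := bb n - bb (n + 1)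

lemma pp_nonneg {n : ℕ} (hn : 1 ≤ n) : 0 ≤ pp n := by
  have := bb_succ_le hn
  have := bb_pos hn
  unfold pp
  linarith

lemma pp_le {n : ℕ} : pp n ≤ bb n := by
  have := bb_nonneg (n + 1)
  unfold pp
  linarith

lemma pp_ge {n : ℕ} (hn : 1 ≤ n) : bb n / 2 ≤ pp n := by
  have := bb_succ_le hn
  unfold pp
  linarith

lemma vol_mk {n : ℕ} (hn : 1 ≤ n) :
    (volume : Measure unitInterval) {t | mk t = n} = ENNReal.ofReal (pp n) := by
  rw [mk_set hn, unitInterval.volume_Ioc]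
  rfl

/-- the law of the labels -/
noncomputable def PP : Measure Om := Measure.infinitePi (fun _ : V => (volume : Measure unitInterval))

instance : IsProbabilityMeasure PP := by unfold PP; infer_instance

lemma two_marks {u w : V} (huw : u ≠ w) {n m : ℕ} (hn : 1 ≤ n) (hm : 1 ≤ m) :
    PP {ω | mk (ω u) = n ∧ mk (ω w) = m} = ENNReal.ofReal (pp n) * ENNReal.ofReal (pp m) := by
  have h := Measure.infinitePi_map_eval_prod (P := fun _ : V => (volume : Measure unitInterval)) huw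
  have h2 : PP {ω | mk (ω u) = n ∧ mk (ω w) = m} =
      (PP.map (fun ω : Om => (ω u, ω w))) ({t | mk t = n} ×ˢ {t | mk t = m}) := by
    rw [Measure.map_apply (by fun_prop) ((mk_measurableSet hn).prod (mk_measurableSet hm))]
    rfl
  rw [h2]
  unfold PP
  rw [h, Measure.prod_prod, vol_mk hn, vol_mk hm]

lemma two_marks_le {u w : V} {n m : ℕ} (hn : 1 ≤ n) (hm : 1 ≤ m) :
    PP {ω | u ≠ w ∧ mk (ω u) = n ∧ mk (ω w) = m} ≤
      ENNReal.ofReal (pp n) * ENNReal.ofReal (pp m) := by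
  by_cases huw : u = w
  · have : {ω : Om | u ≠ w ∧ mk (ω u) = n ∧ mk (ω w) = m} = ∅ := by
      ext ω; simp [huw]
    rw [this]
    simp
  · rw [← two_marks huw hn hm]
    exact measure_mono fun ω h => h.2

lemma dist_ae : ∀ᵐ ω ∂PP, Dist ω := by
  unfold Dist
  rw [ae_all_iff]
  intro u
  rw [ae_all_iff]
  intro w
  by_cases huw : u = w
  · exact Eventually.of_forall fun ω h => absurd huw h
  · have h := Measure.infinitePi_map_eval_prod (P := fun _ : V => (volume : Measure unitInterval)) huw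
    have hdiag : MeasurableSet {p : unitInterval × unitInterval | p.1 = p.2} :=
      measurableSet_eq_fun measurable_fst measurable_snd
    have h0 : ((volume : Measure unitInterval).prod (volume : Measure unitInterval))
        {p : unitInterval × unitInterval | p.1 = p.2} = 0 := by
      rw [Measure.measure_prod_null hdiag]
      refine Eventually.of_forall fun x => ?_
      have : Prod.mk x ⁻¹' {p : unitInterval × unitInterval | p.1 = p.2} = {x} := by
        ext y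
        simp [eq_comm]
      simp only [this]
      exact measure_singleton x
    have h2 : PP {ω | ω u = ω w} = 0 := by
      have h3 : PP {ω | ω u = ω w} =
          (PP.map (fun ω : Om => (ω u, ω w))) {p : unitInterval × unitInterval | p.1 = p.2} := by
        rw [Measure.map_apply (by fun_prop) hdiag]
        rfl
      rw [h3]
      unfold PP
      rw [h, h0]
    rw [ae_iff]
    refine measure_mono_null ?_ h2
    intro ω hω
    simp only [Set.mem_setOf_eq, Classical.not_imp, not_not] at hω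
    exact hω.2

/-! ## Bad events -/

noncomputable def box (v : V) (k : ℤ) : Finset V :=
  Finset.Icc (v.1 - k) (v.1 + k) ×ˢ Finset.Icc (v.2 - k) (v.2 + k)

lemma mem_box {v : V} {k : ℤ} {u : V} : u ∈ box v k ↔ Bx v k u := by
  simp only [box, Finset.mem_product, Finset.mem_Icc, Bx]
  omega

lemma card_box (v : V) (k : ℤ) : (box v k).card = (2 * k + 1).toNat * (2 * k + 1).toNat := by
  unfold box
  rw [Finset.card_product, Int.card_Icc, Int.card_Icc]
  congr 2 <;> ring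

noncomputable def ann (u : V) (R1 R2 : ℤ) : Finset V :=
  (Finset.Ioc (u.1 + R2) (u.1 + R1) ×ˢ Finset.Icc (u.2 - R1) (u.2 + R1)) ∪
  (Finset.Ico (u.1 - R1) (u.1 - R2) ×ˢ Finset.Icc (u.2 - R1) (u.2 + R1)) ∪
  (Finset.Icc (u.1 - R1) (u.1 + R1) ×ˢ Finset.Ioc (u.2 + R2) (u.2 + R1)) ∪
  (Finset.Icc (u.1 - R1) (u.1 + R1) ×ˢ Finset.Ico (u.2 - R1) (u.2 - R2))

lemma mem_ann {u : V} {R1 R2 : ℤ} {w : V} (h1 : Bx u R1 w) (h2 : ¬ Bx u R2 w) :
    w ∈ ann u R1 R2 := by
  simp only [ann, Finset.mem_union, Finset.mem_product, Finset.mem_Ioc, Finset.mem_Ico,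
    Finset.mem_Icc, Bx] at *
  omega

lemma card_ann (u : V) (R1 R2 : ℤ) :
    (ann u R1 R2).card ≤ 4 * ((R1 - R2).toNat * (2 * R1 + 1).toNat) := by
  unfold ann
  refine (Finset.card_union_le _ _).trans ?_
  have h1 := Finset.card_union_le
    ((Finset.Ioc (u.1 + R2) (u.1 + R1) ×ˢ Finset.Icc (u.2 - R1) (u.2 + R1)) ∪
    (Finset.Ico (u.1 - R1) (u.1 - R2) ×ˢ Finset.Icc (u.2 - R1) (u.2 + R1)))
    (Finset.Icc (u.1 - R1) (u.1 + R1) ×ˢ Finset.Ioc (u.2 + R2) (u.2 + R1))
  have h2 := Finset.card_union_le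
    (Finset.Ioc (u.1 + R2) (u.1 + R1) ×ˢ Finset.Icc (u.2 - R1) (u.2 + R1))
    (Finset.Ico (u.1 - R1) (u.1 - R2) ×ˢ Finset.Icc (u.2 - R1) (u.2 + R1))
  have e1 : u.1 + R1 - (u.1 + R2) = R1 - R2 := by ring
  have e2 : u.2 + R1 + 1 - (u.2 - R1) = 2 * R1 + 1 := by ring
  have e3 : u.1 - R2 - (u.1 - R1) = R1 - R2 := by ring
  have e4 : u.1 + R1 + 1 - (u.1 - R1) = 2 * R1 + 1 := by ring
  have e5 : u.2 + R1 - (u.2 + R2) = R1 - R2 := by ring
  have e6 : u.2 - R2 - (u.2 - R1) = R1 - R2 := by ring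
  simp only [Finset.card_product, Int.card_Ioc, Int.card_Icc, Int.card_Ico, e1, e2, e3, e4, e5,
    e6] at h1 h2 ⊢
  have e7 : (2 * R1 + 1).toNat * (R1 - R2).toNat = (R1 - R2).toNat * (2 * R1 + 1).toNat :=
    mul_comm _ _
  rw [e7] at h1 ⊢
  omega

def Bad (v : V) (n m : ℕ) : Set Om :=
  {ω | ∃ u w, u ≠ w ∧ Bx v (rr n) u ∧ mk (ω u) = n ∧ mk (ω w) = m ∧ Bx u (rr m + rr n + 12) w ∧
    ¬ Bx u (rr m - rr n - 12) w}

lemma bad_le (v : V) {n m : ℕ} (hn : 1 ≤ n) (hm : 1 ≤ m) :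
    PP (Bad v n m) ≤ ((box v (rr n)).card : ENNReal) *
      ((4 * ((2 * rr n + 24).toNat * (2 * (rr m + rr n + 12) + 1).toNat) : ℕ) : ENNReal) *
      (ENNReal.ofReal (pp n) * ENNReal.ofReal (pp m)) := by
  have hsub : Bad v n m ⊆ ⋃ u ∈ box v (rr n), ⋃ w ∈ ann u (rr m + rr n + 12) (rr m - rr n - 12),
      {ω | u ≠ w ∧ mk (ω u) = n ∧ mk (ω w) = m} := by
    rintro ω ⟨u, w, h1, h2, h3, h4, h5, h6⟩
    simp only [Set.mem_iUnion]
    exact ⟨u, mem_box.2 h2, w, mem_ann h5 h6, h1, h3, h4⟩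
  refine (measure_mono hsub).trans ?_
  refine (measure_biUnion_finset_le _ _).trans ?_
  have h1 : ∀ u ∈ box v (rr n), PP (⋃ w ∈ ann u (rr m + rr n + 12) (rr m - rr n - 12),
      {ω : Om | u ≠ w ∧ mk (ω u) = n ∧ mk (ω w) = m}) ≤
      ((4 * ((2 * rr n + 24).toNat * (2 * (rr m + rr n + 12) + 1).toNat) : ℕ) : ENNReal) *
      (ENNReal.ofReal (pp n) * ENNReal.ofReal (pp m)) := by
    intro u _
    refine (measure_biUnion_finset_le _ _).trans ?_
    refine (Finset.sum_le_sum fun w _ => two_marks_le (u := u) (w := w) hn hm).trans ?_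
    rw [Finset.sum_const, nsmul_eq_mul]
    gcongr
    have h2 := card_ann u (rr m + rr n + 12) (rr m - rr n - 12)
    have e : rr m + rr n + 12 - (rr m - rr n - 12) = 2 * rr n + 24 := by ring
    rw [e] at h2
    exact h2
  refine (Finset.sum_le_sum h1).trans ?_
  rw [Finset.sum_const, nsmul_eq_mul, mul_assoc]

lemma bad_le' (v : V) {n : ℕ} (hn : 1 ≤ n) (k : ℕ) :
    PP (Bad v n (n + k)) ≤ ENNReal.ofReal (540 / (n : ℝ) ^ 2 * (1 / 100) ^ k) := by
  refine (bad_le v hn (by omega)).trans ?_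
  have hn0 : (0 : ℝ) < n := by exact_mod_cast hn
  have hr1 := rr_ge' hn
  have hr2 : rr n ≤ rr (n + k) := rr_mono (by omega)
  have hR1 : (800 : ℝ) ≤ rR n := by rw [← rR_eq]; exact_mod_cast hr1
  have hR2 : rR n ≤ rR (n + k) := by rw [← rR_eq, ← rR_eq]; exact_mod_cast hr2
  have c1 : ((box v (rr n)).card : ENNReal) ≤ ENNReal.ofReal (9 * rR n ^ 2) := by
    rw [card_box, ← ENNReal.ofReal_natCast]
    apply ENNReal.ofReal_le_ofReal
    have e : (((2 * rr n + 1).toNat : ℕ) : ℝ) = 2 * rR n + 1 := by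
      have : (((2 * rr n + 1).toNat : ℕ) : ℤ) = 2 * rr n + 1 := Int.toNat_of_nonneg (by omega)
      rw [← rR_eq]
      exact_mod_cast this
    push_cast
    rw [e]
    nlinarith
  have c2 : ((4 * ((2 * rr n + 24).toNat * (2 * (rr (n + k) + rr n + 12) + 1).toNat) : ℕ) : ENNReal) ≤
      ENNReal.ofReal (60 * (rR n * rR (n + k))) := by
    rw [← ENNReal.ofReal_natCast]
    apply ENNReal.ofReal_le_ofReal
    have e : (((2 * rr n + 24).toNat : ℕ) : ℝ) = 2 * rR n + 24 := by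
      have : (((2 * rr n + 24).toNat : ℕ) : ℤ) = 2 * rr n + 24 := Int.toNat_of_nonneg (by omega)
      rw [← rR_eq]
      exact_mod_cast this
    have e' : (((2 * (rr (n + k) + rr n + 12) + 1).toNat : ℕ) : ℝ) =
        2 * (rR (n + k) + rR n + 12) + 1 := by
      have : (((2 * (rr (n + k) + rr n + 12) + 1).toNat : ℕ) : ℤ) =
        2 * (rr (n + k) + rr n + 12) + 1 := Int.toNat_of_nonneg (by omega)
      rw [← rR_eq, ← rR_eq]
      exact_mod_cast this
    push_cast
    rw [e, e']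
    have h1 : 2 * rR n + 24 ≤ 3 * rR n := by linarith
    have h2 : 2 * (rR (n + k) + rR n + 12) + 1 ≤ 5 * rR (n + k) := by linarith
    have h3 : (2 * rR n + 24) * (2 * (rR (n + k) + rR n + 12) + 1) ≤
        (3 * rR n) * (5 * rR (n + k)) := by
      apply mul_le_mul h1 h2 <;> linarith
    linarith
  refine (mul_le_mul' (mul_le_mul' c1 c2) le_rfl).trans ?_
  have hp1 := pp_nonneg hn
  have hp2 := pp_nonneg (n := n + k) (by omega)
  have hq1 := rR_pos n
  have hq2 := rR_pos (n + k)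
  have hq3 : (0 : ℝ) ≤ 9 * rR n ^ 2 := by positivity
  have hq4 : (0 : ℝ) ≤ 9 * rR n ^ 2 * (60 * (rR n * rR (n + k))) := by positivity
  rw [← ENNReal.ofReal_mul hq3, ← ENNReal.ofReal_mul hp1,
    ← ENNReal.ofReal_mul hq4]
  apply ENNReal.ofReal_le_ofReal
  have hRk : rR (n + k) = 100 ^ k * rR n := by unfold rR; rw [pow_add]; ring
  have h1 : pp n * pp (n + k) ≤ bb n * bb (n + k) := mul_le_mul pp_le pp_le hp2 (bb_nonneg n)
  have hRn := rR_pos n
  have hRnk := rR_pos (n + k)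
  calc 9 * rR n ^ 2 * (60 * (rR n * rR (n + k))) * (pp n * pp (n + k))
      ≤ 9 * rR n ^ 2 * (60 * (rR n * rR (n + k))) * (bb n * bb (n + k)) := by gcongr
    _ = 540 * (rR n / (n * ((n + k : ℕ) : ℝ) * rR (n + k))) := by
        unfold bb
        have h2 : ((n + k : ℕ) : ℝ) ≠ 0 := by positivity
        field_simp
        ring
    _ = 540 / (n * ((n + k : ℕ) : ℝ)) * (1 / 100) ^ k := by
        rw [hRk]
        have h2 : ((n + k : ℕ) : ℝ) ≠ 0 := by positivity
        have h3 : (100 : ℝ) ^ k ≠ 0 := by positivity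
        rw [one_div_pow]
        field_simp
    _ ≤ 540 / (n : ℝ) ^ 2 * (1 / 100) ^ k := by
        have h2 : (n : ℝ) ^ 2 ≤ n * ((n + k : ℕ) : ℝ) := by
          push_cast
          nlinarith [hn0, (Nat.cast_nonneg k : (0 : ℝ) ≤ k)]
        gcongr

lemma bad_ae (v : V) : ∀ᵐ ω ∂PP, ∃ N0 : ℕ, ∀ n k : ℕ, N0 ≤ n → 1 ≤ n → ω ∉ Bad v n (n + k) := by
  have hsum : Summable (fun p : ℕ × ℕ => (540 / ((p.1 + 1 : ℕ) : ℝ) ^ 2) * (1 / 100 : ℝ) ^ p.2) := by
    refine Summable.mul_of_nonneg (f := fun n : ℕ => 540 / ((n + 1 : ℕ) : ℝ) ^ 2)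
      (g := fun k : ℕ => (1 / 100 : ℝ) ^ k) ?_ ?_ ?_ ?_
    · have h1 : Summable (fun n : ℕ => 1 / ((n : ℝ)) ^ 2) :=
        Real.summable_one_div_nat_pow.2 one_lt_two
      have h2 := ((summable_nat_add_iff 1).2 h1).mul_left 540
      refine h2.congr fun n => ?_
      push_cast
      ring
    · exact summable_geometric_of_lt_one (by norm_num) (by norm_num)
    · intro n; dsimp only; positivity
    · intro k; dsimp only; positivity
  have hbc : ∑' p : ℕ × ℕ, PP (Bad v (p.1 + 1) (p.1 + 1 + p.2)) ≠ ⊤ := by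
    have h1 : ∑' p : ℕ × ℕ, PP (Bad v (p.1 + 1) (p.1 + 1 + p.2)) ≤
        ∑' p : ℕ × ℕ, ENNReal.ofReal ((540 / ((p.1 + 1 : ℕ) : ℝ) ^ 2) * (1 / 100 : ℝ) ^ p.2) :=
      ENNReal.tsum_le_tsum fun p => bad_le' v (by omega) p.2
    rw [← ENNReal.ofReal_tsum_of_nonneg (fun p => by positivity) hsum] at h1
    exact ne_top_of_le_ne_top ENNReal.ofReal_ne_top h1
  filter_upwards [ae_finite_setOfPred_mem hbc] with ω hω
  obtain ⟨N0, hN0⟩ := (hω.image Prod.fst).bddAbove
  refine ⟨N0 + 2, fun n k hn hn1 hmem => ?_⟩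
  have h1 : (n - 1, k) ∈ {p : ℕ × ℕ | ω ∈ Bad v (p.1 + 1) (p.1 + 1 + p.2)} := by
    show ω ∈ Bad v (n - 1 + 1) (n - 1 + 1 + k)
    rw [Nat.sub_add_cancel hn1]
    exact hmem
  have h2 := hN0 ⟨_, h1, rfl⟩
  dsimp only at h2
  omega

/-! ## Good events -/

noncomputable def AA (v : V) (n : ℕ) : Finset V :=
  Finset.Ioc (v.1 + rr (n - 1)) (v.1 + (rr n - 12)) ×ˢ Finset.Ioc v.2 (v.2 + (rr n - 12))

lemma AA_bx {v : V} {n : ℕ} {u : V} (hu : u ∈ AA v n) : Bx u (rr n - 12) v := by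
  have := rr_ge (n - 1)
  simp only [AA, Finset.mem_product, Finset.mem_Ioc, Bx] at *
  omega

lemma AA_disj {v : V} {n m : ℕ} (hn : 1 ≤ n) (hm : 1 ≤ m) (hne : n ≠ m) {u : V}
    (hu : u ∈ AA v n) (hu' : u ∈ AA v m) : False := by
  simp only [AA, Finset.mem_product, Finset.mem_Ioc] at hu hu'
  rcases lt_or_gt_of_ne hne with hlt | hlt
  · have := rr_mono (by omega : n ≤ m - 1)
    omega
  · have := rr_mono (by omega : m ≤ n - 1)
    omega

lemma AA_card (v : V) {n : ℕ} (hn : 1 ≤ n) : rR n ^ 2 / 4 ≤ ((AA v n).card : ℝ) := by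
  have h1 := rr_ge' hn
  have h2 : rr n = 100 * rr (n - 1) := by
    rw [← rr_succ, Nat.sub_add_cancel hn]
  have hR1 : (800 : ℝ) ≤ rR n := by rw [← rR_eq]; exact_mod_cast h1
  have hR2 : rR n = 100 * rR (n - 1) := by rw [← rR_eq, ← rR_eq]; exact_mod_cast h2
  unfold AA
  rw [Finset.card_product, Int.card_Ioc, Int.card_Ioc]
  have e : (((v.1 + (rr n - 12) - (v.1 + rr (n - 1))).toNat : ℕ) : ℝ) = rR n - 12 - rR (n - 1) := by
    have : (((v.1 + (rr n - 12) - (v.1 + rr (n - 1))).toNat : ℕ) : ℤ) = rr n - 12 - rr (n - 1) := by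
      rw [Int.toNat_of_nonneg (by omega)]; ring
    rw [← rR_eq, ← rR_eq]
    exact_mod_cast this
  have e' : (((v.2 + (rr n - 12) - v.2).toNat : ℕ) : ℝ) = rR n - 12 := by
    have : (((v.2 + (rr n - 12) - v.2).toNat : ℕ) : ℤ) = rr n - 12 := by
      rw [Int.toNat_of_nonneg (by omega)]; ring
    rw [← rR_eq]
    exact_mod_cast this
  push_cast
  rw [e, e']
  have h3 : rR n / 2 ≤ rR n - 12 - rR (n - 1) := by linarith
  have h4 : rR n / 2 ≤ rR n - 12 := by linarith
  have h5 : (rR n / 2) * (rR n / 2) ≤ (rR n - 12 - rR (n - 1)) * (rR n - 12) :=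
    mul_le_mul h3 h4 (by linarith) (by linarith)
  linarith

lemma vol_not_mk {n : ℕ} (hn : 1 ≤ n) :
    (volume : Measure unitInterval) {t | mk t ≠ n} ≤ ENNReal.ofReal (Real.exp (-pp n)) := by
  have e : {t | mk t ≠ n} = {t | mk t = n}ᶜ := rfl
  rw [e, prob_compl_eq_one_sub (mk_measurableSet hn), vol_mk hn, ← ENNReal.ofReal_one,
    ← ENNReal.ofReal_sub 1 (pp_nonneg hn)]
  exact ENNReal.ofReal_le_ofReal (Real.one_sub_le_exp_neg _)

lemma none_le (v : V) {N : ℕ} (hN : 1 ≤ N) (M : ℕ) :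
    PP {ω | ∀ n, N ≤ n → ∀ u ∈ AA v n, mk (ω u) ≠ n} ≤
      ENNReal.ofReal (Real.exp (-∑ n ∈ Finset.Ico N M, 1 / (8 * (n : ℝ)))) := by
  classical
  set s : Finset V := (Finset.Ico N M).biUnion (AA v) with hs
  let t : V → Set unitInterval := fun u => {x | ∀ n ∈ Finset.Ico N M, u ∈ AA v n → mk x ≠ n}
  have hmem : ∀ n ∈ Finset.Ico N M, 1 ≤ n := fun n hn => by
    rw [Finset.mem_Ico] at hn; omega
  have hmt : ∀ u, MeasurableSet (t u) := by
    intro u
    have e : t u = ⋂ n ∈ Finset.Ico N M, {x | u ∈ AA v n → mk x ≠ n} := by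
      ext x
      simp only [t, Set.mem_setOf_eq, Set.mem_iInter]
    rw [e]
    refine Finset.measurableSet_biInter _ fun n hn => ?_
    by_cases hu : u ∈ AA v n
    · have : {x | u ∈ AA v n → mk x ≠ n} = {x | mk x = n}ᶜ := by
        ext x; simp [hu]
      rw [this]
      exact (mk_measurableSet (hmem n hn)).compl
    · have : {x : unitInterval | u ∈ AA v n → mk x ≠ n} = Set.univ := by
        ext x; simp [hu]
      rw [this]
      exact MeasurableSet.univ
  have hsub : {ω : Om | ∀ n, N ≤ n → ∀ u ∈ AA v n, mk (ω u) ≠ n} ⊆ Set.pi (s : Set V) t := by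
    intro ω hω u _ n hn hu
    rw [Finset.mem_Ico] at hn
    exact hω n hn.1 u hu
  refine (measure_mono hsub).trans ?_
  unfold PP
  rw [Measure.infinitePi_pi _ (fun u _ => hmt u), hs, Finset.prod_biUnion]
  · have h1 : ∀ n ∈ Finset.Ico N M, ∏ u ∈ AA v n, (volume : Measure unitInterval) (t u) ≤
        ENNReal.ofReal (Real.exp (-(1 / (8 * (n : ℝ))))) := by
      intro n hn
      have hn1 := hmem n hn
      have h2 : ∀ u ∈ AA v n, (volume : Measure unitInterval) (t u) ≤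
          ENNReal.ofReal (Real.exp (-pp n)) := by
        intro u hu
        refine (measure_mono ?_).trans (vol_not_mk hn1)
        intro x hx
        exact hx n hn hu
      refine (Finset.prod_le_prod' h2).trans ?_
      rw [Finset.prod_const, ← ENNReal.ofReal_pow (Real.exp_pos _).le, ← Real.exp_nat_mul]
      apply ENNReal.ofReal_le_ofReal
      apply Real.exp_le_exp.2
      have h3 := AA_card v hn1
      have h4 := pp_ge hn1
      have hR := rR_pos n
      have hn0 : (0 : ℝ) < n := by exact_mod_cast hn1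
      have h5 : rR n ^ 2 / 4 * (bb n / 2) ≤ ((AA v n).card : ℝ) * pp n :=
        mul_le_mul h3 h4 (by have := bb_nonneg n; linarith) (by positivity)
      have h6 : rR n ^ 2 / 4 * (bb n / 2) = 1 / (8 * (n : ℝ)) := by
        unfold bb
        field_simp
        norm_num
      rw [h6] at h5
      linarith
    refine (Finset.prod_le_prod' h1).trans ?_
    rw [← ENNReal.ofReal_prod_of_nonneg (fun n _ => (Real.exp_pos _).le), ← Real.exp_sum,
      Finset.sum_neg_distrib]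
  · intro n hn m hm hne
    rw [Function.onFun, Finset.disjoint_left]
    intro u hu hu'
    exact AA_disj (hmem n hn) (hmem m hm) hne hu hu'

lemma none_zero (v : V) {N : ℕ} (hN : 1 ≤ N) :
    PP {ω | ∀ n, N ≤ n → ∀ u ∈ AA v n, mk (ω u) ≠ n} = 0 := by
  have hdiv : Tendsto (fun M : ℕ => ∑ n ∈ Finset.range M, 1 / (8 * (n : ℝ))) atTop atTop := by
    have h1 : ¬ Summable (fun n : ℕ => 1 / (8 * (n : ℝ))) := by
      intro h
      apply Real.not_summable_one_div_natCast
      refine (h.mul_left 8).congr fun n => ?_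
      rw [one_div, mul_inv]
      ring
    exact (not_summable_iff_tendsto_nat_atTop_of_nonneg (fun n => by positivity)).1 h1
  have hdiv2 : Tendsto (fun M : ℕ => ∑ n ∈ Finset.Ico N M, 1 / (8 * (n : ℝ))) atTop atTop := by
    have h1 : Tendsto (fun M : ℕ => ∑ n ∈ Finset.range M, 1 / (8 * (n : ℝ)) +
        -(∑ n ∈ Finset.range N, 1 / (8 * (n : ℝ)))) atTop atTop :=
      tendsto_atTop_add_const_right _ _ hdiv
    refine h1.congr' ?_
    filter_upwards [eventually_ge_atTop N] with M hM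
    rw [Finset.sum_Ico_eq_sub _ hM]
    ring
  have hlim : Tendsto (fun M : ℕ => ENNReal.ofReal
      (Real.exp (-∑ n ∈ Finset.Ico N M, 1 / (8 * (n : ℝ))))) atTop (𝓝 0) := by
    have h1 : Tendsto (fun M : ℕ => Real.exp (-∑ n ∈ Finset.Ico N M, 1 / (8 * (n : ℝ)))) atTop
        (𝓝 0) := Real.tendsto_exp_neg_atTop_nhds_zero.comp hdiv2
    have h2 := ENNReal.tendsto_ofReal h1
    simpa using h2
  exact le_antisymm (ge_of_tendsto' hlim fun M => none_le v hN M) bot_le

/-- **Coverage.** -/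
theorem cover_ae : ∀ᵐ ω ∂PP, ∀ (x : V) (N : ℕ), ∃ v, N ≤ lev (YF rr mk ω) v ∧
    Bx v (rr (lev (YF rr mk ω) v) - 12) x := by
  classical
  rw [ae_all_iff]
  intro x
  rw [ae_all_iff]
  intro N
  have hgood : ∀ᵐ ω ∂PP, ∀ N1 : ℕ, ∃ n, N1 + 1 ≤ n ∧ ∃ u ∈ AA x n, mk (ω u) = n := by
    rw [ae_all_iff]
    intro N1
    rw [ae_iff]
    refine measure_mono_null ?_ (none_zero x (N := N1 + 1) (by omega))
    intro ω hω n hn u hu hmk
    exact hω ⟨n, hn, u, hu, hmk⟩
  filter_upwards [bad_ae x, hgood] with ω ⟨N0, hN0⟩ hg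
  obtain ⟨n, hn, u, hu, hmk⟩ := hg (N + N0)
  have hbx := AA_bx hu
  have hsurv : Surv rr mk ω u := by
    refine ⟨by omega, ?_⟩
    intro w hw hle
    by_contra hc
    push Not at hc
    rw [hmk] at hle hc
    obtain ⟨k, hk⟩ := Nat.exists_eq_add_of_le hle
    refine hN0 n k (by omega) (by omega) ⟨u, w, hw.symm, hbx.symm.mono (by omega), hmk, hk, ?_, ?_⟩
    · rw [← hk]
      exact hc.2.symm
    · rw [← hk]
      exact fun h => hc.1 h.symm
  have hlev : lev (YF rr mk ω) u = n := by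
    show levF rr mk ω u = n
    unfold levF
    rw [if_pos hsurv, hmk]
  exact ⟨u, by rw [hlev]; omega, by rw [hlev]; exact hbx⟩

end Pool.Agent.J4H99.SD
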