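import Pool.Agent.J4H99.SD.Perm
import Pool.Agent.J4H99.SD.Defs

/-!
# Rings around rectangles
-/

set_option autoImplicit false

open Equiv Equiv.Perm

namespace Pool.Agent.J4H99.SD

/-- the rectangle `[a, a + w) × [b, b + h)` -/
def InR (a b w h : ℤ) (v : V) : Prop := a ≤ v.1 ∧ v.1 < a + w ∧ b ≤ v.2 ∧ v.2 < b + h

lemma inR_finite (a b w h : ℤ) : {v : V | InR a b w h v}.Finite := by
  refine ((Set.finite_Ico a (a + w)).prod (Set.finite_Ico b (b + h))).subset ?_
  rintro ⟨x, y⟩ hv
  simp only [InR, Set.mem_setOf_eq] at hv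
  simp only [Set.mem_prod, Set.mem_Ico]
  omega

lemma up_ind {P : ℤ → Prop} {l r : ℤ} (h0 : P l) (h : ∀ i, l ≤ i → i < r → P i → P (i + 1)) :
    ∀ i, l ≤ i → i ≤ r → P i := by
  intro i hi
  induction i, hi using Int.le_induction with
  | base => intro _; exact h0
  | succ n hn ih =>
    intro hr
    exact h n hn (by omega) (ih (by omega))

lemma down_ind {P : ℤ → Prop} {l r : ℤ} (h0 : P r) (h : ∀ i, l < i → i ≤ r → P i → P (i - 1)) :
    ∀ i, l ≤ i → i ≤ r → P i := by
  intro i hl hr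
  have := up_ind (P := fun j => P (-j)) (l := -r) (r := -l) (by simpa using h0) (by
    intro j hj1 hj2 hj3
    have := h (-j) (by omega) (by omega) hj3
    have e : -(j + 1) = -j - 1 := by ring
    rw [e]
    exact this) (-i) (by omega) (by omega)
  simpa using this

lemma sc_step {f : Perm V} {z x y : V} (h : SameCycle f z x) (hf : f x = y) :
    SameCycle f z y := by
  rw [← hf]
  exact (sameCycle_apply_right).2 h

/-- joining a ring -/
theorem ring_merge {f g : Perm V} {R A : V → Prop} (hRf : {v | R v}.Finite)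
    (hAf : {v | A v}.Finite) (hRA : ∀ v, R v → ¬ A v) (hf : ∀ v, ¬ R v → f v = v)
    (hg : ∀ v, ¬ A v → g v = v) (hfadj : ∀ v, R v → Adj v (f v)) (hgadj : ∀ v, A v → Adj v (g v))
    (hf2 : ∀ v, R v → f (f v) ≠ v) (hg2 : ∀ v, A v → g (g v) ≠ v) {x x' : V} (hx : R x)
    (hx' : A x') (hcyc : ∀ u, A u → SameCycle g x' u) (hadj : Adj x (g x'))
    (hadj' : Adj x' (f x)) :
    ∃ F : Perm V, (∀ v, ¬ R v → ¬ A v → F v = v) ∧ (∀ v, R v ∨ A v → Adj v (F v)) ∧
      (∀ v, R v ∨ A v → F (F v) ≠ v) ∧ (∀ v, SameCycle f x v → SameCycle F x v) ∧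
      (∀ u, A u → SameCycle F x u) ∧ (∀ v, R v → v ≠ x → F v = f v) ∧
      (∀ v, R v → v ≠ f x → F⁻¹ v = f⁻¹ v) ∧ (∀ u, A u → u ≠ x' → F u = g u) ∧
      (∀ u, A u → u ≠ g x' → F⁻¹ u = g⁻¹ u) := by
  classical
  have hfR : ∀ v, R v → R (f v) := by
    intro v hv
    by_contra hc
    have h1 := f.injective (hf _ hc)
    rw [h1] at hc
    exact hc hv
  have hgA : ∀ v, A v → A (g v) := by
    intro v hv
    by_contra hc
    have h1 := g.injective (hg _ hc)
    rw [h1] at hc
    exact hc hv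
  have hfR' : ∀ v, R v → R (f⁻¹ v) := by
    intro v hv
    by_contra hc
    have h1 := hf _ hc
    have h2 : f (f⁻¹ v) = v := by simp
    rw [h2] at h1
    rw [← h1] at hc
    exact hc hv
  have hgA' : ∀ v, A v → A (g⁻¹ v) := by
    intro v hv
    by_contra hc
    have h1 := hg _ hc
    have h2 : g (g⁻¹ v) = v := by simp
    rw [h2] at h1
    rw [← h1] at hc
    exact hc hv
  have hAR : ∀ v, A v → ¬ R v := fun v hv hc => hRA v hc hv
  set h : Perm V := f * g with hh
  have hR : ∀ v, R v → h v = f v := by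
    intro v hv
    rw [hh, Perm.mul_apply, hg v (hRA v hv)]
  have hA : ∀ v, A v → h v = g v := by
    intro v hv
    rw [hh, Perm.mul_apply, hf _ (hAR _ (hgA v hv))]
  have hO : ∀ v, ¬ R v → ¬ A v → h v = v := by
    intro v hv hv'
    rw [hh, Perm.mul_apply, hg v hv', hf v hv]
  have hfin : ∀ a, FinOrb h a := by
    refine finOrb_of_finite (S := {v | R v} ∪ {v | A v}) (hRf.union hAf) ?_
    intro v hv
    simp only [Set.mem_union, Set.mem_setOf_eq, not_or] at hv
    exact hO v hv.1 hv.2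
  have hns : ¬ SameCycle h x x' := by
    intro hc
    have h1 : R x = R x' := by
      refine inv_of_cycle (f := h) (ν := R) ?_ hc
      intro v
      by_cases hv : R v
      · rw [hR v hv]; simp [hv, hfR v hv]
      · by_cases hv' : A v
        · rw [hA v hv']; simp [hv, hAR _ (hgA v hv')]
        · rw [hO v hv hv']
    rw [h1] at hx
    exact hRA _ hx hx'
  have hxx : x ≠ x' := by rintro rfl; exact hRA _ hx hx'
  set F : Perm V := h * swap x x' with hF
  have hFx : F x = g x' := by rw [hF, mul_swap_left, hA _ hx']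
  have hFx' : F x' = f x := by rw [hF, mul_swap_right, hR _ hx]
  have hF1 : ∀ v, R v → v ≠ x → F v = f v := by
    intro v hv hne
    rw [hF, mul_swap_of_ne hne (by rintro rfl; exact hRA _ hv hx'), hR v hv]
  have hF2 : ∀ v, A v → v ≠ x' → F v = g v := by
    intro v hv hne
    rw [hF, mul_swap_of_ne (by rintro rfl; exact hRA _ hx hv) hne, hA v hv]
  refine ⟨F, ?_, ?_, ?_, ?_, ?_, hF1, ?_, hF2, ?_⟩
  · intro v hv hv'
    rw [hF, mul_swap_of_ne (by rintro rfl; exact hv hx) (by rintro rfl; exact hv' hx'), hO v hv hv']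
  · rintro v (hv | hv)
    · by_cases hne : v = x
      · rw [hne, hFx]; exact hadj
      · rw [hF1 v hv hne]; exact hfadj v hv
    · by_cases hne : v = x'
      · rw [hne, hFx']; exact hadj'
      · rw [hF2 v hv hne]; exact hgadj v hv
  · intro v hv
    have hD : ∀ v ∈ {v | R v ∨ A v}, h v ≠ v ∧ h (h v) ≠ v := by
      rintro v (hv | hv)
      · rw [hR v hv, hR _ (hfR v hv)]
        exact ⟨(hfadj v hv).ne.symm, hf2 v hv⟩
      · rw [hA v hv, hA _ (hgA v hv)]
        exact ⟨(hgadj v hv).ne.symm, hg2 v hv⟩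
    exact (merge_no2 hD (Or.inl hx) (Or.inr hx') hns hv).2
  · intro v hv
    refine merge_left hfin hns ?_
    refine sc_of_agree' (fun c hc => hR c ?_) hv
    have h1 : R x = R c := by
      refine inv_of_cycle (f := f) (ν := R) ?_ hc
      intro v
      by_cases hv : R v
      · simp [hv, hfR v hv]
      · rw [hf v hv]
    rw [← h1]; exact hx
  · intro u hu
    refine merge_right hfin hns ?_
    refine sc_of_agree' (fun c hc => hA c ?_) (hcyc u hu)
    have h1 : A x' = A c := by
      refine inv_of_cycle (f := g) (ν := A) ?_ hc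
      intro v
      by_cases hv : A v
      · simp [hv, hgA v hv]
      · rw [hg v hv]
    rw [← h1]; exact hx'
  · intro v hv hne
    have h1 : f⁻¹ v ≠ x := by
      rintro hc
      apply hne
      rw [← hc]
      simp
    have h2 : F (f⁻¹ v) = v := by
      rw [hF1 _ (hfR' v hv) h1]
      simp
    exact Equiv.Perm.inv_eq_iff_eq.2 h2.symm
  · intro v hv hne
    have h1 : g⁻¹ v ≠ x' := by
      rintro hc
      apply hne
      rw [← hc]
      simp
    have h2 : F (g⁻¹ v) = v := by
      rw [hF2 _ (hgA' v hv) h1]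
      simp
    exact Equiv.Perm.inv_eq_iff_eq.2 h2.symm

/-! ## The ring of width one -/

/-- counterclockwise -/
def raF (A B C D : ℤ) (v : V) : V :=
  if B ≤ v.2 ∧ v.2 ≤ D ∧ A ≤ v.1 ∧ v.1 ≤ C then
    (if v.1 = C ∧ v.2 < D then (v.1, v.2 + 1)
    else if v.2 = D ∧ A < v.1 then (v.1 - 1, v.2)
    else if v.1 = A ∧ B < v.2 then (v.1, v.2 - 1)
    else if v.2 = B ∧ v.1 < C then (v.1 + 1, v.2) else v)
  else v

def raB (A B C D : ℤ) (v : V) : V :=
  if B ≤ v.2 ∧ v.2 ≤ D ∧ A ≤ v.1 ∧ v.1 ≤ C then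
    (if v.1 = C ∧ B < v.2 then (v.1, v.2 - 1)
    else if v.2 = B ∧ A < v.1 then (v.1 - 1, v.2)
    else if v.1 = A ∧ v.2 < D then (v.1, v.2 + 1)
    else if v.2 = D ∧ v.1 < C then (v.1 + 1, v.2) else v)
  else v

lemma raB_raF {A B C D : ℤ} (h1 : A < C) (h2 : B < D) (v : V) :
    raB A B C D (raF A B C D v) = v := by
  obtain ⟨x, y⟩ := v
  unfold raF
  dsimp only
  split_ifs <;> unfold raB <;> dsimp only <;> split_ifs <;>
    first
    | rfl
    | (exfalso; omega)
    | (ext <;> dsimp only <;> omega)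

lemma raF_raB {A B C D : ℤ} (h1 : A < C) (h2 : B < D) (v : V) :
    raF A B C D (raB A B C D v) = v := by
  obtain ⟨x, y⟩ := v
  unfold raB
  dsimp only
  split_ifs <;> unfold raF <;> dsimp only <;> split_ifs <;>
    first
    | rfl
    | (exfalso; omega)
    | (ext <;> dsimp only <;> omega)

def ra {A B C D : ℤ} (h1 : A < C) (h2 : B < D) : Perm V :=
  ⟨raF A B C D, raB A B C D, raB_raF h1 h2, raF_raB h1 h2⟩

lemma ra_apply {A B C D : ℤ} (h1 : A < C) (h2 : B < D) (v : V) : ra h1 h2 v = raF A B C D v := rfl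

lemma ra_inv_apply {A B C D : ℤ} (h1 : A < C) (h2 : B < D) (v : V) :
    (ra h1 h2)⁻¹ v = raB A B C D v := rfl

/-- the boundary of the rectangle -/
def InA (A B C D : ℤ) (v : V) : Prop :=
  B ≤ v.2 ∧ v.2 ≤ D ∧ A ≤ v.1 ∧ v.1 ≤ C ∧ (v.1 = A ∨ v.1 = C ∨ v.2 = B ∨ v.2 = D)

lemma ra_adj {A B C D : ℤ} (h1 : A < C) (h2 : B < D) {v : V} (hv : InA A B C D v) :
    Adj v (raF A B C D v) := by
  obtain ⟨x, y⟩ := v
  unfold InA at hv
  unfold raF Adj
  dsimp only at *
  split_ifs <;> dsimp only <;> omega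

lemma ra_out {A B C D : ℤ} {v : V} (hv : ¬ InA A B C D v) : raF A B C D v = v := by
  obtain ⟨x, y⟩ := v
  unfold InA at hv
  unfold raF
  dsimp only at *
  split_ifs <;> first | rfl | (exfalso; omega)

lemma ra_ne {A B C D : ℤ} (h1 : A + 1 < C) (h2 : B + 1 < D) {v : V} (hv : InA A B C D v) :
    raF A B C D v ≠ raB A B C D v := by
  obtain ⟨x, y⟩ := v
  unfold InA at hv
  unfold raF raB
  dsimp only at *
  split_ifs <;> simp only [ne_eq, Prod.mk.injEq, not_and] <;> omega

lemma ra_cycle {A B C D : ℤ} (h1 : A < C) (h2 : B < D) {v : V} (hv : InA A B C D v) :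
    SameCycle (ra h1 h2) (C, B) v := by
  have hr : ∀ y, B ≤ y → y ≤ D → SameCycle (ra h1 h2) (C, B) (C, y) := by
    refine up_ind (SameCycle.refl _ _) ?_
    intro i h3 h4 h5
    refine sc_step h5 ?_
    rw [ra_apply]
    unfold raF
    rw [if_pos (by dsimp only; omega), if_pos (by dsimp only; omega)]
  have ht : ∀ x, A ≤ x → x ≤ C → SameCycle (ra h1 h2) (C, B) (x, D) := by
    refine down_ind (hr D (by omega) le_rfl) ?_
    intro i h3 h4 h5
    refine sc_step h5 ?_
    rw [ra_apply]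
    unfold raF
    rw [if_pos (by dsimp only; omega), if_neg (by dsimp only; omega), if_pos (by dsimp only; omega)]
  have hl : ∀ y, B ≤ y → y ≤ D → SameCycle (ra h1 h2) (C, B) (A, y) := by
    refine down_ind (ht A le_rfl (by omega)) ?_
    intro i h3 h4 h5
    refine sc_step h5 ?_
    rw [ra_apply]
    unfold raF
    rw [if_pos (by dsimp only; omega), if_neg (by dsimp only; omega), if_neg (by dsimp only; omega),
      if_pos (by dsimp only; omega)]
  have hb : ∀ x, A ≤ x → x ≤ C → SameCycle (ra h1 h2) (C, B) (x, B) := by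
    refine up_ind (hl B le_rfl (by omega)) ?_
    intro i h3 h4 h5
    refine sc_step h5 ?_
    rw [ra_apply]
    unfold raF
    rw [if_pos (by dsimp only; omega), if_neg (by dsimp only; omega), if_neg (by dsimp only; omega),
      if_neg (by dsimp only; omega), if_pos (by dsimp only; omega)]
  obtain ⟨x, y⟩ := v
  unfold InA at hv
  dsimp only at hv
  rcases hv with ⟨h3, h4, h5, h6, rfl | rfl | rfl | rfl⟩
  · exact hl y h3 h4
  · exact hr y h3 h4
  · exact hb x h5 h6
  · exact ht x h5 h6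

/-! ## The ring with width one at the sides and two at the top and the bottom -/

/-- counterclockwise, around the rectangle `[a, a + w) × [b, b + h)`, `w` even -/
def rbF (a b w h : ℤ) (v : V) : V :=
  if b - 2 ≤ v.2 ∧ v.2 ≤ b + h + 1 ∧ a - 1 ≤ v.1 ∧ v.1 ≤ a + w ∧
      ¬ (a ≤ v.1 ∧ v.1 < a + w ∧ b ≤ v.2 ∧ v.2 < b + h) then
    (if v.1 = a + w ∧ v.2 ≤ b + h then (v.1, v.2 + 1)
    else if v.1 = a - 1 ∧ b - 1 ≤ v.2 then (v.1, v.2 - 1)
    else if b + h ≤ v.2 then
      (if (v.1 - a) % 2 = 0 then (if v.2 = b + h then (v.1, v.2 + 1) else (v.1 - 1, v.2))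
      else (if v.2 = b + h + 1 then (v.1, v.2 - 1) else (v.1 - 1, v.2)))
    else
      (if (v.1 - a) % 2 = 0 then (if v.2 = b - 2 then (v.1, v.2 + 1) else (v.1 + 1, v.2))
      else (if v.2 = b - 1 then (v.1, v.2 - 1) else (v.1 + 1, v.2))))
  else v

def rbB (a b w h : ℤ) (v : V) : V :=
  if b - 2 ≤ v.2 ∧ v.2 ≤ b + h + 1 ∧ a - 1 ≤ v.1 ∧ v.1 ≤ a + w ∧
      ¬ (a ≤ v.1 ∧ v.1 < a + w ∧ b ≤ v.2 ∧ v.2 < b + h) then
    (if v.1 = a + w ∧ b - 2 < v.2 then (v.1, v.2 - 1)
    else if v.1 = a - 1 ∧ v.2 < b + h + 1 then (v.1, v.2 + 1)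
    else if b + h ≤ v.2 then
      (if (v.1 - a) % 2 = 0 then (if v.2 = b + h + 1 then (v.1, v.2 - 1) else (v.1 + 1, v.2))
      else (if v.2 = b + h then (v.1, v.2 + 1) else (v.1 + 1, v.2)))
    else
      (if (v.1 - a) % 2 = 0 then (if v.2 = b - 1 then (v.1, v.2 - 1) else (v.1 - 1, v.2))
      else (if v.2 = b - 2 then (v.1, v.2 + 1) else (v.1 - 1, v.2))))
  else v

lemma rbB_rbF {a b w h : ℤ} (hw : w % 2 = 0) (hw0 : 0 < w) (hh : 0 < h) (v : V) :
    rbB a b w h (rbF a b w h v) = v := by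
  obtain ⟨x, y⟩ := v
  unfold rbF
  dsimp only
  split_ifs <;> unfold rbB <;> dsimp only <;> split_ifs <;>
    first
    | rfl
    | (exfalso; omega)
    | (ext <;> dsimp only <;> omega)

lemma rbF_rbB {a b w h : ℤ} (hw : w % 2 = 0) (hw0 : 0 < w) (hh : 0 < h) (v : V) :
    rbF a b w h (rbB a b w h v) = v := by
  obtain ⟨x, y⟩ := v
  unfold rbB
  dsimp only
  split_ifs <;> unfold rbF <;> dsimp only <;> split_ifs <;>
    first
    | rfl
    | (exfalso; omega)
    | (ext <;> dsimp only <;> omega)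

def rb (a b : ℤ) {w h : ℤ} (hw : w % 2 = 0) (hw0 : 0 < w) (hh : 0 < h) : Perm V :=
  ⟨rbF a b w h, rbB a b w h, rbB_rbF hw hw0 hh, rbF_rbB hw hw0 hh⟩

def InB (a b w h : ℤ) (v : V) : Prop :=
  b - 2 ≤ v.2 ∧ v.2 ≤ b + h + 1 ∧ a - 1 ≤ v.1 ∧ v.1 ≤ a + w ∧
      ¬ (a ≤ v.1 ∧ v.1 < a + w ∧ b ≤ v.2 ∧ v.2 < b + h)

lemma rb_adj {a b w h : ℤ} {v : V} (hv : InB a b w h v) :
    Adj v (rbF a b w h v) := by
  obtain ⟨x, y⟩ := v
  unfold InB at hv
  unfold rbF Adj
  dsimp only at *
  split_ifs <;> dsimp only <;> omega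

lemma rb_out {a b w h : ℤ} {v : V} (hv : ¬ InB a b w h v) : rbF a b w h v = v := by
  unfold InB at hv
  unfold rbF
  rw [if_neg hv]

lemma rb_ne {a b w h : ℤ} (hw : w % 2 = 0) (hw0 : 0 < w) (hh : 0 < h) {v : V}
    (hv : InB a b w h v) : rbF a b w h v ≠ rbB a b w h v := by
  obtain ⟨x, y⟩ := v
  unfold InB at hv
  unfold rbF rbB
  dsimp only at *
  split_ifs <;> simp only [ne_eq, Prod.mk.injEq, not_and] <;> omega

lemma rb_cycle {a b w h : ℤ} (hw : w % 2 = 0) (hw0 : 0 < w) (hh : 0 < h) {v : V}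
    (hv : InB a b w h v) : SameCycle (rb a b hw hw0 hh) (a + w, b - 2) v := by
  have hr : ∀ y, b - 2 ≤ y → y ≤ b + h + 1 →
      SameCycle (rb a b hw hw0 hh) (a + w, b - 2) (a + w, y) := by
    refine up_ind (SameCycle.refl _ _) ?_
    intro i h3 h4 h5
    refine sc_step h5 ?_
    show rbF a b w h _ = _
    unfold rbF
    rw [if_pos (by dsimp only; omega), if_pos (by dsimp only; omega)]
  have ht : ∀ x, a - 1 ≤ x → x ≤ a + w →
      SameCycle (rb a b hw hw0 hh) (a + w, b - 2) (x, b + h) ∧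
      SameCycle (rb a b hw hw0 hh) (a + w, b - 2) (x, b + h + 1) := by
    refine down_ind ⟨hr _ (by omega) (by omega), hr _ (by omega) (by omega)⟩ ?_
    rintro i h3 h4 ⟨h5, h6⟩
    by_cases hp : (i - a) % 2 = 0
    · have h7 : SameCycle (rb a b hw hw0 hh) (a + w, b - 2) (i - 1, b + h + 1) := by
        refine sc_step h6 ?_
        show rbF a b w h _ = _
        unfold rbF
        rw [if_pos (by dsimp only; omega), if_neg (by dsimp only; omega),
          if_neg (by dsimp only; omega), if_pos (by dsimp only; omega), if_pos (by dsimp only; omega),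
          if_neg (by dsimp only; omega)]
      refine ⟨sc_step h7 ?_, h7⟩
      show rbF a b w h _ = _
      unfold rbF
      dsimp only
      split_ifs <;> first | (exfalso; omega) | (ext <;> dsimp only <;> omega)
    · have h7 : SameCycle (rb a b hw hw0 hh) (a + w, b - 2) (i - 1, b + h) := by
        refine sc_step h5 ?_
        show rbF a b w h _ = _
        unfold rbF
        rw [if_pos (by dsimp only; omega), if_neg (by dsimp only; omega),
          if_neg (by dsimp only; omega), if_pos (by dsimp only; omega), if_neg (by dsimp only; omega),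
          if_neg (by dsimp only; omega)]
      refine ⟨h7, sc_step h7 ?_⟩
      show rbF a b w h _ = _
      unfold rbF
      dsimp only
      split_ifs <;> first | (exfalso; omega) | (ext <;> dsimp only <;> omega)
  have hl : ∀ y, b - 2 ≤ y → y ≤ b + h + 1 →
      SameCycle (rb a b hw hw0 hh) (a + w, b - 2) (a - 1, y) := by
    refine down_ind (ht (a - 1) le_rfl (by omega)).2 ?_
    intro i h3 h4 h5
    refine sc_step h5 ?_
    show rbF a b w h _ = _
    unfold rbF
    rw [if_pos (by dsimp only; omega), if_neg (by dsimp only; omega), if_pos (by dsimp only; omega)]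
  have hb : ∀ x, a - 1 ≤ x → x ≤ a + w →
      SameCycle (rb a b hw hw0 hh) (a + w, b - 2) (x, b - 1) ∧
      SameCycle (rb a b hw hw0 hh) (a + w, b - 2) (x, b - 2) := by
    refine up_ind ⟨hl _ (by omega) (by omega), hl _ (by omega) (by omega)⟩ ?_
    rintro i h3 h4 ⟨h5, h6⟩
    by_cases hp : (i - a) % 2 = 0
    · have h7 : SameCycle (rb a b hw hw0 hh) (a + w, b - 2) (i + 1, b - 1) := by
        refine sc_step h5 ?_
        show rbF a b w h _ = _
        unfold rbF
        rw [if_pos (by dsimp only; omega), if_neg (by dsimp only; omega),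
          if_neg (by dsimp only; omega), if_neg (by dsimp only; omega), if_pos (by dsimp only; omega),
          if_neg (by dsimp only; omega)]
      refine ⟨h7, sc_step h7 ?_⟩
      show rbF a b w h _ = _
      unfold rbF
      dsimp only
      split_ifs <;> first | (exfalso; omega) | (ext <;> dsimp only <;> omega)
    · have h7 : SameCycle (rb a b hw hw0 hh) (a + w, b - 2) (i + 1, b - 2) := by
        refine sc_step h6 ?_
        show rbF a b w h _ = _
        unfold rbF
        dsimp only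
        split_ifs <;> first | (exfalso; omega) | (ext <;> dsimp only <;> omega)
      refine ⟨sc_step h7 ?_, h7⟩
      show rbF a b w h _ = _
      unfold rbF
      dsimp only
      split_ifs <;> first | (exfalso; omega) | (ext <;> dsimp only <;> omega)
  obtain ⟨x, y⟩ := v
  unfold InB at hv
  dsimp only at hv
  by_cases h1 : x = a + w
  · subst h1; exact hr y (by omega) (by omega)
  by_cases h2 : x = a - 1
  · subst h2; exact hl y (by omega) (by omega)
  by_cases h3 : y = b + h
  · subst h3; exact (ht x (by omega) (by omega)).1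
  by_cases h4 : y = b + h + 1
  · subst h4; exact (ht x (by omega) (by omega)).2
  by_cases h5 : y = b - 1
  · subst h5; exact (hb x (by omega) (by omega)).1
  by_cases h6 : y = b - 2
  · subst h6; exact (hb x (by omega) (by omega)).2
  exfalso; omega

end Pool.Agent.J4H99.SD
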