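import Pool.Agent.J4H99.SD.Ext

/-!
# The decoration attached to a nested family of squares
-/

set_option autoImplicit false

open Equiv Equiv.Perm

namespace Pool.Agent.J4H99.SD

/-- local data: level (`0`: none) and frame -/
abbrev TT := ℕ × (Bool × Bool × Bool)

/-- level -/
def lev (Y : V → TT) (v : V) : ℕ := (Y v).1

/-- chart -/
def chart (Y : V → TT) (v : V) : V ≃ V := aff v (Y v).2

lemma isAff_chart (Y : V → TT) (v : V) : IsAff (chart Y v) := ⟨_, _, rfl⟩

lemma chart_zero (Y : V → TT) (v : V) : chart Y v (0, 0) = v := aff_zero _ _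

section

variable (r : ℕ → ℤ)

/-- the square of `u` is well inside the square of `v` -/
def Nest (Y : V → TT) (u v : V) : Prop := Bx v (r (lev Y v) - r (lev Y u) - 12) u

/-- the squares of `u` and `v` are disjoint, with a gap -/
def FarP (Y : V → TT) (u v : V) : Prop := ¬ Bx v (r (lev Y v) + r (lev Y u) + 12) u

def Toast (Y : V → TT) : Prop :=
  ∀ u v, u ≠ v → 1 ≤ lev Y u → lev Y u ≤ lev Y v → Nest r Y u v ∨ FarP r Y u v

def Child (Y : V → TT) (u v : V) : Prop :=
  1 ≤ lev Y u ∧ lev Y u < lev Y v ∧ Nest r Y u v ∧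
    ¬ ∃ w, lev Y u < lev Y w ∧ lev Y w < lev Y v ∧ Nest r Y u w ∧ Nest r Y w v

open Classical in
/-- a choice of an extension -/
noncomputable def ExtC (m : ℤ) (𝒞 : Set ((V ≃ V) × ℤ × (Perm V × Perm V))) : Perm V × Perm V :=
  if h : ∃ P : Perm V × Perm V, Std m P.1 P.2 ∧
    ∀ q ∈ 𝒞, Extends q.1 q.2.1 q.2.2.1 q.2.2.2 m P.1 P.2 then h.choose else (1, 1)

/-- the piece of level `n` at `v` -/
noncomputable def pc (Y : V → TT) (n : ℕ) : V → Perm V × Perm V := fun v =>
  ExtC (r n) {q | ∃ u, ∃ _h : lev Y u < n, Child r Y u v ∧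
    q = ((chart Y u).trans (chart Y v).symm, r (lev Y u), pc Y (lev Y u) u)}
termination_by n

lemma pc_eq (Y : V → TT) (n : ℕ) (v : V) : pc r Y n v =
    ExtC (r n) {q | ∃ u, ∃ _h : lev Y u < n, Child r Y u v ∧
      q = ((chart Y u).trans (chart Y v).symm, r (lev Y u), pc r Y (lev Y u) u)} := by
  rw [pc]

/-- the piece at `v` -/
noncomputable def P1 (Y : V → TT) (v : V) : Perm V := (pc r Y (lev Y v) v).1
noncomputable def P2 (Y : V → TT) (v : V) : Perm V := (pc r Y (lev Y v) v).2

variable {r}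

theorem piece_valid (hr2 : ∀ n, r n % 2 = 0) (hr8 : ∀ n, 8 ≤ r n) {Y : V → TT} (hT : Toast r Y) :
    ∀ n v, lev Y v = n → 1 ≤ n → Std (r n) (P1 r Y v) (P2 r Y v) ∧
      ∀ u, Child r Y u v → Extends ((chart Y u).trans (chart Y v).symm) (r (lev Y u)) (P1 r Y u)
        (P2 r Y u) (r n) (P1 r Y v) (P2 r Y v) := by
  intro n
  induction n using Nat.strong_induction_on with
  | _ n ih =>
    intro v hv hn
    have hex : ∃ P : Perm V × Perm V, Std (r n) P.1 P.2 ∧
        ∀ q ∈ {q : (V ≃ V) × ℤ × (Perm V × Perm V) | ∃ u, ∃ _h : lev Y u < n, Child r Y u v ∧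
          q = ((chart Y u).trans (chart Y v).symm, r (lev Y u), pc r Y (lev Y u) u)},
          Extends q.1 q.2.1 q.2.2.1 q.2.2.2 (r n) P.1 P.2 := by
      obtain ⟨F, R, h1, h2⟩ := ext_lemma (I := {u // Child r Y u v}) (hr2 n) (hr8 n)
        (fun i => (chart Y i.1).trans (chart Y v).symm)
        (fun i => ((isAff_chart Y v).symm).mul (isAff_chart Y i.1))
        (fun i => r (lev Y i.1)) (fun i => P1 r Y i.1) (fun i => P2 r Y i.1)
        (fun i => (ih (lev Y i.1) (by have := i.2.2.1; omega) i.1 rfl i.2.1).1)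
        (by
          rintro ⟨u, hu⟩
          show Bx (0, 0) _ ((chart Y v).symm (chart Y u (0, 0)))
          rw [← (isAff_chart Y v).bx, chart_zero, chart_zero, Equiv.apply_symm_apply, ← hv]
          exact hu.2.2.1)
        (by
          rintro ⟨u, hu⟩ ⟨u', hu'⟩ hne hc
          have hne' : u ≠ u' := fun h => hne (Subtype.ext h)
          replace hc : Bx ((chart Y v).symm (chart Y u (0, 0))) (r (lev Y u) + r (lev Y u') + 12)
            ((chart Y v).symm (chart Y u' (0, 0))) := hc
          rw [← (isAff_chart Y v).bx, chart_zero, chart_zero, Equiv.apply_symm_apply,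
            Equiv.apply_symm_apply] at hc
          rcases le_total (lev Y u) (lev Y u') with hle | hle
          · rcases hT u u' hne' hu.1 hle with h3 | h3
            · rcases lt_or_eq_of_le hle with hlt | heq
              · exact hu.2.2.2 ⟨u', hlt, hu'.2.1, h3, hu'.2.2.1⟩
              · unfold Nest at h3
                rw [heq] at h3
                unfold Bx at h3
                omega
            · apply h3
              exact hc.symm.mono (by omega)
          · rcases hT u' u hne'.symm hu'.1 hle with h3 | h3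
            · rcases lt_or_eq_of_le hle with hlt | heq
              · exact hu'.2.2.2 ⟨u, hlt, hu.2.1, h3, hu.2.2.1⟩
              · unfold Nest at h3
                rw [heq] at h3
                unfold Bx at h3
                omega
            · apply h3
              exact hc.mono (by omega))
      refine ⟨(F, R), h1, ?_⟩
      rintro q ⟨u, -, hu, rfl⟩
      exact h2 ⟨u, hu⟩
    have hpc : pc r Y (lev Y v) v = hex.choose := by
      rw [hv, pc_eq]
      unfold ExtC
      rw [dif_pos hex]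
    have hspec := hex.choose_spec
    rw [← hpc] at hspec
    refine ⟨hspec.1, ?_⟩
    intro u hu
    exact hspec.2 _ ⟨u, by have := hu.2.1; omega, hu, rfl⟩

/-- arrows of the first colour -/
def E1 (r : ℕ → ℤ) (Y : V → TT) (v x y : V) : Prop :=
  ∃ z, Sq (r (lev Y v)) z ∧ z ≠ port (r (lev Y v)) ∧ x = chart Y v z ∧ y = chart Y v (P1 r Y v z)

/-- arrows of the second colour -/
def E2 (r : ℕ → ℤ) (Y : V → TT) (v x y : V) : Prop :=
  ∃ z, Inn (r (lev Y v)) z ∧ x = chart Y v z ∧ y = chart Y v (P2 r Y v z)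

/-- the decoration -/
def Dec (r : ℕ → ℤ) (Y : V → TT) (i : Fin 2) (x y : V) : Prop :=
  ∃ v, 1 ≤ lev Y v ∧ (if i = 0 then E1 r Y v x y else E2 r Y v x y)

variable (hr2 : ∀ n, r n % 2 = 0) (hr8 : ∀ n, 8 ≤ r n) {Y : V → TT} (hT : Toast r Y)
include hr2 hr8 hT

lemma std {v : V} (hv : 1 ≤ lev Y v) : Std (r (lev Y v)) (P1 r Y v) (P2 r Y v) :=
  (piece_valid hr2 hr8 hT _ v rfl hv).1

lemma ext_child {u v : V} (h : Child r Y u v) :
    Extends ((chart Y u).trans (chart Y v).symm) (r (lev Y u)) (P1 r Y u)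
        (P2 r Y u) (r (lev Y v)) (P1 r Y v) (P2 r Y v) :=
  (piece_valid hr2 hr8 hT _ v rfl (by have := h.1; have := h.2.1; omega)).2 u h

lemma mono_child {u v : V} (h : Child r Y u v) :
    (∀ x y, E1 r Y u x y → E1 r Y v x y) ∧ (∀ x y, E2 r Y u x y → E2 r Y v x y) ∧
      ∀ a, SameCycle (P1 r Y u) (port (r (lev Y u))) a →
        SameCycle (P1 r Y v) (port (r (lev Y v))) ((chart Y v).symm (chart Y u a)) := by
  have hE := ext_child hr2 hr8 hT h
  have hin : ∀ z, Bx (0, 0) (r (lev Y u)) z →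
      Bx (0, 0) (r (lev Y v) - 12) ((chart Y v).symm (chart Y u z)) := by
    intro z hz
    rw [← (isAff_chart Y v).bx, chart_zero, Equiv.apply_symm_apply]
    have h1 : Bx u (r (lev Y u)) (chart Y u z) := by
      have := ((isAff_chart Y u).bx (0, 0) z (r (lev Y u))).2 hz
      rwa [chart_zero] at this
    exact (Bx.trans h.2.2.1 h1).mono (by omega)
  have hr := hr8 (lev Y v)
  refine ⟨?_, ?_, ?_⟩
  · rintro x y ⟨z, hz1, hz2, rfl, rfl⟩
    have h1 := hin z (by simp only [Sq, Bx] at *; omega)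
    refine ⟨(chart Y v).symm (chart Y u z), ?_, ?_, by simp, ?_⟩
    · generalize (chart Y v).symm (chart Y u z) = t at h1 ⊢
      simp only [Sq, Bx] at *
      omega
    · intro hc
      rw [hc] at h1
      simp only [port, Bx] at h1
      omega
    · have h2 := hE.fst z hz1 hz2
      simp only [Equiv.trans_apply] at h2
      rw [h2]
      simp
  · rintro x y ⟨z, hz1, rfl, rfl⟩
    have h1 := hin z (by simp only [Inn, Bx] at *; omega)
    refine ⟨(chart Y v).symm (chart Y u z), ?_, by simp, ?_⟩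
    · generalize (chart Y v).symm (chart Y u z) = t at h1 ⊢
      simp only [Inn, Bx] at *
      omega
    · have h2 := hE.snd z hz1
      simp only [Equiv.trans_apply] at h2
      rw [h2]
      simp
  · intro a ha
    exact hE.cyc a ha

lemma mono_nest : ∀ d : ℕ, ∀ u v : V, lev Y v - lev Y u = d → 1 ≤ lev Y u → lev Y u < lev Y v →
    Nest r Y u v →
    (∀ x y, E1 r Y u x y → E1 r Y v x y) ∧ (∀ x y, E2 r Y u x y → E2 r Y v x y) ∧
      ∀ a, SameCycle (P1 r Y u) (port (r (lev Y u))) a →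
        SameCycle (P1 r Y v) (port (r (lev Y v))) ((chart Y v).symm (chart Y u a)) := by
  intro d
  induction d using Nat.strong_induction_on with
  | _ d ih =>
    intro u v hd h1 h2 h3
    by_cases hc : ∃ w, lev Y u < lev Y w ∧ lev Y w < lev Y v ∧ Nest r Y u w ∧ Nest r Y w v
    · obtain ⟨w, h4, h5, h6, h7⟩ := hc
      obtain ⟨a1, a2, a3⟩ := ih (lev Y w - lev Y u) (by omega) u w rfl h1 h4 h6
      obtain ⟨b1, b2, b3⟩ := ih (lev Y v - lev Y w) (by omega) w v rfl (by omega) h5 h7
      refine ⟨fun x y h => b1 x y (a1 x y h), fun x y h => b2 x y (a2 x y h), ?_⟩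
      intro a ha
      have := b3 _ (a3 a ha)
      simpa using this
    · exact mono_child hr2 hr8 hT ⟨h1, h2, h3, hc⟩

/-- the four neighbours of a vertex in the interior of a piece -/
lemma four {v : V} (hv : 1 ≤ lev Y v) {z : V} (hz : Inn (r (lev Y v)) z) :
    (P1 r Y v z ≠ (P1 r Y v)⁻¹ z ∧ P1 r Y v z ≠ P2 r Y v z ∧ P1 r Y v z ≠ (P2 r Y v)⁻¹ z ∧
      (P1 r Y v)⁻¹ z ≠ P2 r Y v z ∧ (P1 r Y v)⁻¹ z ≠ (P2 r Y v)⁻¹ z ∧
      P2 r Y v z ≠ (P2 r Y v)⁻¹ z) ∧
    ∀ w, Adj z w ↔ w = P1 r Y v z ∨ w = (P1 r Y v)⁻¹ z ∨ w = P2 r Y v z ∨ w = (P2 r Y v)⁻¹ z := by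
  have hS := std hr2 hr8 hT hv
  set m := r (lev Y v) with hm
  set f := P1 r Y v with hf
  set ρ := P2 r Y v with hρ
  have hzS : Sq m z := by simp only [Inn, Sq] at *; omega
  have hf1 : Sq m (f⁻¹ z) := inv_support hS.out hzS
  have hρ1 : Inn m (ρ⁻¹ z) := inv_support hS.ρout hz
  obtain ⟨a1, a2, a3, a4⟩ := hS.ρin z hz
  obtain ⟨b1, b2, b3, b4⟩ := hS.ρin _ hρ1
  rw [pinv] at b1 b2 b3 b4
  have c1 : Adj z (f z) := hS.adj z hzS
  have c2 : Adj z (f⁻¹ z) := by
    have := hS.adj _ hf1
    rw [pinv] at this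
    exact this.symm
  have d1 : f z ≠ f⁻¹ z := by
    intro hc
    apply hS.no2 z hzS
    rw [hc, pinv]
  have d4 : f⁻¹ z ≠ ρ z := by
    intro hc
    apply a3
    rw [← hc, pinv]
  have d5 : f⁻¹ z ≠ ρ⁻¹ z := by
    intro hc
    apply b2
    rw [← hc, pinv]
  have d6 : ρ z ≠ ρ⁻¹ z := by
    intro hc
    apply a4
    rw [hc, pinv]
  refine ⟨⟨d1, a2, b3, d4, d5, d6⟩, ?_⟩
  intro w
  obtain ⟨p, q, hpq, h⟩ := two_left c1 c2 d1
  have e1 := (h (ρ z)).1 ⟨a1, a2.symm, d4.symm⟩
  have e2 := (h (ρ⁻¹ z)).1 ⟨b1.symm, b3.symm, d5.symm⟩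
  constructor
  · intro hw
    by_cases h1 : w = f z
    · exact Or.inl h1
    by_cases h2 : w = f⁻¹ z
    · exact Or.inr (Or.inl h2)
    have h3 := (h w).1 ⟨hw, h1, h2⟩
    rcases h3 with rfl | rfl
    · rcases e1 with e1 | e1
      · exact Or.inr (Or.inr (Or.inl e1.symm))
      · rcases e2 with e2 | e2
        · exact Or.inr (Or.inr (Or.inr e2.symm))
        · exact absurd (e1.trans e2.symm) d6
    · rcases e1 with e1 | e1
      · rcases e2 with e2 | e2
        · exact absurd (e1.trans e2.symm) d6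
        · exact Or.inr (Or.inr (Or.inr e2.symm))
      · exact Or.inr (Or.inr (Or.inl e1.symm))
  · rintro (rfl | rfl | rfl | rfl)
    · exact c1
    · exact c2
    · exact a1
    · exact b1.symm

lemma e1_iff {v : V} (hv : 1 ≤ lev Y v) {z : V} (hz : Inn (r (lev Y v)) z) (y : V) :
    (E1 r Y v (chart Y v z) y ↔ y = chart Y v (P1 r Y v z)) ∧
    (E1 r Y v y (chart Y v z) ↔ y = chart Y v ((P1 r Y v)⁻¹ z)) := by
  have hS := std hr2 hr8 hT hv
  have hzS : Sq (r (lev Y v)) z := by simp only [Inn, Sq] at *; omega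
  constructor
  · constructor
    · rintro ⟨z', h1, h2, h3, h4⟩
      rw [(chart Y v).injective h3]
      exact h4
    · rintro rfl
      refine ⟨z, hzS, ?_, rfl, rfl⟩
      rintro rfl
      simp only [Inn, port] at hz
      omega
  · constructor
    · rintro ⟨z', h1, h2, h3, h4⟩
      rw [(chart Y v).injective h4, pinv']
      exact h3
    · rintro rfl
      refine ⟨(P1 r Y v)⁻¹ z, inv_support hS.out hzS, ?_, rfl, by rw [pinv]⟩
      intro hc
      have h1 : z = P1 r Y v (port (r (lev Y v))) := by rw [← hc, pinv]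
      have h2 : P1 r Y v (port (r (lev Y v))) = (r (lev Y v) - 1, 1) := hS.prt
      rw [h2] at h1
      rw [h1] at hz
      simp only [Inn] at hz
      omega

lemma e2_iff {v : V} (hv : 1 ≤ lev Y v) {z : V} (hz : Inn (r (lev Y v)) z) (y : V) :
    (E2 r Y v (chart Y v z) y ↔ y = chart Y v (P2 r Y v z)) ∧
    (E2 r Y v y (chart Y v z) ↔ y = chart Y v ((P2 r Y v)⁻¹ z)) := by
  have hS := std hr2 hr8 hT hv
  constructor
  · constructor
    · rintro ⟨z', h1, h3, h4⟩
      rw [(chart Y v).injective h3]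
      exact h4
    · rintro rfl
      exact ⟨z, hz, rfl, rfl⟩
  · constructor
    · rintro ⟨z', h1, h3, h4⟩
      rw [(chart Y v).injective h4, pinv']
      exact h3
    · rintro rfl
      exact ⟨(P2 r Y v)⁻¹ z, inv_support hS.ρout hz, rfl, by rw [pinv]⟩

/-- arrows of a piece stay in its square -/
lemma arrow_bx {v : V} (hv : 1 ≤ lev Y v) {i : Fin 2} {x y : V}
    (h : if i = 0 then E1 r Y v x y else E2 r Y v x y) :
    Bx v (r (lev Y v)) x ∧ Bx v (r (lev Y v)) y ∧ Adj x y := by
  have hS := std hr2 hr8 hT hv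
  have key : ∀ z, Sq (r (lev Y v)) z → Bx v (r (lev Y v)) (chart Y v z) := by
    intro z hz
    have h1 : Bx (0, 0) (r (lev Y v)) z := by simp only [Sq, Bx] at *; omega
    have := ((isAff_chart Y v).bx (0, 0) z (r (lev Y v))).2 h1
    rwa [chart_zero] at this
  have hsub : ∀ z, Inn (r (lev Y v)) z → Sq (r (lev Y v)) z := by
    intro z hz
    simp only [Inn, Sq] at *; omega
  split_ifs at h
  · obtain ⟨z, h1, h2, rfl, rfl⟩ := h
    exact ⟨key _ h1, key _ (map_support hS.out h1), ((isAff_chart Y v).adj _ _).2 (hS.adj _ h1)⟩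
  · obtain ⟨z, h1, rfl, rfl⟩ := h
    exact ⟨key _ (hsub _ h1), key _ (hsub _ (map_support hS.ρout h1)),
      ((isAff_chart Y v).adj _ _).2 (hS.ρin _ h1).1⟩

lemma arrow_unique {v : V} {i : Fin 2} {x y y' : V}
    (h : if i = 0 then E1 r Y v x y else E2 r Y v x y)
    (h' : if i = 0 then E1 r Y v x y' else E2 r Y v x y') : y = y' := by
  split_ifs at h h'
  · obtain ⟨z, h1, h2, h3, rfl⟩ := h
    obtain ⟨z', h1', h2', h3', rfl⟩ := h'
    rw [h3] at h3'
    rw [(chart Y v).injective h3']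
  · obtain ⟨z, h1, h3, rfl⟩ := h
    obtain ⟨z', h1', h3', rfl⟩ := h'
    rw [h3] at h3'
    rw [(chart Y v).injective h3']

lemma arrow_unique' {v : V} {i : Fin 2} {x x' y : V}
    (h : if i = 0 then E1 r Y v x y else E2 r Y v x y)
    (h' : if i = 0 then E1 r Y v x' y else E2 r Y v x' y) : x = x' := by
  split_ifs at h h'
  · obtain ⟨z, h1, h2, rfl, h3⟩ := h
    obtain ⟨z', h1', h2', rfl, h3'⟩ := h'
    rw [h3] at h3'
    rw [(P1 r Y v).injective ((chart Y v).injective h3')]
  · obtain ⟨z, h1, rfl, h3⟩ := h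
    obtain ⟨z', h1', rfl, h3'⟩ := h'
    rw [h3] at h3'
    rw [(P2 r Y v).injective ((chart Y v).injective h3')]

lemma arrow_mono {u v : V} (h1 : 1 ≤ lev Y u) (h2 : lev Y u ≤ lev Y v) (hne : u ≠ v)
    (h3 : Nest r Y u v) {i : Fin 2} {x y : V} (h : if i = 0 then E1 r Y u x y else E2 r Y u x y) :
    if i = 0 then E1 r Y v x y else E2 r Y v x y := by
  have hlt : lev Y u < lev Y v := by
    rcases lt_or_eq_of_le h2 with h4 | h4
    · exact h4
    · unfold Nest at h3
      rw [h4] at h3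
      unfold Bx at h3
      omega
  obtain ⟨a, b, -⟩ := mono_nest hr2 hr8 hT _ u v rfl h1 hlt h3
  split_ifs at h ⊢
  · exact a _ _ h
  · exact b _ _ h

/-- the decoration near a vertex in the core of a piece -/
lemma dec_iff {v : V} (hv : 1 ≤ lev Y v) {z : V} (hz : Inn (r (lev Y v)) z) (i : Fin 2) (y : V) :
    (Dec r Y i (chart Y v z) y ↔
      (if i = 0 then E1 r Y v (chart Y v z) y else E2 r Y v (chart Y v z) y)) ∧
    (Dec r Y i y (chart Y v z) ↔
      (if i = 0 then E1 r Y v y (chart Y v z) else E2 r Y v y (chart Y v z))) := by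
  have hzv : Bx v (r (lev Y v)) (chart Y v z) := by
    have h1 : Bx (0, 0) (r (lev Y v)) z := by simp only [Inn, Bx] at *; omega
    have := ((isAff_chart Y v).bx (0, 0) z (r (lev Y v))).2 h1
    rwa [chart_zero] at this
  constructor
  · refine ⟨?_, fun h => ⟨v, hv, h⟩⟩
    rintro ⟨w, hw, h⟩
    obtain ⟨h1, h2, h3⟩ := arrow_bx hr2 hr8 hT hw h
    by_cases hwv : w = v
    · subst hwv; exact h
    · rcases le_total (lev Y w) (lev Y v) with hle | hle
      · rcases hT w v hwv hw hle with h4 | h4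
        · exact arrow_mono hr2 hr8 hT hw hle hwv h4 h
        · exact absurd ((hzv.trans h1.symm).mono (by omega)) h4
      · rcases hT v w (Ne.symm hwv) hv hle with h4 | h4
        · have hex : ∃ y0, (if i = 0 then E1 r Y v (chart Y v z) y0 else E2 r Y v (chart Y v z) y0) := by
            split_ifs
            · exact ⟨_, ((e1_iff hr2 hr8 hT hv hz _).1).2 rfl⟩
            · exact ⟨_, ((e2_iff hr2 hr8 hT hv hz _).1).2 rfl⟩
          obtain ⟨y0, hy0⟩ := hex
          have h5 := arrow_mono hr2 hr8 hT hv hle (Ne.symm hwv) h4 hy0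
          rw [arrow_unique hr2 hr8 hT h h5]
          exact hy0
        · exact absurd ((h1.trans hzv.symm).mono (by omega)) h4
  · refine ⟨?_, fun h => ⟨v, hv, h⟩⟩
    rintro ⟨w, hw, h⟩
    obtain ⟨h2, h1, h3⟩ := arrow_bx hr2 hr8 hT hw h
    by_cases hwv : w = v
    · subst hwv; exact h
    · rcases le_total (lev Y w) (lev Y v) with hle | hle
      · rcases hT w v hwv hw hle with h4 | h4
        · exact arrow_mono hr2 hr8 hT hw hle hwv h4 h
        · exact absurd ((hzv.trans h1.symm).mono (by omega)) h4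
      · rcases hT v w (Ne.symm hwv) hv hle with h4 | h4
        · have hex : ∃ y0, (if i = 0 then E1 r Y v y0 (chart Y v z) else E2 r Y v y0 (chart Y v z)) := by
            split_ifs
            · exact ⟨_, ((e1_iff hr2 hr8 hT hv hz _).2).2 rfl⟩
            · exact ⟨_, ((e2_iff hr2 hr8 hT hv hz _).2).2 rfl⟩
          obtain ⟨y0, hy0⟩ := hex
          have h5 := arrow_mono hr2 hr8 hT hv hle (Ne.symm hwv) h4 hy0
          rw [arrow_unique' hr2 hr8 hT h h5]
          exact hy0
        · exact absurd ((h1.trans hzv.symm).mono (by omega)) h4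

variable (hcov : ∀ (x : V) (N : ℕ), ∃ v, N ≤ lev Y v ∧ Bx v (r (lev Y v) - 12) x)
include hcov

/-- every vertex is in the interior of a piece -/
lemma core (x : V) : ∃ v z, 1 ≤ lev Y v ∧ Inn (r (lev Y v)) z ∧ x = chart Y v z := by
  obtain ⟨v, h1, h2⟩ := hcov x 1
  refine ⟨v, (chart Y v).symm x, h1, ?_, by simp⟩
  have h3 : Bx (0, 0) (r (lev Y v) - 12) ((chart Y v).symm x) := by
    rw [← (isAff_chart Y v).bx, chart_zero, Equiv.apply_symm_apply]
    exact h2
  generalize (chart Y v).symm x = t at h3 ⊢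
  simp only [Inn, Bx] at *
  omega

theorem dec_adj {i : Fin 2} {x y : V} (h : Dec r Y i x y) : Adj x y := by
  obtain ⟨v, hv, h⟩ := h
  exact (arrow_bx hr2 hr8 hT hv h).2.2

theorem dec_out (i : Fin 2) (x : V) : ∃! y, Dec r Y i x y := by
  obtain ⟨v, z, hv, hz, rfl⟩ := core hr2 hr8 hT hcov x
  simp only [(dec_iff hr2 hr8 hT hv hz i _).1]
  split_ifs
  · simp only [(e1_iff hr2 hr8 hT hv hz _).1]
    exact ⟨_, rfl, fun _ h => h⟩
  · simp only [(e2_iff hr2 hr8 hT hv hz _).1]
    exact ⟨_, rfl, fun _ h => h⟩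

theorem dec_into (i : Fin 2) (x : V) : ∃! y, Dec r Y i y x := by
  obtain ⟨v, z, hv, hz, rfl⟩ := core hr2 hr8 hT hcov x
  simp only [(dec_iff hr2 hr8 hT hv hz i _).2]
  split_ifs
  · simp only [(e1_iff hr2 hr8 hT hv hz _).2]
    exact ⟨_, rfl, fun _ h => h⟩
  · simp only [(e2_iff hr2 hr8 hT hv hz _).2]
    exact ⟨_, rfl, fun _ h => h⟩

theorem dec_edge {x y : V} (h : Adj x y) :
    ∃! p : Fin 2 × Bool, (p.2 = true ∧ Dec r Y p.1 x y) ∨ (p.2 = false ∧ Dec r Y p.1 y x) := by
  obtain ⟨v, z, hv, hz, rfl⟩ := core hr2 hr8 hT hcov x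
  obtain ⟨z', rfl⟩ : ∃ z', y = chart Y v z' := ⟨(chart Y v).symm y, by simp⟩
  rw [(isAff_chart Y v).adj] at h
  obtain ⟨⟨d1, d2, d3, d4, d5, d6⟩, hfour⟩ := four hr2 hr8 hT hv hz
  have A : ∀ i, Dec r Y i (chart Y v z) (chart Y v z') ↔
      (if i = 0 then z' = P1 r Y v z else z' = P2 r Y v z) := by
    intro i
    rw [(dec_iff hr2 hr8 hT hv hz i _).1]
    split_ifs
    · rw [(e1_iff hr2 hr8 hT hv hz _).1]
      exact (chart Y v).injective.eq_iff
    · rw [(e2_iff hr2 hr8 hT hv hz _).1]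
      exact (chart Y v).injective.eq_iff
  have B : ∀ i, Dec r Y i (chart Y v z') (chart Y v z) ↔
      (if i = 0 then z' = (P1 r Y v)⁻¹ z else z' = (P2 r Y v)⁻¹ z) := by
    intro i
    rw [(dec_iff hr2 hr8 hT hv hz i _).2]
    split_ifs
    · rw [(e1_iff hr2 hr8 hT hv hz _).2]
      exact (chart Y v).injective.eq_iff
    · rw [(e2_iff hr2 hr8 hT hv hz _).2]
      exact (chart Y v).injective.eq_iff
  simp only [A, B]
  rcases (hfour z').1 h with h1 | h1 | h1 | h1
  · refine ⟨(0, true), Or.inl ⟨rfl, by simpa using h1⟩, ?_⟩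
    rintro ⟨i, s⟩ (⟨hs, h2⟩ | ⟨hs, h2⟩) <;> dsimp only at hs h2 <;> subst hs <;> split_ifs at h2 with hi
    · rw [hi]
    · exact absurd (h1.symm.trans h2) d2
    · exact absurd (h1.symm.trans h2) d1
    · exact absurd (h1.symm.trans h2) d3
  · refine ⟨(0, false), Or.inr ⟨rfl, by simpa using h1⟩, ?_⟩
    rintro ⟨i, s⟩ (⟨hs, h2⟩ | ⟨hs, h2⟩) <;> dsimp only at hs h2 <;> subst hs <;> split_ifs at h2 with hi
    · exact absurd (h2.symm.trans h1) d1
    · exact absurd (h1.symm.trans h2) d4
    · rw [hi]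
    · exact absurd (h1.symm.trans h2) d5
  · refine ⟨(1, true), Or.inl ⟨rfl, by simpa using h1⟩, ?_⟩
    rintro ⟨i, s⟩ (⟨hs, h2⟩ | ⟨hs, h2⟩) <;> dsimp only at hs h2 <;> subst hs <;> split_ifs at h2 with hi
    · exact absurd (h2.symm.trans h1) d2
    · rw [Fin.eq_one_of_ne_zero i hi]
    · exact absurd (h2.symm.trans h1) d4
    · exact absurd (h1.symm.trans h2) d6
  · refine ⟨(1, false), Or.inr ⟨rfl, by simpa using h1⟩, ?_⟩
    rintro ⟨i, s⟩ (⟨hs, h2⟩ | ⟨hs, h2⟩) <;> dsimp only at hs h2 <;> subst hs <;> split_ifs at h2 with hi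
    · exact absurd (h2.symm.trans h1) d3
    · exact absurd (h2.symm.trans h1) d6
    · exact absurd (h2.symm.trans h1) d5
    · rw [Fin.eq_one_of_ne_zero i hi]

theorem dec_path : ∃ x : ℤ → V, Function.Injective x ∧ ∀ n, Dec r Y 0 (x n) (x (n + 1)) := by
  classical
  have ho := dec_out hr2 hr8 hT hcov 0
  have hi := dec_into hr2 hr8 hT hcov 0
  let Φ : Perm V :=
    { toFun := fun x => (ho x).choose
      invFun := fun x => (hi x).choose
      left_inv := by
        intro x
        have h1 := (ho x).choose_spec.1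
        exact ((hi _).choose_spec.2 x h1).symm
      right_inv := by
        intro x
        have h1 := (hi x).choose_spec.1
        exact ((ho _).choose_spec.2 x h1).symm }
  have hΦ : ∀ x, Dec r Y 0 x (Φ x) := fun x => (ho x).choose_spec.1
  have hΦ' : ∀ x y, Dec r Y 0 x y → Φ x = y := fun x y h => ((ho x).choose_spec.2 y h).symm
  obtain ⟨v1, hv1, -⟩ := hcov (0, 0) 1
  set z0 := chart Y v1 (port (r (lev Y v1))) with hz0
  -- the cycle of the port is on the path
  have hcyc : ∀ v, 1 ≤ lev Y v → ∀ a, SameCycle (P1 r Y v) (port (r (lev Y v))) a →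
      SameCycle Φ (chart Y v (port (r (lev Y v)))) (chart Y v a) := by
    intro v hv a ha
    have hS := std hr2 hr8 hT hv
    have hfin : FinOrb (P1 r Y v) (port (r (lev Y v))) :=
      finOrb_of_finite (sq_finite (r (lev Y v))) hS.out _
    obtain ⟨n, rfl⟩ := exists_neg_pow hfin ha
    clear ha
    induction n with
    | zero => exact SameCycle.refl _ _
    | succ n ih =>
      set a := ((P1 r Y v)⁻¹ ^ (n + 1)) (port (r (lev Y v))) with hadef
      have hfa : P1 r Y v a = ((P1 r Y v)⁻¹ ^ n) (port (r (lev Y v))) := by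
        rw [hadef, pow_succ', Perm.mul_apply, pinv]
      by_cases hap : a = port (r (lev Y v))
      · rw [hap]
      · have hpS : Sq (r (lev Y v)) (port (r (lev Y v))) := by
          have := hr8 (lev Y v)
          simp only [Sq, port]; omega
        have haS : Sq (r (lev Y v)) a := by
          have h1 : ∀ k : ℕ, Sq (r (lev Y v)) (((P1 r Y v)⁻¹ ^ k) (port (r (lev Y v)))) := by
            intro k
            induction k with
            | zero => exact hpS
            | succ k ih =>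
              rw [pow_succ', Perm.mul_apply]
              exact inv_support hS.out ih
          exact h1 (n + 1)
        have h2 : Φ (chart Y v a) = chart Y v (P1 r Y v a) :=
          hΦ' _ _ ⟨v, hv, by rw [if_pos rfl]; exact ⟨a, haS, hap, rfl, rfl⟩⟩
        rw [hfa] at h2
        rw [← h2] at ih
        exact sc_apply_right ih
  -- large squares
  have hbig : ∀ k : ℕ, ∃ v, 1 ≤ lev Y v ∧ (v = v1 ∨ (lev Y v1 < lev Y v ∧ Nest r Y v1 v)) ∧
      Bx v (r (lev Y v) - k) z0 := by
    intro k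
    induction k with
    | zero =>
      refine ⟨v1, hv1, Or.inl rfl, ?_⟩
      have h1 : Bx (0, 0) (r (lev Y v1)) (port (r (lev Y v1))) := by
        have := hr8 (lev Y v1)
        simp only [Bx, port]; omega
      have := ((isAff_chart Y v1).bx (0, 0) _ (r (lev Y v1))).2 h1
      rw [chart_zero] at this
      exact this.mono (by simp)
    | succ k ih =>
      obtain ⟨v, h1, h2, h3⟩ := ih
      obtain ⟨v', h4, h5⟩ := hcov v (lev Y v + 1)
      have hne : v ≠ v' := by rintro rfl; omega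
      have h6 : Nest r Y v v' := by
        rcases hT v v' hne h1 (by omega) with h6 | h6
        · exact h6
        · have := hr8 (lev Y v)
          exact absurd (h5.mono (by omega)) h6
      refine ⟨v', by omega, Or.inr ⟨?_, ?_⟩, ?_⟩
      · rcases h2 with rfl | ⟨h2, -⟩ <;> omega
      · rcases h2 with rfl | ⟨-, h2⟩
        · exact h6
        · exact (Bx.trans h6 h2).mono (by omega)
      · exact (Bx.trans h6 h3).mono (by push_cast; omega)
  -- the path through `z0` is infinite
  have hinf : ∀ k : ℕ, 0 < k → (Φ ^ k) z0 ≠ z0 := by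
    intro k hk hc
    have horb : ∀ a, SameCycle Φ z0 a → Bx z0 k a := by
      rintro a ⟨j, rfl⟩
      have h1 : (Φ ^ j) z0 = (Φ ^ (j % k).toNat) z0 := by
        have h2 : j = (j % k) + k * (j / k) := by rw [Int.emod_add_mul_ediv]
        have h3 : (Φ ^ ((k : ℤ) * (j / k))) z0 = z0 := by
          rw [zpow_mul, zpow_natCast]
          exact Equiv.Perm.zpow_apply_eq_self_of_apply_eq_self hc _
        conv_lhs => rw [h2]
        rw [zpow_add, Perm.mul_apply, h3]
        congr 1
        rw [← zpow_natCast, Int.toNat_of_nonneg (Int.emod_nonneg _ (by omega))]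
      have h4 : ∀ n : ℕ, Bx z0 n ((Φ ^ n) z0) := by
        intro n
        induction n with
        | zero => simp [Bx]
        | succ n ih =>
          rw [pow_succ', Perm.mul_apply]
          have h5 := dec_adj hr2 hr8 hT hcov (hΦ ((Φ ^ n) z0))
          have h6 : Bx ((Φ ^ n) z0) 1 (Φ ((Φ ^ n) z0)) := by
            generalize (Φ ^ n) z0 = s at *
            generalize Φ s = t at *
            simp only [Adj, Bx] at *
            omega
          exact (ih.trans h6).mono (by push_cast; omega)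
      rw [h1]
      refine (h4 _).mono ?_
      have h5 := Int.emod_lt_of_pos j (by omega : (0 : ℤ) < k)
      have h6 := Int.emod_nonneg j (by omega : (k : ℤ) ≠ 0)
      omega
    obtain ⟨v, h1, h2, h3⟩ := hbig (k + 2)
    have h4 : SameCycle Φ z0 (chart Y v (port (r (lev Y v)))) := by
      rcases h2 with rfl | ⟨h2, h2'⟩
      · exact SameCycle.refl _ _
      · have h5 := (mono_nest hr2 hr8 hT _ v1 v rfl hv1 h2 h2').2.2 _ (SameCycle.refl _ _)
        have h6 := hcyc v h1 _ h5
        rw [Equiv.apply_symm_apply] at h6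
        exact h6.symm
    have h5 := h3.trans (horb _ h4)
    have h6 : Bx (0, 0) (r (lev Y v) - 2) (port (r (lev Y v))) := by
      rw [← (isAff_chart Y v).bx, chart_zero]
      exact h5.mono (by push_cast; omega)
    simp only [Bx, port] at h6
    omega
  refine ⟨fun n => (Φ ^ n) z0, ?_, ?_⟩
  · intro i j hij
    dsimp only at hij
    by_contra hne
    rcases lt_or_gt_of_ne hne with hlt | hlt
    · apply hinf (j - i).toNat (by omega)
      have h1 : (Φ ^ i) ((Φ ^ (j - i)) z0) = (Φ ^ i) z0 := by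
        rw [← Perm.mul_apply, ← zpow_add, hij]
        congr 2
        ring
      have h2 := (Φ ^ i).injective h1
      rw [← zpow_natCast, Int.toNat_of_nonneg (by omega)]
      exact h2
    · apply hinf (i - j).toNat (by omega)
      have h1 : (Φ ^ j) ((Φ ^ (i - j)) z0) = (Φ ^ j) z0 := by
        rw [← Perm.mul_apply, ← zpow_add, ← hij]
        congr 2
        ring
      have h2 := (Φ ^ j).injective h1
      rw [← zpow_natCast, Int.toNat_of_nonneg (by omega)]
      exact h2
  · intro n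
    have h1 : (Φ ^ (n + 1)) z0 = Φ ((Φ ^ n) z0) := by
      rw [add_comm, zpow_add, zpow_one, Perm.mul_apply]
    dsimp only
    rw [h1]
    exact hΦ _

end

end Pool.Agent.J4H99.SD
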